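import Mathlib

set_option autoImplicit false
set_option linter.unusedSectionVars false

open Classical

namespace Pool.Agent.Helper580.Simon

variable {V : Type} [Fintype V]

/-- Connectivity of two vertices through a finite set of open edges. -/
def Rch (A : Finset (Sym2 V)) (a b : V) : Prop :=
  (SimpleGraph.fromEdgeSet (A : Set (Sym2 V))).Reachable a b

/-- The number of open clusters. -/
noncomputable def kk (A : Finset (Sym2 V)) : ℕ :=
  Nat.card (SimpleGraph.fromEdgeSet (A : Set (Sym2 V))).ConnectedComponent

lemma Rch.refl (A : Finset (Sym2 V)) (a : V) : Rch A a a := SimpleGraph.Reachable.refl a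

lemma Rch.symm {A : Finset (Sym2 V)} {a b : V} (h : Rch A a b) : Rch A b a :=
  SimpleGraph.Reachable.symm h

lemma Rch.trans {A : Finset (Sym2 V)} {a b c : V} (h : Rch A a b) (h' : Rch A b c) : Rch A a c :=
  SimpleGraph.Reachable.trans h h'

lemma Rch.comm {A : Finset (Sym2 V)} {a b : V} : Rch A a b ↔ Rch A b a :=
  ⟨Rch.symm, Rch.symm⟩

lemma Rch.edge {A : Finset (Sym2 V)} {a b : V} (h : s(a, b) ∈ A) : Rch A a b := by
  by_cases hab : a = b
  · subst hab; exact Rch.refl _ _
  · apply SimpleGraph.Adj.reachable
    simp [SimpleGraph.fromEdgeSet_adj, h, hab]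

lemma Rch.mono {A B : Finset (Sym2 V)} (hAB : A ⊆ B) {a b : V} (h : Rch A a b) : Rch B a b := by
  unfold Rch at *
  exact h.mono (SimpleGraph.fromEdgeSet_mono (by exact_mod_cast hAB))

/-- Induction principle: a relation that is closed under open edges contains connectivity. -/
lemma Rch.induct {A : Finset (Sym2 V)} {a b : V} (h : Rch A a b) (P : V → Prop) (h0 : P a)
    (hs : ∀ c d, s(c, d) ∈ A → Rch A a c → P c → P d) : P b := by
  obtain ⟨w⟩ := h
  have key : ∀ (u v : V) (w : (SimpleGraph.fromEdgeSet (A : Set (Sym2 V))).Walk u v),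
      Rch A a u → P u → P v := by
    intro u v w
    induction w with
    | nil => intro _ h; exact h
    | @cons u1 v1 w1 hadj w ih =>
      intro hr hp
      have hm : s(u1, v1) ∈ A := by
        have := (SimpleGraph.fromEdgeSet_adj _).1 hadj
        exact_mod_cast this.1
      exact ih (hr.trans (Rch.edge hm)) (hs _ _ hm hr hp)
  exact key _ _ w (Rch.refl _ _) h0

lemma Rch_insert {A : Finset (Sym2 V)} {a b x y : V} :
    Rch (insert s(a, b) A) x y ↔
      (Rch A x y ∨ (Rch A x a ∧ Rch A b y) ∨ (Rch A x b ∧ Rch A a y)) := by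
  constructor
  · intro h
    refine h.induct (fun v => (Rch A x v ∨ (Rch A x a ∧ Rch A b v) ∨ (Rch A x b ∧ Rch A a v)))
      (Or.inl (Rch.refl _ _)) ?_
    intro c d hcd _ hc
    rcases Finset.mem_insert.1 hcd with h1 | h1
    · rcases Sym2.eq_iff.1 h1 with ⟨rfl, rfl⟩ | ⟨rfl, rfl⟩
      · rcases hc with hc | ⟨h2, h3⟩ | ⟨h2, h3⟩
        · exact Or.inr (Or.inl ⟨hc, Rch.refl _ _⟩)
        · exact Or.inr (Or.inl ⟨h2, Rch.refl _ _⟩)
        · exact Or.inl h2
      · rcases hc with hc | ⟨h2, h3⟩ | ⟨h2, h3⟩
        · exact Or.inr (Or.inr ⟨hc, Rch.refl _ _⟩)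
        · exact Or.inl h2
        · exact Or.inr (Or.inr ⟨h2, Rch.refl _ _⟩)
    · have he := Rch.edge h1
      rcases hc with hc | ⟨h2, h3⟩ | ⟨h2, h3⟩
      · exact Or.inl (hc.trans he)
      · exact Or.inr (Or.inl ⟨h2, h3.trans he⟩)
      · exact Or.inr (Or.inr ⟨h2, h3.trans he⟩)
  · have hab : Rch (insert s(a, b) A) a b := Rch.edge (Finset.mem_insert_self _ _)
    have hsub : A ⊆ insert s(a, b) A := Finset.subset_insert _ _
    rintro (h | ⟨h1, h2⟩ | ⟨h1, h2⟩)
    · exact h.mono hsub
    · exact ((h1.mono hsub).trans hab).trans (h2.mono hsub)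
    · exact ((h1.mono hsub).trans hab.symm).trans (h2.mono hsub)

lemma kk_insert_of_rch {A : Finset (Sym2 V)} {a b : V} (h : Rch A a b) :
    kk (insert s(a, b) A) = kk A := by
  unfold kk
  have hiff : ∀ x y, (SimpleGraph.fromEdgeSet ((insert s(a, b) A : Finset (Sym2 V)) :
      Set (Sym2 V))).Reachable x y ↔
      (SimpleGraph.fromEdgeSet (A : Set (Sym2 V))).Reachable x y := by
    intro x y
    change Rch _ x y ↔ Rch _ x y
    rw [Rch_insert]
    constructor
    · rintro (h1 | ⟨h1, h2⟩ | ⟨h1, h2⟩)
      · exact h1
      · exact (h1.trans h).trans h2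
      · exact (h1.trans h.symm).trans h2
    · intro h1; exact Or.inl h1
  apply Nat.card_congr
  exact Quot.congr (Equiv.refl V) (fun x y => hiff x y)

lemma kk_insert_of_not_rch {A : Finset (Sym2 V)} {a b : V} (h : ¬ Rch A a b) :
    kk (insert s(a, b) A) + 1 = kk A := by
  unfold kk
  set G := SimpleGraph.fromEdgeSet (A : Set (Sym2 V)) with hG
  set G' := SimpleGraph.fromEdgeSet ((insert s(a, b) A : Finset (Sym2 V)) : Set (Sym2 V)) with hG'
  have hle : G ≤ G' := SimpleGraph.fromEdgeSet_mono (by
    exact_mod_cast (Finset.subset_insert _ _))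
  let φ : G.ConnectedComponent → Option G'.ConnectedComponent := fun c =>
    if c = G.connectedComponentMk b then none else
      some (c.map (SimpleGraph.Hom.ofLE hle))
  have hφ : Function.Bijective φ := by
    constructor
    · intro c d hcd
      simp only [φ] at hcd
      split_ifs at hcd with h1 h2 h2
      · rw [h1, h2]
      · have h3 := Option.some.inj hcd
        induction c using SimpleGraph.ConnectedComponent.ind with | _ c =>
        induction d using SimpleGraph.ConnectedComponent.ind with | _ d =>
        rw [SimpleGraph.ConnectedComponent.map_mk, SimpleGraph.ConnectedComponent.map_mk,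
          SimpleGraph.ConnectedComponent.eq] at h3
        have h3' : Rch (insert s(a, b) A) c d := h3
        rw [Rch_insert] at h3'
        rw [SimpleGraph.ConnectedComponent.eq] at h1 h2 ⊢
        rcases h3' with h4 | ⟨h4, h5⟩ | ⟨h4, h5⟩
        · exact h4
        · exact absurd h5.symm h2
        · exact absurd h4 h1
    · intro o
      cases o with
      | none => exact ⟨G.connectedComponentMk b, by simp [φ]⟩
      | some c' =>
        induction c' using SimpleGraph.ConnectedComponent.ind with | _ v =>
        by_cases hv : Rch A v b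
        · refine ⟨G.connectedComponentMk a, ?_⟩
          have h1 : G.connectedComponentMk a ≠ G.connectedComponentMk b := by
            rw [Ne, SimpleGraph.ConnectedComponent.eq]; exact h
          simp only [φ, h1, if_false, SimpleGraph.ConnectedComponent.map_mk, Option.some.injEq]
          rw [SimpleGraph.ConnectedComponent.eq]
          change Rch (insert s(a, b) A) a v
          rw [Rch_insert]
          exact Or.inr (Or.inl ⟨Rch.refl _ _, hv.symm⟩)
        · refine ⟨G.connectedComponentMk v, ?_⟩
          have h1 : G.connectedComponentMk v ≠ G.connectedComponentMk b := by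
            rw [Ne, SimpleGraph.ConnectedComponent.eq]; exact hv
          simp only [φ, h1, if_false, SimpleGraph.ConnectedComponent.map_mk, Option.some.injEq]
          rfl
  rw [Nat.card_congr (Equiv.ofBijective φ hφ), Finite.card_option]

lemma kk_insert (A : Finset (Sym2 V)) (a b : V) :
    kk (insert s(a, b) A) + (if Rch A a b then 0 else 1) = kk A := by
  by_cases h : Rch A a b
  · simp [h, kk_insert_of_rch h]
  · simp [h, kk_insert_of_not_rch h]

lemma kk_anti {A B : Finset (Sym2 V)} (h : A ⊆ B) : kk B ≤ kk A := by
  have key : ∀ L : Finset (Sym2 V), kk (L ∪ A) ≤ kk A := by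
    intro L
    induction L using Finset.induction with
    | empty => simp
    | insert e L _ ih =>
      induction e using Sym2.ind with | _ a b =>
      rw [Finset.insert_union]
      have := kk_insert (L ∪ A) a b
      omega
  have := key B
  rwa [Finset.union_eq_left.2 h] at this

/-- Adding a set of edges lowers the number of clusters more from a smaller configuration. -/
lemma kk_super {A A' : Finset (Sym2 V)} (h : A ⊆ A') (L : Finset (Sym2 V)) :
    kk A' + kk (L ∪ A) ≤ kk A + kk (L ∪ A') := by
  induction L using Finset.induction with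
  | empty => simp [add_comm]
  | insert e L _ ih =>
    induction e using Sym2.ind with | _ a b =>
    rw [Finset.insert_union, Finset.insert_union]
    have h1 := kk_insert (L ∪ A) a b
    have h2 := kk_insert (L ∪ A') a b
    have h3 : Rch (L ∪ A) a b → Rch (L ∪ A') a b := fun h4 =>
      h4.mono (Finset.union_subset_union_right h)
    by_cases h4 : Rch (L ∪ A) a b
    · have h5 := h3 h4
      simp only [h4, h5, if_true] at h1 h2
      omega
    · simp only [h4, if_false] at h1
      split_ifs at h2 <;> omega

/-- If, along all intermediate configurations, connectivity of the endpoints agree, the increments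
agree. -/
lemma kk_inc_eq {A A' : Finset (Sym2 V)} (L : Finset (Sym2 V))
    (h : ∀ L' ⊆ L, ∀ a b, s(a, b) ∈ L → (Rch (L' ∪ A) a b ↔ Rch (L' ∪ A') a b)) :
    kk A' + kk (L ∪ A) = kk A + kk (L ∪ A') := by
  induction L using Finset.induction with
  | empty => simp [add_comm]
  | insert e L _ ih =>
    induction e using Sym2.ind with | _ a b =>
    have ih' := ih (fun L' hL' c d hcd => h L' (hL'.trans (Finset.subset_insert _ _)) c d
      (Finset.mem_insert_of_mem hcd))
    rw [Finset.insert_union, Finset.insert_union]
    have h1 := kk_insert (L ∪ A) a b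
    have h2 := kk_insert (L ∪ A') a b
    have h3 := h L (Finset.subset_insert _ _) a b (Finset.mem_insert_self _ _)
    by_cases h4 : Rch (L ∪ A) a b
    · have h5 := h3.1 h4
      simp only [h4, h5, if_true] at h1 h2
      omega
    · have h5 : ¬ Rch (L ∪ A') a b := fun h6 => h4 (h3.2 h6)
      simp only [h4, h5, if_false] at h1 h2
      omega

end Pool.Agent.Helper580.Simon
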