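import Pool.Agent.Helper580.IsingLat

set_option autoImplicit false

namespace Pool.Agent.Helper580.IsingCheb

open Finset Pool.Agent.Helper580.IsingGKS Pool.Agent.Helper580.IsingGraph
  Pool.Agent.Helper580.IsingLat

variable {d : ℕ}

/-- the bulk of the box -/
noncomputable def bulk (d L : ℕ) : Finset (Fin d → ℤ) :=
  Finset.Icc (fun _ => ((L / 4 + 1 : ℕ) : ℤ)) (fun _ => ((3 * L / 4 : ℕ) : ℤ))

theorem mem_bulk {L : ℕ} {x : Fin d → ℤ} :
    x ∈ bulk d L ↔ ∀ i, ((L / 4 + 1 : ℕ) : ℤ) ≤ x i ∧ x i ≤ ((3 * L / 4 : ℕ) : ℤ) := by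
  unfold bulk
  rw [Finset.mem_Icc, Pi.le_def, Pi.le_def]
  exact ⟨fun h i => ⟨h.1 i, h.2 i⟩, fun h => ⟨fun i => (h i).1, fun i => (h i).2⟩⟩

theorem bulk_subset (L : ℕ) : bulk d L ⊆ box d L := by
  intro x hx
  rw [mem_bulk] at hx
  rw [mem_box]
  intro i
  have := hx i
  constructor <;> omega

theorem card_bulk (hd : 1 ≤ d) (L : ℕ) : L / 2 - 1 ≤ (bulk d L).card := by
  unfold bulk
  rw [Pi.card_Icc]
  simp only [Int.card_Icc, Finset.prod_const, Finset.card_univ, Fintype.card_fin]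
  have h1 : L / 2 - 1 ≤ (((3 * L / 4 : ℕ) : ℤ) + 1 - ((L / 4 + 1 : ℕ) : ℤ)).toNat := by omega
  refine h1.trans ?_
  exact Nat.le_self_pow (by omega) _

/-- probability weights -/
noncomputable def pr (Λ : Finset (Fin d → ℤ)) (β : ℝ) (S : Finset (Fin d → ℤ)) : ℝ :=
  wt nb β S / Zf nb Λ β

theorem pr_nonneg (Λ : Finset (Fin d → ℤ)) (β : ℝ) (S : Finset (Fin d → ℤ)) : 0 ≤ pr Λ β S :=
  div_nonneg (wt_pos _ _ _).le (Zf_pos _ _ _).le

theorem pr_sum (Λ : Finset (Fin d → ℤ)) (β : ℝ) : ∑ S ∈ Λ.powerset, pr Λ β S = 1 := by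
  unfold pr
  rw [← Finset.sum_div]
  exact div_self (Zf_pos nb Λ β).ne'

theorem E_eq (Λ : Finset (Fin d → ℤ)) (β : ℝ) (A : Finset (Fin d → ℤ)) :
    E nb Λ β A = ∑ S ∈ Λ.powerset, pr Λ β S * chi A S := by
  unfold E pr
  rw [Finset.sum_div]
  exact Finset.sum_congr rfl fun S _ => by ring

/-- total spin over `B` -/
noncomputable def mag (B S : Finset (Fin d → ℤ)) : ℝ := ∑ x ∈ B, sgn S x

/-- Chebyshev -/
theorem cheb {ι : Type*} (s : Finset ι) (p M : ι → ℝ) (hp : ∀ i ∈ s, 0 ≤ p i)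
    (hs : ∑ i ∈ s, p i = 1) (hμ : 0 ≤ ∑ i ∈ s, p i * M i) :
    (∑ i ∈ s, p i * M i) ^ 2 * ∑ i ∈ s.filter (fun i => M i ≤ 0), p i ≤
      ∑ i ∈ s, p i * M i ^ 2 - (∑ i ∈ s, p i * M i) ^ 2 := by
  set μ := ∑ i ∈ s, p i * M i with hμdef
  have h1 : ∑ i ∈ s, p i * (M i - μ) ^ 2 = ∑ i ∈ s, p i * M i ^ 2 - μ ^ 2 := by
    have : ∀ i ∈ s, p i * (M i - μ) ^ 2 = p i * M i ^ 2 - 2 * μ * (p i * M i) + μ ^ 2 * p i := by
      intro i _; ring
    rw [Finset.sum_congr rfl this, Finset.sum_add_distrib, Finset.sum_sub_distrib,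
      ← Finset.mul_sum, ← Finset.mul_sum, hs, ← hμdef]
    ring
  rw [← h1, Finset.mul_sum]
  refine le_trans (Finset.sum_le_sum (g := fun i => p i * (M i - μ) ^ 2) ?_)
    (Finset.sum_le_sum_of_subset_of_nonneg (Finset.filter_subset _ _) ?_)
  · intro i hi
    rw [Finset.mem_filter] at hi
    have h2 := hp i hi.1
    have h3 : μ ^ 2 ≤ (M i - μ) ^ 2 := by nlinarith [hi.2]
    nlinarith
  · intro i hi _
    exact mul_nonneg (hp i hi) (sq_nonneg _)

theorem card_cube (m : ℕ) : (cube d m).card = (2 * m + 1) ^ d := by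
  unfold cube
  rw [Pi.card_Icc]
  simp only [Int.card_Icc, Finset.prod_const, Finset.card_univ, Fintype.card_fin]
  congr 1
  omega

theorem first_moment {β : ℝ} (hβ : 0 ≤ β) (L : ℕ) :
    ((bulk d L).card : ℝ) * ms d β ≤
      ∑ S ∈ (box d L).powerset, pr (box d L) β S * mag (bulk d L) S := by
  have : ∑ S ∈ (box d L).powerset, pr (box d L) β S * mag (bulk d L) S =
      ∑ x ∈ bulk d L, E nb (box d L) β {x} := by
    unfold mag
    simp_rw [Finset.mul_sum]
    rw [Finset.sum_comm]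
    refine Finset.sum_congr rfl fun x _ => ?_
    rw [E_eq]
    exact Finset.sum_congr rfl fun S _ => by rw [chi_singleton]
  rw [this, ← nsmul_eq_mul, ← Finset.sum_const]
  exact Finset.sum_le_sum fun x hx => E_box_ge hβ (bulk_subset L hx)

theorem second_moment {β : ℝ} (hβ : 0 ≤ β) (L r : ℕ) (hr : r ≤ L / 4) :
    ∑ S ∈ (box d L).powerset, pr (box d L) β S * mag (bulk d L) S ^ 2 ≤
      ((bulk d L).card : ℝ) ^ 2 * mg d r β ^ 2 +
        ((bulk d L).card : ℝ) * ((2 * (2 * r + 1) + 1) ^ d : ℕ) := by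
  have h1 : ∑ S ∈ (box d L).powerset, pr (box d L) β S * mag (bulk d L) S ^ 2 =
      ∑ x ∈ bulk d L, ∑ y ∈ bulk d L,
        ∑ S ∈ (box d L).powerset, pr (box d L) β S * (sgn S x * sgn S y) := by
    have : ∀ S ∈ (box d L).powerset, pr (box d L) β S * mag (bulk d L) S ^ 2 =
        ∑ x ∈ bulk d L, ∑ y ∈ bulk d L, pr (box d L) β S * (sgn S x * sgn S y) := by
      intro S _
      unfold mag
      rw [sq, Finset.sum_mul_sum, Finset.mul_sum]
      exact Finset.sum_congr rfl fun x _ => by rw [Finset.mul_sum]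
    rw [Finset.sum_congr rfl this, Finset.sum_comm]
    refine Finset.sum_congr rfl fun x _ => ?_
    rw [Finset.sum_comm]
  rw [h1]
  have h2 : ∀ x ∈ bulk d L, ∀ y ∈ bulk d L,
      ∑ S ∈ (box d L).powerset, pr (box d L) β S * (sgn S x * sgn S y) ≤
        mg d r β ^ 2 + (if y ∈ tr x (cube d (2 * r + 1)) then 1 else 0) := by
    intro x hx y hy
    have hle1 : ∑ S ∈ (box d L).powerset, pr (box d L) β S * (sgn S x * sgn S y) ≤ 1 := by
      rw [← pr_sum (box d L) β]
      apply Finset.sum_le_sum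
      intro S _
      have h3 := pr_nonneg (box d L) β S
      have h4 : sgn S x * sgn S y ≤ 1 := by
        unfold sgn; split_ifs <;> norm_num
      nlinarith
    split_ifs with hm
    · have := sq_nonneg (mg d r β)
      linarith
    · rw [add_zero]
      have hne : x ≠ y := by
        rintro rfl
        apply hm
        rw [mem_tr, sub_self]
        exact zero_mem_cube _
      have hsep : ∃ i, 2 * (r : ℤ) + 1 < |x i - y i| := by
        by_contra hcon
        push Not at hcon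
        apply hm
        rw [mem_tr, mem_cube]
        intro i
        have := abs_le.mp (hcon i)
        simp only [Pi.sub_apply]
        push_cast
        constructor <;> omega
      rw [mem_bulk] at hx hy
      have h5 := E_box_pair hβ (L := L) (r := r) (x := x) (y := y)
        (fun i => by have := hx i; constructor <;> omega)
        (fun i => by have := hy i; constructor <;> omega) hsep
      refine le_trans (le_of_eq ?_) h5
      rw [E_eq]
      exact Finset.sum_congr rfl fun S _ => by rw [chi_pair hne]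
  have h3 : ∀ x ∈ bulk d L, ∑ y ∈ bulk d L,
      ∑ S ∈ (box d L).powerset, pr (box d L) β S * (sgn S x * sgn S y) ≤
        ((bulk d L).card : ℝ) * mg d r β ^ 2 + ((2 * (2 * r + 1) + 1) ^ d : ℕ) := by
    intro x hx
    refine (Finset.sum_le_sum (h2 x hx)).trans ?_
    rw [Finset.sum_add_distrib, Finset.sum_const, nsmul_eq_mul]
    gcongr
    rw [Finset.sum_ite, Finset.sum_const_zero, add_zero, Finset.sum_const, nsmul_eq_mul, mul_one]
    rw [← card_cube, ← card_tr x (cube d (2 * r + 1))]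
    exact_mod_cast Finset.card_le_card (fun y hy => (Finset.mem_filter.mp hy).2)
  refine (Finset.sum_le_sum h3).trans (le_of_eq ?_)
  rw [Finset.sum_const, nsmul_eq_mul]
  ring

/-- the bulk magnetisation is positive with high probability -/
theorem bulk_mag {β : ℝ} (hβ : 0 ≤ β) (hms : 0 < ms d β) (hd : 1 ≤ d) :
    ∃ L₀ : ℕ, ∀ L ≥ L₀,
      ∑ S ∈ (box d L).powerset.filter (fun S => mag (bulk d L) S ≤ 0), pr (box d L) β S ≤ 1 / 8 := by
  obtain ⟨r, hr⟩ := exists_mg_lt (d := d) (β := β) (ε := ms d β / 64) (by positivity)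
  set m := ms d β with hm
  set K : ℝ := (((2 * (2 * r + 1) + 1) ^ d : ℕ) : ℝ) with hK
  have hK0 : 0 ≤ K := by positivity
  obtain ⟨B₀, hB₀⟩ := exists_nat_ge (16 * K / m ^ 2)
  refine ⟨max (4 * r) (2 * B₀ + 4), fun L hL => ?_⟩
  have hL1 : 4 * r ≤ L := le_trans (le_max_left _ _) hL
  have hL2 : 2 * B₀ + 4 ≤ L := le_trans (le_max_right _ _) hL
  have hrL : r ≤ L / 4 := by omega
  have hcard := card_bulk hd L
  have hBn : B₀ + 1 ≤ (bulk d L).card := by omega
  set B : ℝ := ((bulk d L).card : ℝ) with hB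
  have hBpos : 0 < B := by
    have : 0 < (bulk d L).card := by omega
    rw [hB]; exact_mod_cast this
  have hBK : 16 * K ≤ B * m ^ 2 := by
    have h1 : 16 * K / m ^ 2 ≤ B := by
      refine hB₀.trans ?_
      have : B₀ ≤ (bulk d L).card := by omega
      rw [hB]; exact_mod_cast this
    rwa [div_le_iff₀ (by positivity)] at h1
  have hμ := first_moment (d := d) hβ L
  have hv := second_moment (d := d) hβ L r hrL
  rw [← hm, ← hB] at hμ
  rw [← hB, ← hK] at hv
  have hμ0 : 0 < B * m := by positivity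
  have hch := cheb (box d L).powerset (pr (box d L) β) (mag (bulk d L))
    (fun S _ => pr_nonneg _ _ _) (pr_sum _ _) (hμ0.le.trans hμ)
  set μ := ∑ S ∈ (box d L).powerset, pr (box d L) β S * mag (bulk d L) S with hμd
  set P := ∑ S ∈ (box d L).powerset.filter (fun S => mag (bulk d L) S ≤ 0), pr (box d L) β S
    with hP
  have hμpos : 0 < μ := lt_of_lt_of_le hμ0 hμ
  have hmr : mg d r β ^ 2 ≤ (17 / 16) * m ^ 2 := by
    have h0 := mg_nonneg (d := d) hβ r
    have h1 : mg d r β ≤ (65 / 64) * m := by linarith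
    have h2 : mg d r β ^ 2 ≤ ((65 / 64) * m) ^ 2 := by
      apply pow_le_pow_left₀ h0 h1
    nlinarith [sq_nonneg m]
  have hsec : B ^ 2 * mg d r β ^ 2 + B * K ≤ (9 / 8) * (B * m) ^ 2 := by
    have h1 : B ^ 2 * mg d r β ^ 2 ≤ B ^ 2 * ((17 / 16) * m ^ 2) := by gcongr
    have h2 : B * K ≤ B * (B * m ^ 2 / 16) := by
      apply mul_le_mul_of_nonneg_left _ hBpos.le
      linarith
    nlinarith
  have hμsq : (B * m) ^ 2 ≤ μ ^ 2 := pow_le_pow_left₀ hμ0.le hμ 2
  have hfin : μ ^ 2 * P ≤ μ ^ 2 * (1 / 8) := by nlinarith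
  exact le_of_mul_le_mul_left hfin (by positivity)

end Pool.Agent.Helper580.IsingCheb
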