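import Mathlib

set_option autoImplicit false

namespace Pool.Agent.Helper580.IsingConv

open Finset Matrix

variable {Ω : Type*} [Fintype Ω] [DecidableEq Ω]

theorem row_sum_pow (P : Matrix Ω Ω ℝ) (hrow : ∀ a, ∑ b, P a b = 1) (m : ℕ) (a : Ω) :
    ∑ b, (P ^ m) a b = 1 := by
  induction m with
  | zero => simp [Matrix.one_apply]
  | succ m ih =>
    rw [pow_succ]
    simp_rw [Matrix.mul_apply]
    rw [Finset.sum_comm]
    simp_rw [← Finset.mul_sum, hrow, mul_one]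
    exact ih

theorem pow_nonneg' (P : Matrix Ω Ω ℝ) (hP : ∀ a b, 0 ≤ P a b) (m : ℕ) (a b : Ω) :
    0 ≤ (P ^ m) a b := by
  induction m generalizing a b with
  | zero => simp only [pow_zero, Matrix.one_apply]; split_ifs <;> norm_num
  | succ m ih =>
    rw [pow_succ, Matrix.mul_apply]
    exact Finset.sum_nonneg fun c _ => mul_nonneg (ih a c) (hP c b)

theorem stat_pow (P : Matrix Ω Ω ℝ) (p : Ω → ℝ) (h : p ᵥ* P = p) (m : ℕ) : p ᵥ* P ^ m = p := by
  induction m with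
  | zero => simp
  | succ m ih => rw [pow_succ, ← Matrix.vecMul_vecMul, ih, h]

theorem sum_vecMul (Q : Matrix Ω Ω ℝ) (hrow : ∀ a, ∑ b, Q a b = 1) (μ : Ω → ℝ) :
    ∑ b, (μ ᵥ* Q) b = ∑ a, μ a := by
  simp only [Matrix.vecMul, dotProduct]
  rw [Finset.sum_comm]
  simp_rw [← Finset.mul_sum, hrow, mul_one]

theorem contract (Q : Matrix Ω Ω ℝ) (hrow : ∀ a, ∑ b, Q a b = 1) {δ : ℝ}
    (hδ : ∀ a b, δ ≤ Q a b) (μ : Ω → ℝ) (hμ : ∑ a, μ a = 0) :
    ∑ b, |(μ ᵥ* Q) b| ≤ (1 - δ * Fintype.card Ω) * ∑ a, |μ a| := by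
  have h1 : ∀ b, (μ ᵥ* Q) b = ∑ a, μ a * (Q a b - δ) := by
    intro b
    simp only [Matrix.vecMul, dotProduct]
    simp_rw [mul_sub]
    rw [Finset.sum_sub_distrib, ← Finset.sum_mul, hμ]; ring
  calc ∑ b, |(μ ᵥ* Q) b| ≤ ∑ b, ∑ a, |μ a| * (Q a b - δ) := by
        refine Finset.sum_le_sum fun b _ => ?_
        rw [h1]
        refine (Finset.abs_sum_le_sum_abs _ _).trans (Finset.sum_le_sum fun a _ => ?_)
        rw [abs_mul, abs_of_nonneg (sub_nonneg.mpr (hδ a b))]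
    _ = ∑ a, |μ a| * (1 - δ * Fintype.card Ω) := by
        rw [Finset.sum_comm]
        refine Finset.sum_congr rfl fun a _ => ?_
        rw [← Finset.mul_sum, Finset.sum_sub_distrib, hrow, Finset.sum_const, Finset.card_univ,
          nsmul_eq_mul]
        ring
    _ = _ := by rw [← Finset.sum_mul]; ring

theorem exists_close [Nonempty Ω] (P : Matrix Ω Ω ℝ) (p : Ω → ℝ)
    (hrow : ∀ a, ∑ b, P a b = 1) (hstat : p ᵥ* P = p)
    (hp : ∑ a, p a = 1) (m : ℕ) (hpos : ∀ a b, 0 < (P ^ m) a b) (ν : Ω → ℝ)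
    (hν : ∑ a, ν a = 1) {ε : ℝ} (hε : 0 < ε) :
    ∃ t : ℕ, (∑ a, |(ν ᵥ* P ^ t) a - p a|) / 2 ≤ ε := by
  classical
  obtain ⟨δ, hδ0, hδ⟩ : ∃ δ : ℝ, 0 < δ ∧ ∀ a b, δ ≤ (P ^ m) a b := by
    obtain ⟨c, -, hc⟩ := Finset.exists_min_image (Finset.univ : Finset (Ω × Ω))
      (fun c => (P ^ m) c.1 c.2) Finset.univ_nonempty
    exact ⟨_, hpos c.1 c.2, fun a b => hc (a, b) (Finset.mem_univ _)⟩
  have hrm := row_sum_pow P hrow m
  have hcard : (0 : ℝ) < Fintype.card Ω := by exact_mod_cast Fintype.card_pos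
  have hδ1 : δ * Fintype.card Ω ≤ 1 := by
    obtain ⟨a⟩ := ‹Nonempty Ω›
    rw [← hrm a]
    calc δ * Fintype.card Ω = ∑ _b : Ω, δ := by
          rw [Finset.sum_const, Finset.card_univ, nsmul_eq_mul]; ring
      _ ≤ _ := Finset.sum_le_sum fun b _ => hδ a b
  set r : ℝ := 1 - δ * Fintype.card Ω with hr
  have hr0 : 0 ≤ r := by linarith
  have hr1 : r < 1 := by
    have : 0 < δ * Fintype.card Ω := by positivity
    linarith
  have hk : ∀ k : ℕ, ∑ a, |((ν - p) ᵥ* (P ^ m) ^ k) a| ≤ r ^ k * ∑ a, |(ν - p) a| := by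
    intro k
    induction k with
    | zero => simp
    | succ k ih =>
      rw [pow_succ, ← Matrix.vecMul_vecMul]
      have hz : ∑ a, ((ν - p) ᵥ* (P ^ m) ^ k) a = 0 := by
        rw [sum_vecMul _ (row_sum_pow _ hrm k)]
        simp only [Pi.sub_apply, Finset.sum_sub_distrib, hν, hp, sub_self]
      refine (contract (P ^ m) hrm hδ _ hz).trans ?_
      calc r * ∑ a, |((ν - p) ᵥ* (P ^ m) ^ k) a| ≤ r * (r ^ k * ∑ a, |(ν - p) a|) := by gcongr
        _ = _ := by rw [pow_succ]; ring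
  set C : ℝ := ∑ a, |(ν - p) a| with hC
  have hC0 : 0 ≤ C := Finset.sum_nonneg fun a _ => abs_nonneg _
  obtain ⟨k, hk2⟩ := exists_pow_lt_of_lt_one (show 0 < 2 * ε / (C + 1) by positivity) hr1
  refine ⟨m * k, ?_⟩
  have h1 : ∀ a, (ν ᵥ* P ^ (m * k)) a - p a = ((ν - p) ᵥ* (P ^ m) ^ k) a := by
    intro a
    rw [Matrix.sub_vecMul, Pi.sub_apply, ← pow_mul, stat_pow P p hstat]
  simp_rw [h1]
  have h2 := hk k
  have h3 : r ^ k * C ≤ 2 * ε := by
    have h4 : r ^ k * (C + 1) ≤ 2 * ε := by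
      rw [lt_div_iff₀ (by positivity)] at hk2
      exact hk2.le
    have h5 : 0 ≤ r ^ k := by positivity
    nlinarith
  linarith

/-- single site moves generate everything -/
theorem irred {ι S : Type*} [Fintype ι] [DecidableEq ι] [Fintype S] [DecidableEq S]
    (P : Matrix (ι → S) (ι → S) ℝ) (hP : ∀ a b, 0 ≤ P a b)
    (hmove : ∀ (σ : ι → S) (x : ι) (s : S), 0 < P σ (Function.update σ x s)) (A : Finset ι) :
    ∀ (σ η : ι → S), (∀ x ∉ A, σ x = η x) → 0 < (P ^ A.card) σ η := by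
  induction A using Finset.induction_on with
  | empty =>
    intro σ η h
    have : σ = η := funext fun x => h x (Finset.notMem_empty x)
    subst this
    simp
  | insert x A hx ih =>
    intro σ η h
    rw [Finset.card_insert_of_notMem hx, pow_succ', Matrix.mul_apply]
    refine lt_of_lt_of_le ?_ (Finset.single_le_sum (f := fun c => P σ c * (P ^ A.card) c η)
      (fun c _ => mul_nonneg (hP _ _) (pow_nonneg' P hP _ _ _))
      (Finset.mem_univ (Function.update σ x (η x))))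
    apply mul_pos (hmove σ x (η x))
    apply ih
    intro y hy
    by_cases hyx : y = x
    · subst hyx; simp
    · rw [Function.update_of_ne hyx]
      exact h y (by simp [hyx, hy])

end Pool.Agent.Helper580.IsingConv
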