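import Pool.Agent.Helper580.IsingLat

set_option autoImplicit false

namespace Pool.Agent.Helper580.IsingCut

open Finset Pool.Agent.Helper580.IsingGKS Pool.Agent.Helper580.IsingGraph
  Pool.Agent.Helper580.IsingLat

/-! ### counting connected sets -/

section count
variable {K : Type*} [DecidableEq K]

/-- `T` is connected for the adjacency `pn` -/
def CC (pn : K → Finset K) (T : Finset K) : Prop :=
  ∀ T1 ⊆ T, T1.Nonempty → (∀ u ∈ T1, ∀ v ∈ T, v ∈ pn u → v ∈ T1) → T1 = T

theorem count (pn : K → Finset K) (Δ : ℕ) (hΔ : ∀ u, (pn u).card ≤ Δ) (e0 : K)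
    (𝒯 : Finset (Finset K)) (h0 : ∀ T ∈ 𝒯, e0 ∈ T) (hc : ∀ T ∈ 𝒯, CC pn T) :
    ∑ T ∈ 𝒯, ((1 : ℝ) / 2) ^ ((Δ + 1) * T.card) ≤ 1 := by
  classical
  let bdr : Finset K → Finset K := fun T => T ∪ T.biUnion pn
  let 𝓤 : Finset K := 𝒯.biUnion bdr
  have hU : ∀ T ∈ 𝒯, bdr T ⊆ 𝓤 := fun T hT => Finset.subset_biUnion_of_mem bdr hT
  have hcard : ∀ T, (bdr T).card ≤ (Δ + 1) * T.card := by
    intro T
    refine (Finset.card_union_le _ _).trans ?_
    have : (T.biUnion pn).card ≤ T.card * Δ := Finset.card_biUnion_le_card_mul _ _ _ (fun u _ => hΔ u)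
    nlinarith
  have hinj : (𝒯.sigma fun T => (𝓤 \ bdr T).powerset).card ≤ 𝓤.powerset.card := by
    apply Finset.card_le_card_of_injOn (fun p => p.2 ∪ p.1)
    · rintro ⟨T, ω⟩ hp
      simp only [Finset.coe_sigma, Set.mem_sigma_iff, Finset.mem_coe, Finset.mem_powerset] at hp ⊢
      apply Finset.union_subset
      · exact hp.2.trans Finset.sdiff_subset
      · exact (Finset.subset_union_left).trans (hU T hp.1)
    · rintro ⟨T1, ω1⟩ h1 ⟨T2, ω2⟩ h2 heq
      simp only [Finset.coe_sigma, Set.mem_sigma_iff, Finset.mem_coe, Finset.mem_powerset] at h1 h2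
      simp only at heq
      have key : ∀ (T1 T2 ω1 ω2 : Finset K), T1 ∈ 𝒯 → T2 ∈ 𝒯 → ω1 ⊆ 𝓤 \ bdr T1 →
          ω1 ∪ T1 = ω2 ∪ T2 → T2 ⊆ T1 := by
        intro T1 T2 ω1 ω2 m1 m2 s1 he
        by_contra hns
        have hne : T1 ∩ T2 ≠ T2 := by
          intro h; exact hns (Finset.inter_eq_right.mp h)
        have := mt (hc T2 m2 (T1 ∩ T2) Finset.inter_subset_right
          ⟨e0, Finset.mem_inter.mpr ⟨h0 T1 m1, h0 T2 m2⟩⟩) hne
        push Not at this
        obtain ⟨u, hu, v, hv, hvu, hvn⟩ := this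
        have hv1 : v ∉ T1 := fun h => hvn (Finset.mem_inter.mpr ⟨h, hv⟩)
        have hvω : v ∈ ω1 ∪ T1 := by rw [he]; exact Finset.mem_union_right _ hv
        rcases Finset.mem_union.mp hvω with h | h
        · have := s1 h
          rw [Finset.mem_sdiff] at this
          exact this.2 (Finset.mem_union_right _ (Finset.mem_biUnion.mpr
            ⟨u, (Finset.mem_inter.mp hu).1, hvu⟩))
        · exact hv1 h
      have e1 : T1 = T2 := Finset.Subset.antisymm
        (key T2 T1 ω2 ω1 h2.1 h1.1 h2.2 heq.symm) (key T1 T2 ω1 ω2 h1.1 h2.1 h1.2 heq)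
      subst e1
      have hd : ∀ ω : Finset K, ω ⊆ 𝓤 \ bdr T1 → (ω ∪ T1) \ T1 = ω := by
        intro ω hω
        ext x
        simp only [Finset.mem_sdiff, Finset.mem_union]
        constructor
        · rintro ⟨h | h, h'⟩
          · exact h
          · exact absurd h h'
        · intro h
          refine ⟨Or.inl h, fun h' => ?_⟩
          have := hω h
          rw [Finset.mem_sdiff] at this
          exact this.2 (Finset.mem_union_left _ h')
      have e2 : ω1 = ω2 := by rw [← hd ω1 h1.2, ← hd ω2 h2.2, heq]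
      subst e2
      rfl
  rw [Finset.card_sigma] at hinj
  have hterm : ∀ T ∈ 𝒯, (2 : ℝ) ^ 𝓤.card * ((1 : ℝ) / 2) ^ ((Δ + 1) * T.card) ≤
      (((𝓤 \ bdr T).powerset.card : ℕ) : ℝ) := by
    intro T hT
    rw [Finset.card_powerset, Finset.card_sdiff_of_subset (hU T hT)]
    have hle := Finset.card_le_card (hU T hT)
    have h1 : (2 : ℝ) ^ 𝓤.card = 2 ^ (𝓤.card - (bdr T).card) * 2 ^ (bdr T).card := by
      rw [← pow_add]; congr 1; omega
    rw [h1]
    push_cast
    have h2 : ((1 : ℝ) / 2) ^ ((Δ + 1) * T.card) ≤ (1 / 2) ^ (bdr T).card :=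
      pow_le_pow_of_le_one (by norm_num) (by norm_num) (hcard T)
    calc (2 : ℝ) ^ (𝓤.card - (bdr T).card) * 2 ^ (bdr T).card * (1 / 2) ^ ((Δ + 1) * T.card)
        ≤ (2 : ℝ) ^ (𝓤.card - (bdr T).card) * 2 ^ (bdr T).card * (1 / 2) ^ (bdr T).card := by
          gcongr
      _ = (2 : ℝ) ^ (𝓤.card - (bdr T).card) := by
          rw [mul_assoc, ← mul_pow]; norm_num
  have hsum : (2 : ℝ) ^ 𝓤.card * ∑ T ∈ 𝒯, ((1 : ℝ) / 2) ^ ((Δ + 1) * T.card) ≤ 2 ^ 𝓤.card * 1 := by
    rw [Finset.mul_sum, mul_one]
    refine (Finset.sum_le_sum hterm).trans ?_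
    rw [Finset.card_powerset] at hinj
    exact_mod_cast hinj
  exact le_of_mul_le_mul_left hsum (by positivity)

end count

/-! ### the edge boundary -/

variable {d : ℕ}

/-- edge boundary; the pair `(x,i)` stands for the edge from `x` to `x + uv i` -/
def ed (F : Finset (Fin d → ℤ)) : Finset ((Fin d → ℤ) × Fin d) :=
  ((F ∪ F.biUnion nb) ×ˢ (Finset.univ : Finset (Fin d))).filter
    (fun e => ¬ (e.1 ∈ F ↔ e.1 + uv e.2 ∈ F))

theorem mem_ed {F : Finset (Fin d → ℤ)} {e : (Fin d → ℤ) × Fin d} :
    e ∈ ed F ↔ ¬ (e.1 ∈ F ↔ e.1 + uv e.2 ∈ F) := by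
  unfold ed
  rw [Finset.mem_filter, Finset.mem_product]
  constructor
  · exact fun h => h.2
  · intro h
    refine ⟨⟨?_, Finset.mem_univ _⟩, h⟩
    rw [Finset.mem_union, Finset.mem_biUnion]
    by_cases h1 : e.1 ∈ F
    · exact Or.inl h1
    · right
      have h2 : e.1 + uv e.2 ∈ F := by
        by_contra h3; exact h ⟨fun h => absurd h h1, fun h => absurd h h3⟩
      exact ⟨_, h2, mem_nb.mpr ⟨e.2, Or.inr (by abel)⟩⟩

theorem uv_inj {i j : Fin d} (h : uv i = uv j) : i = j := by
  by_contra hij
  have := congrFun h i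
  simp [uv, hij] at this

theorem card_ed_le (F : Finset (Fin d → ℤ)) : (ed F).card ≤ bd nb F := by
  classical
  unfold bd
  rw [← Finset.card_sigma]
  apply Finset.card_le_card_of_injOn (fun e => if e.1 ∈ F then (⟨e.1, e.1 + uv e.2⟩ :
    Σ _ : (Fin d → ℤ), (Fin d → ℤ)) else ⟨e.1 + uv e.2, e.1⟩)
  · intro e he
    rw [Finset.mem_coe, mem_ed] at he
    rw [Finset.mem_coe, Finset.mem_sigma]
    dsimp only
    split_ifs with h1
    · have h2 : e.1 + uv e.2 ∉ F := fun h => he ⟨fun _ => h, fun _ => h1⟩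
      exact ⟨h1, Finset.mem_sdiff.mpr ⟨mem_nb.mpr ⟨e.2, Or.inl rfl⟩, h2⟩⟩
    · have h2 : e.1 + uv e.2 ∈ F := by
        by_contra h3; exact he ⟨fun h => absurd h h1, fun h => absurd h h3⟩
      exact ⟨h2, Finset.mem_sdiff.mpr
        ⟨mem_nb.mpr ⟨e.2, Or.inr (add_sub_cancel_right _ _).symm⟩, h1⟩⟩
  · rintro ⟨x, i⟩ hx ⟨y, j⟩ hy h
    rw [Finset.mem_coe, mem_ed] at hx hy
    simp only at h hx hy
    split_ifs at h with h1 h2 h2
    · simp only [Sigma.mk.injEq, heq_eq_eq] at h
      obtain ⟨rfl, h⟩ := h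
      rw [uv_inj (add_left_cancel h)]
    · simp only [Sigma.mk.injEq, heq_eq_eq] at h
      exact absurd (h.1 ▸ h1 : y + uv j ∈ F) (by
        intro h3
        exfalso
        have h4 := h.1
        have h5 := h.2
        rw [h4] at h5
        have h6 : uv j + uv i = 0 := by
          have : y + (uv j + uv i) = y + 0 := by rw [← add_assoc, h5, add_zero]
          exact add_left_cancel this
        have h7 := congrFun h6 i
        by_cases hij : j = i
        · subst hij; simp [uv] at h7
        · simp [uv, Ne.symm hij] at h7)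
    · simp only [Sigma.mk.injEq, heq_eq_eq] at h
      exfalso
      have h4 := h.1
      have h5 := h.2
      rw [← h4] at h5
      have h6 : uv i + uv j = 0 := by
        have : x + (uv i + uv j) = x + 0 := by rw [← add_assoc, ← h5, add_zero]
        exact add_left_cancel this
      have h7 := congrFun h6 i
      by_cases hij : i = j
      · subst hij; simp [uv] at h7
      · simp [uv, hij] at h7
    · simp only [Sigma.mk.injEq, heq_eq_eq] at h
      obtain ⟨h, rfl⟩ := h
      rw [uv_inj (add_left_cancel h)]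

/-- the four edges of a plaquette -/
def plaq (z : Fin d → ℤ) (i j : Fin d) : Finset ((Fin d → ℤ) × Fin d) :=
  {(z, i), (z + uv i, j), (z + uv j, i), (z, j)}

theorem card_plaq (z : Fin d → ℤ) (i j : Fin d) : (plaq z i j).card ≤ 4 := by
  unfold plaq
  exact Finset.card_le_four

/-- edges sharing a plaquette -/
def pn (e : (Fin d → ℤ) × Fin d) : Finset ((Fin d → ℤ) × Fin d) :=
  Finset.univ.biUnion fun j => plaq e.1 e.2 j ∪ plaq (e.1 - uv j) e.2 j

theorem card_pn (e : (Fin d → ℤ) × Fin d) : (pn e).card ≤ 8 * d := by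
  unfold pn
  refine (Finset.card_biUnion_le_card_mul _ _ 8 (fun j _ => ?_)).trans ?_
  · refine (Finset.card_union_le _ _).trans ?_
    have := card_plaq e.1 e.2 j
    have := card_plaq (e.1 - uv j) e.2 j
    omega
  · rw [Finset.card_univ, Fintype.card_fin]; omega

theorem plaq_comm (z : Fin d → ℤ) (i j : Fin d) : plaq z i j = plaq z j i := by
  unfold plaq
  ext e
  simp only [Finset.mem_insert, Finset.mem_singleton]
  tauto

theorem mem_pn_of_plaq {z : Fin d → ℤ} {i j : Fin d} {u v : (Fin d → ℤ) × Fin d}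
    (hu : u ∈ plaq z i j) (hv : v ∈ plaq z i j) : v ∈ pn u := by
  have hu' := hu
  unfold plaq at hu
  simp only [Finset.mem_insert, Finset.mem_singleton] at hu
  unfold pn
  rw [Finset.mem_biUnion]
  rcases hu with rfl | rfl | rfl | rfl
  · exact ⟨j, Finset.mem_univ _, Finset.mem_union_left _ hv⟩
  · refine ⟨i, Finset.mem_univ _, Finset.mem_union_right _ ?_⟩
    simp only [add_sub_cancel_right]
    rw [plaq_comm]; exact hv
  · refine ⟨j, Finset.mem_univ _, Finset.mem_union_right _ ?_⟩
    simp only [add_sub_cancel_right]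
    exact hv
  · refine ⟨i, Finset.mem_univ _, Finset.mem_union_left _ ?_⟩
    rw [plaq_comm]; exact hv

/-- indicator mod 2 -/
def om (T : Finset ((Fin d → ℤ) × Fin d)) (e : (Fin d → ℤ) × Fin d) : ZMod 2 :=
  if e ∈ T then 1 else 0

/-- the potential: number of edges of `T` on the ray from `x` in direction `i0`, mod 2 -/
def pot (i0 : Fin d) (T : Finset ((Fin d → ℤ) × Fin d)) (x : Fin d → ℤ) : ZMod 2 :=
  ((T.filter (fun e => e.2 = i0 ∧ (∀ j, j ≠ i0 → e.1 j = x j) ∧ x i0 ≤ e.1 i0)).card : ZMod 2)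

theorem pot_step0 (i0 : Fin d) (T : Finset ((Fin d → ℤ) × Fin d)) (x : Fin d → ℤ) :
    pot i0 T x = pot i0 T (x + uv i0) + om T (x, i0) := by
  classical
  unfold pot om
  by_cases h : (x, i0) ∈ T
  · rw [if_pos h]
    have : T.filter (fun e => e.2 = i0 ∧ (∀ j, j ≠ i0 → e.1 j = x j) ∧ x i0 ≤ e.1 i0) =
        insert (x, i0) (T.filter (fun e => e.2 = i0 ∧ (∀ j, j ≠ i0 → e.1 j = (x + uv i0) j) ∧
          (x + uv i0) i0 ≤ e.1 i0)) := by
      ext e
      simp only [Finset.mem_filter, Finset.mem_insert]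
      constructor
      · rintro ⟨h1, h2, h3, h4⟩
        by_cases he : e.1 i0 = x i0
        · left
          apply Prod.ext
          · funext j
            by_cases hj : j = i0
            · rw [hj]; exact he
            · exact h3 j hj
          · exact h2
        · right
          refine ⟨h1, h2, fun j hj => ?_, ?_⟩
          · rw [h3 j hj]; simp [uv, hj]
          · simp [uv]; omega
      · rintro (rfl | ⟨h1, h2, h3, h4⟩)
        · exact ⟨h, rfl, fun _ _ => rfl, le_refl _⟩
        · refine ⟨h1, h2, fun j hj => ?_, ?_⟩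
          · rw [h3 j hj]; simp [uv, hj]
          · simp [uv] at h4; omega
    rw [this, Finset.card_insert_of_notMem]
    · push_cast; rfl
    · simp only [Finset.mem_filter, not_and]
      intro _ _ _
      simp [uv]
  · rw [if_neg h, add_zero]
    congr 2
    ext e
    simp only [Finset.mem_filter]
    constructor
    · rintro ⟨h1, h2, h3, h4⟩
      refine ⟨h1, h2, fun j hj => ?_, ?_⟩
      · rw [h3 j hj]; simp [uv, hj]
      · have he : e.1 i0 ≠ x i0 := by
          intro he
          apply h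
          have : e = (x, i0) := by
            apply Prod.ext
            · funext j
              by_cases hj : j = i0
              · rw [hj]; exact he
              · exact h3 j hj
            · exact h2
          rw [← this]; exact h1
        simp [uv]; omega
    · rintro ⟨h1, h2, h3, h4⟩
      refine ⟨h1, h2, fun j hj => ?_, ?_⟩
      · rw [h3 j hj]; simp [uv, hj]
      · simp [uv] at h4; omega

/-- closedness of `T` on plaquettes -/
def Closed (T : Finset ((Fin d → ℤ) × Fin d)) : Prop :=
  ∀ (z : Fin d → ℤ) (i j : Fin d), i ≠ j →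
    om T (z, i) + om T (z + uv i, j) + om T (z + uv j, i) + om T (z, j) = 0

theorem closed_of_closure (F : Finset (Fin d → ℤ)) (T : Finset ((Fin d → ℤ) × Fin d))
    (hT : T ⊆ ed F) (hcl : ∀ u ∈ T, ∀ v ∈ ed F, v ∈ pn u → v ∈ T) : Closed T := by
  intro z i j _
  have hc : ∀ e : (Fin d → ℤ) × Fin d, om (ed F) e =
      (if e.1 ∈ F then (1 : ZMod 2) else 0) + (if e.1 + uv e.2 ∈ F then (1 : ZMod 2) else 0) := by
    intro e
    unfold om
    by_cases h1 : e.1 ∈ F <;> by_cases h2 : e.1 + uv e.2 ∈ F
    · rw [if_neg (by rw [mem_ed]; simp [h1, h2]), if_pos h1, if_pos h2]; decide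
    · rw [if_pos (by rw [mem_ed]; simp [h1, h2]), if_pos h1, if_neg h2]; decide
    · rw [if_pos (by rw [mem_ed]; simp [h1, h2]), if_neg h1, if_pos h2]; decide
    · rw [if_neg (by rw [mem_ed]; simp [h1, h2]), if_neg h1, if_neg h2]; decide
  have m1 : (z, i) ∈ plaq z i j := by simp [plaq]
  have m2 : (z + uv i, j) ∈ plaq z i j := by simp [plaq]
  have m3 : (z + uv j, i) ∈ plaq z i j := by simp [plaq]
  have m4 : (z, j) ∈ plaq z i j := by simp [plaq]
  by_cases hex : ∃ u ∈ plaq z i j, u ∈ T
  · obtain ⟨u, hu, huT⟩ := hex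
    have heq : ∀ v ∈ plaq z i j, om T v = om (ed F) v := by
      intro v hv
      unfold om
      by_cases hvF : v ∈ ed F
      · rw [if_pos hvF, if_pos (hcl u huT v hvF (mem_pn_of_plaq hu hv))]
      · rw [if_neg hvF, if_neg (fun h => hvF (hT h))]
    rw [heq _ m1, heq _ m2, heq _ m3, heq _ m4, hc, hc, hc, hc]
    simp only
    have e1 : z + uv j + uv i = z + uv i + uv j := by abel
    rw [e1]
    have h2 : ∀ a : ZMod 2, a + a = 0 := by decide
    generalize (if z ∈ F then (1 : ZMod 2) else 0) = a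
    generalize (if z + uv i ∈ F then (1 : ZMod 2) else 0) = b
    generalize (if z + uv i + uv j ∈ F then (1 : ZMod 2) else 0) = c
    generalize (if z + uv j ∈ F then (1 : ZMod 2) else 0) = e
    have : a + b + (b + c) + (e + c) + (a + e) = (a + a) + (b + b) + (c + c) + (e + e) := by ring
    rw [this]; simp only [h2]
  · push Not at hex
    have h0 : ∀ v ∈ plaq z i j, om T v = 0 := fun v hv => by
      unfold om; rw [if_neg (hex v hv)]
    rw [h0 _ m1, h0 _ m2, h0 _ m3, h0 _ m4]; simp

theorem z2 (a b : ZMod 2) (h : a + b = 0) : a = b := by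
  revert a b; decide

/-- bounded support -/
def Bdd (n : ℕ) (T : Finset ((Fin d → ℤ) × Fin d)) : Prop :=
  ∀ e ∈ T, ∃ y : Fin d → ℤ, y ∈ cube d n ∧ (y = e.1 ∨ y = e.1 + uv e.2)

theorem pot_zero_of_large {n : ℕ} (i0 : Fin d) {T : Finset ((Fin d → ℤ) × Fin d)}
    (hb : Bdd n T) {x : Fin d → ℤ} (hx : (n : ℤ) < x i0) : pot i0 T x = 0 := by
  unfold pot
  rw [Finset.filter_eq_empty_iff.mpr]
  · simp
  · rintro e he ⟨h1, h2, h3⟩
    obtain ⟨y, hy, h | h⟩ := hb e he
    · rw [mem_cube] at hy
      have := hy i0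
      rw [h] at this
      omega
    · rw [mem_cube] at hy
      have := hy i0
      rw [h, h1] at this
      simp [uv] at this
      omega

theorem pot_zero_of_side {n : ℕ} (i0 : Fin d) {T : Finset ((Fin d → ℤ) × Fin d)}
    (hb : Bdd n T) {x : Fin d → ℤ} {j : Fin d} (hj : j ≠ i0)
    (hx : ¬ (-(n : ℤ) ≤ x j ∧ x j ≤ n)) : pot i0 T x = 0 := by
  unfold pot
  rw [Finset.filter_eq_empty_iff.mpr]
  · simp
  · rintro e he ⟨h1, h2, h3⟩
    obtain ⟨y, hy, h | h⟩ := hb e he
    · rw [mem_cube] at hy
      have := hy j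
      rw [h, h2 j hj] at this
      exact hx this
    · rw [mem_cube] at hy
      have := hy j
      rw [h, h1] at this
      simp [uv, hj] at this
      rw [h2 j hj] at this
      exact hx this

theorem om_zero_of_out {n : ℕ} {T : Finset ((Fin d → ℤ) × Fin d)} (hb : Bdd n T)
    {x : Fin d → ℤ} {i : Fin d} (h1 : x ∉ cube d n) (h2 : x + uv i ∉ cube d n) :
    om T (x, i) = 0 := by
  unfold om
  rw [if_neg]
  intro h
  obtain ⟨y, hy, h | h⟩ := hb _ h
  · rw [h] at hy; exact h1 hy
  · rw [h] at hy; exact h2 hy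

theorem pot_step {n : ℕ} (i0 : Fin d) {T : Finset ((Fin d → ℤ) × Fin d)} (hb : Bdd n T)
    (hcl : Closed T) (i : Fin d) :
    ∀ x : Fin d → ℤ, pot i0 T x = pot i0 T (x + uv i) + om T (x, i) := by
  by_cases hi : i = i0
  · subst hi; exact pot_step0 i T
  · have key : ∀ (k : ℕ) (x : Fin d → ℤ), (n : ℤ) < x i0 + k →
        pot i0 T x + pot i0 T (x + uv i) + om T (x, i) = 0 := by
      intro k
      induction k with
      | zero =>
        intro x hx
        have hx' : (n : ℤ) < x i0 := by simpa using hx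
        have hx2 : (n : ℤ) < (x + uv i) i0 := by simp [uv, Ne.symm hi]; exact hx'
        rw [pot_zero_of_large i0 hb hx', pot_zero_of_large i0 hb hx2,
          om_zero_of_out hb (fun h => by have := (mem_cube.mp h i0).2; omega)
            (fun h => by have := (mem_cube.mp h i0).2; omega)]
        simp
      | succ k ih =>
        intro x hx
        have h1 := ih (x + uv i0) (by simp [uv]; push_cast at hx; omega)
        have h2 := pot_step0 i0 T x
        have h3 := pot_step0 i0 T (x + uv i)
        have h4 := hcl x i0 i (Ne.symm hi)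
        have e1 : x + uv i + uv i0 = x + uv i0 + uv i := by abel
        rw [e1] at h3
        rw [h2, h3]
        have h5 : ∀ a : ZMod 2, a + a = 0 := by decide
        have : pot i0 T (x + uv i0) + om T (x, i0) + (pot i0 T (x + uv i0 + uv i) +
            om T (x + uv i, i0)) + om T (x, i) =
            (pot i0 T (x + uv i0) + pot i0 T (x + uv i0 + uv i) + om T (x + uv i0, i)) +
            (om T (x, i0) + om T (x + uv i0, i) + om T (x + uv i, i0) + om T (x, i)) -
            (om T (x + uv i0, i) + om T (x + uv i0, i)) := by ring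
        rw [this, h1, h4]; simp only [h5]; simp
    intro x
    apply z2
    have := key ((n : ℤ) + 1 - x i0).toNat x (by
      have := Int.self_le_toNat ((n : ℤ) + 1 - x i0)
      omega)
    have h5 : ∀ a : ZMod 2, a + a = 0 := by decide
    calc pot i0 T x + (pot i0 T (x + uv i) + om T (x, i))
        = pot i0 T x + pot i0 T (x + uv i) + om T (x, i) := by ring
      _ = 0 := this

theorem pot_zero_of_out {n : ℕ} {i0 i1 : Fin d} (h01 : i1 ≠ i0)
    {T : Finset ((Fin d → ℤ) × Fin d)} (hb : Bdd n T) (hcl : Closed T) {z : Fin d → ℤ}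
    (hz : z ∉ cube d n) : pot i0 T z = 0 := by
  by_cases h1 : ∀ j, j ≠ i0 → (-(n : ℤ) ≤ z j ∧ z j ≤ n)
  · by_cases h2 : (n : ℤ) < z i0
    · exact pot_zero_of_large i0 hb h2
    · have h3 : z i0 < -(n : ℤ) := by
        by_contra h4
        apply hz
        rw [mem_cube]
        intro i
        by_cases hi : i = i0
        · subst hi; constructor <;> omega
        · exact h1 i hi
      have key : ∀ (k : ℕ) (x : Fin d → ℤ), x i0 < -(n : ℤ) → (n : ℤ) < x i1 + k →
          pot i0 T x = 0 := by
        intro k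
        induction k with
        | zero =>
          intro x _ hx
          exact pot_zero_of_side i0 hb h01 (fun h => by push_cast at hx; omega)
        | succ k ih =>
          intro x hx0 hx
          rw [pot_step i0 hb hcl i1 x, ih (x + uv i1) (by simp [uv, Ne.symm h01]; exact hx0)
            (by simp [uv]; push_cast at hx; omega), zero_add]
          exact om_zero_of_out hb (fun h => by have := (mem_cube.mp h i0).1; omega)
            (fun h => by
              have := (mem_cube.mp h i0).1
              simp [uv, Ne.symm h01] at this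
              omega)
      exact key ((n : ℤ) + 1 - z i1).toNat z h3 (by
        have := Int.self_le_toNat ((n : ℤ) + 1 - z i1)
        omega)
  · push Not at h1
    obtain ⟨j, hj, hj2⟩ := h1
    exact pot_zero_of_side i0 hb hj (fun h => by have := hj2 h.1; omega)

/-- simple sets: connected from the origin, every outside point connects to infinity -/
structure Simple (n : ℕ) (F : Finset (Fin d → ℤ)) : Prop where
  sub : F ⊆ cube d n
  zero : (0 : Fin d → ℤ) ∈ F
  conn : ∀ y ∈ F, Relation.ReflTransGen (fun u v => v ∈ nb u ∧ v ∈ F) 0 y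
  co : ∀ y, y ∉ F → ∃ z, z ∉ cube d n ∧ Relation.ReflTransGen (fun u v => v ∈ nb u ∧ v ∉ F) y z

theorem pot_const {n : ℕ} (i0 : Fin d) {T : Finset ((Fin d → ℤ) × Fin d)} (hb : Bdd n T)
    (hcl : Closed T) {F : Finset (Fin d → ℤ)} (hT : T ⊆ ed F) {u v : Fin d → ℤ}
    (huv : v ∈ nb u) (hF : u ∈ F ↔ v ∈ F) : pot i0 T u = pot i0 T v := by
  rw [mem_nb] at huv
  obtain ⟨i, h | h⟩ := huv
  · subst h
    rw [pot_step i0 hb hcl i u]
    have : om T (u, i) = 0 := by
      unfold om
      rw [if_neg]
      intro h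
      exact (mem_ed.mp (hT h)) hF
    rw [this, add_zero]
  · subst h
    have h2 := pot_step i0 hb hcl i (u - uv i)
    rw [sub_add_cancel] at h2
    rw [h2]
    have : om T (u - uv i, i) = 0 := by
      unfold om
      rw [if_neg]
      intro h
      have := mem_ed.mp (hT h)
      simp only [sub_add_cancel] at this
      exact this hF.symm
    rw [this, add_zero]

/-- the edge boundary of a simple set is connected -/
theorem cc_ed {n : ℕ} {i0 i1 : Fin d} (h01 : i1 ≠ i0) {F : Finset (Fin d → ℤ)}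
    (hF : Simple n F) : CC pn (ed F) := by
  intro T hT hne hclo
  by_contra hTne
  have hcl := closed_of_closure F T hT hclo
  have hb : Bdd n T := by
    intro e he
    have := mem_ed.mp (hT he)
    by_cases h1 : e.1 ∈ F
    · exact ⟨e.1, hF.sub h1, Or.inl rfl⟩
    · refine ⟨e.1 + uv e.2, hF.sub ?_, Or.inr rfl⟩
      by_contra h2
      exact this ⟨fun h => absurd h h1, fun h => absurd h h2⟩
  have hout : ∀ y, y ∉ F → pot i0 T y = 0 := by
    intro y hy
    obtain ⟨z, hz, hp⟩ := hF.co y hy
    have hpz : pot i0 T z = 0 := pot_zero_of_out h01 hb hcl hz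
    have : ∀ w, Relation.ReflTransGen (fun u v => v ∈ nb u ∧ v ∉ F) y w →
        w ∉ F ∧ pot i0 T y = pot i0 T w := by
      intro w hw
      induction hw with
      | refl => exact ⟨hy, rfl⟩
      | tail _ hbc ih =>
        refine ⟨hbc.2, ih.2.trans ?_⟩
        exact pot_const i0 hb hcl hT hbc.1 ⟨fun h => absurd h ih.1, fun h => absurd h hbc.2⟩
    rw [(this z hp).2, hpz]
  have hin : ∀ y ∈ F, pot i0 T 0 = pot i0 T y := by
    intro y hy
    have : ∀ w, Relation.ReflTransGen (fun u v => v ∈ nb u ∧ v ∈ F) 0 w →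
        w ∈ F ∧ pot i0 T 0 = pot i0 T w := by
      intro w hw
      induction hw with
      | refl => exact ⟨hF.zero, rfl⟩
      | tail _ hbc ih =>
        refine ⟨hbc.2, ih.2.trans ?_⟩
        exact pot_const i0 hb hcl hT hbc.1 ⟨fun _ => hbc.2, fun _ => ih.1⟩
    exact (this y (hF.conn y hy)).2
  -- an edge of the boundary not in T
  have hex : ∃ e ∈ ed F, e ∉ T := by
    by_contra hcon
    push Not at hcon
    exact hTne (Finset.Subset.antisymm hT hcon)
  obtain ⟨e, he, heT⟩ := hex
  have h0 : pot i0 T 0 = 0 := by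
    have hstep := pot_step i0 hb hcl e.2 e.1
    have : om T (e.1, e.2) = 0 := by unfold om; rw [if_neg heT]
    rw [this, add_zero] at hstep
    have hed := mem_ed.mp he
    by_cases h1 : e.1 ∈ F
    · have h2 : e.1 + uv e.2 ∉ F := fun h => hed ⟨fun _ => h, fun _ => h1⟩
      rw [hin _ h1, hstep, hout _ h2]
    · have h2 : e.1 + uv e.2 ∈ F := by
        by_contra h2
        exact hed ⟨fun h => absurd h h1, fun h => absurd h h2⟩
      rw [hin _ h2, ← hstep, hout _ h1]
  have hall : ∀ y, pot i0 T y = 0 := by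
    intro y
    by_cases hy : y ∈ F
    · rw [← hin y hy, h0]
    · exact hout y hy
  obtain ⟨e', he'⟩ := hne
  have hstep := pot_step i0 hb hcl e'.2 e'.1
  rw [hall, hall, zero_add] at hstep
  unfold om at hstep
  rw [if_pos he'] at hstep
  exact absurd hstep (by decide)

/-- a finite set is determined by its edge boundary -/
theorem ed_inj (i0 : Fin d) {F F' : Finset (Fin d → ℤ)} {n : ℕ} (h1 : F ⊆ cube d n)
    (h2 : F' ⊆ cube d n) (h : ed F = ed F') : F = F' := by
  have key : ∀ (k : ℕ) (x : Fin d → ℤ), (n : ℤ) < x i0 + k → (x ∈ F ↔ x ∈ F') := by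
    intro k
    induction k with
    | zero =>
      intro x hx
      have a1 : x ∉ F := fun h => by have := (mem_cube.mp (h1 h) i0).2; push_cast at hx; omega
      have a2 : x ∉ F' := fun h => by have := (mem_cube.mp (h2 h) i0).2; push_cast at hx; omega
      exact ⟨fun h => absurd h a1, fun h => absurd h a2⟩
    | succ k ih =>
      intro x hx
      have h3 := ih (x + uv i0) (by simp [uv]; push_cast at hx; omega)
      have h4 : ((x, i0) ∈ ed F) ↔ ((x, i0) ∈ ed F') := by rw [h]
      rw [mem_ed, mem_ed] at h4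
      simp only at h4
      tauto
  ext x
  exact key ((n : ℤ) + 1 - x i0).toNat x (by
    have := Int.self_le_toNat ((n : ℤ) + 1 - x i0)
    omega)

/-- there is a boundary edge on the positive axis at distance less than the boundary size -/
theorem axis_edge {n : ℕ} {i0 i1 : Fin d} (h01 : i1 ≠ i0) {F : Finset (Fin d → ℤ)}
    (hF : Simple n F) : ∃ k : ℕ, k < n + 1 ∧ ((Pi.single i0 (k : ℤ) : Fin d → ℤ), i0) ∈ ed F ∧
      k + 1 ≤ (ed F).card := by
  classical
  have hex : ∃ k : ℕ, (Pi.single i0 ((k : ℤ) + 1) : Fin d → ℤ) ∉ F := by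
    refine ⟨n, fun h => ?_⟩
    have := (mem_cube.mp (hF.sub h) i0).2
    simp at this
  set k := Nat.find hex with hk
  have hk1 : (Pi.single i0 ((k : ℤ) + 1) : Fin d → ℤ) ∉ F := Nat.find_spec hex
  have hkmin : ∀ j : ℕ, j < k → (Pi.single i0 ((j : ℤ) + 1) : Fin d → ℤ) ∈ F := by
    intro j hj
    have := Nat.find_min hex hj
    push Not at this
    exact this
  have hmem : ∀ j : ℕ, j ≤ k → (Pi.single i0 (j : ℤ) : Fin d → ℤ) ∈ F := by
    intro j hj
    cases j with
    | zero => simpa using hF.zero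
    | succ j =>
      have := hkmin j (by omega)
      push_cast
      exact this
  have hkn : k < n + 1 := by
    have := (mem_cube.mp (hF.sub (hmem k le_rfl)) i0).2
    simp at this
    omega
  refine ⟨k, hkn, ?_, ?_⟩
  · rw [mem_ed]
    simp only
    intro h
    have := h.mp (hmem k le_rfl)
    apply hk1
    have e : (Pi.single i0 (k : ℤ) : Fin d → ℤ) + uv i0 = Pi.single i0 ((k : ℤ) + 1) := by
      unfold uv; rw [← Pi.single_add]
    rw [← e]; exact this
  · -- for each j ≤ k a boundary edge in direction i1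
    have hex1 : ∀ j : ℕ, j ≤ k → ∃ m : ℕ,
        (Pi.single i0 (j : ℤ) + Pi.single i1 (m : ℤ) : Fin d → ℤ) ∈ F ∧
        (Pi.single i0 (j : ℤ) + Pi.single i1 (m : ℤ) + uv i1 : Fin d → ℤ) ∉ F := by
      intro j hj
      by_contra hcon
      push Not at hcon
      have : ∀ m : ℕ, (Pi.single i0 (j : ℤ) + Pi.single i1 (m : ℤ) : Fin d → ℤ) ∈ F := by
        intro m
        induction m with
        | zero => simpa using hmem j hj
        | succ m ih =>
          have := hcon m ih
          have e : (Pi.single i0 (j : ℤ) + Pi.single i1 ((m + 1 : ℕ) : ℤ) : Fin d → ℤ) =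
              Pi.single i0 (j : ℤ) + Pi.single i1 (m : ℤ) + uv i1 := by
            unfold uv; rw [add_assoc, ← Pi.single_add]; push_cast; rfl
          rw [e]; exact this
      have h2 := (mem_cube.mp (hF.sub (this (n + 1))) i1).2
      simp [h01] at h2
    choose! m hm1 hm2 using hex1
    have hcard : (Finset.range (k + 1)).card ≤ (ed F).card := by
      apply Finset.card_le_card_of_injOn (fun j : ℕ =>
        ((Pi.single i0 (j : ℤ) + Pi.single i1 ((m j : ℕ) : ℤ) : Fin d → ℤ), i1))
      · intro j hj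
        rw [Finset.mem_coe, Finset.mem_range] at hj
        rw [Finset.mem_coe, mem_ed]
        simp only
        intro h
        exact hm2 j (by omega) (h.mp (hm1 j (by omega)))
      · intro j _ j' _ h
        have h1 := congrFun (congrArg Prod.fst h) i0
        simp [Ne.symm h01] at h1
        exact h1
    rw [Finset.card_range] at hcard
    exact hcard

end Pool.Agent.Helper580.IsingCut
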