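import Mathlib

set_option autoImplicit false

namespace Pool.Agent.Helper580.IsingDyn

open Finset

variable {ι : Type*} [Fintype ι] [DecidableEq ι]

theorem sum_units (g : ℤˣ → ℝ) : ∑ s : ℤˣ, g s = g 1 + g (-1) := by
  have : (Finset.univ : Finset ℤˣ) = {1, -1} := by decide
  rw [this, Finset.sum_pair (by decide)]

/-- one step of single site updating acting on functions -/
noncomputable def hb (q : ι → (ι → ℤˣ) → ℤˣ → ℝ) (f : (ι → ℤˣ) → ℝ) (σ : ι → ℤˣ) : ℝ :=
  (∑ x, ∑ s, q x σ s * f (Function.update σ x s)) / Fintype.card ι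

/-- update probabilities -/
structure Rates (q : ι → (ι → ℤˣ) → ℤˣ → ℝ) (A : ι → ι → Prop) : Prop where
  nonneg : ∀ x σ s, 0 ≤ q x σ s
  sum : ∀ x σ, ∑ s, q x σ s = 1
  loc : ∀ x y σ s, ¬ A x y → q x (Function.update σ y s) = q x σ
  irr : ∀ x, ¬ A x x

/-- oscillation bounds -/
def Lip (u : ι → ℝ) (f : (ι → ℤˣ) → ℝ) : Prop :=
  ∀ x s σ, |f (Function.update σ x s) - f σ| ≤ u x

theorem two_point {a b a' b' p r : ℝ} (h1 : a + b = 1) (h2 : a' + b' = 1) (ha : 0 ≤ a) (hb : 0 ≤ b)
    (ha' : 0 ≤ a') (hb' : 0 ≤ b') : |(a * p + b * r) - (a' * p + b' * r)| ≤ |r - p| := by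
  have e : (a * p + b * r) - (a' * p + b' * r) = (b - b') * (r - p) := by
    have : a = 1 - b := by linarith
    have : a' = 1 - b' := by linarith
    subst_vars; ring
  rw [e, abs_mul]
  have : |b - b'| ≤ 1 := by rw [abs_le]; constructor <;> linarith
  have h0 := abs_nonneg (r - p)
  nlinarith

theorem lip_hb {q : ι → (ι → ℤˣ) → ℤˣ → ℝ} {A : ι → ι → Prop} [DecidableRel A]
    (hq : Rates q A) {u : ι → ℝ} {f : (ι → ℤˣ) → ℝ} (hf : Lip u f) (y : ι)
    (s : ℤˣ) (σ : ι → ℤˣ) :
    |hb q f (Function.update σ y s) - hb q f σ| ≤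
      ((Fintype.card ι - 1) * u y + ∑ x, if A x y then u x else 0) / Fintype.card ι := by
  unfold hb
  rw [← sub_div, abs_div, Nat.abs_cast]
  apply div_le_div_of_nonneg_right _ (Nat.cast_nonneg _)
  rw [← Finset.sum_sub_distrib]
  refine (Finset.abs_sum_le_sum_abs _ _).trans ?_
  have hterm : ∀ x, |(∑ r, q x (Function.update σ y s) r *
      f (Function.update (Function.update σ y s) x r)) -
      ∑ r, q x σ r * f (Function.update σ x r)| ≤
      (if x = y then 0 else u y) + if A x y then u x else 0 := by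
    intro x
    by_cases hxy : x = y
    · subst hxy
      rw [if_pos rfl, if_neg (hq.irr x), hq.loc x x σ s (hq.irr x)]
      simp
    · rw [if_neg hxy]
      have hcomm : ∀ r, Function.update (Function.update σ y s) x r =
          Function.update (Function.update σ x r) y s := fun r =>
        Function.update_comm (Ne.symm hxy) _ _ _
      have h1 : |(∑ r, q x (Function.update σ y s) r *
          f (Function.update (Function.update σ y s) x r)) -
          ∑ r, q x (Function.update σ y s) r * f (Function.update σ x r)| ≤ u y := by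
        rw [← Finset.sum_sub_distrib]
        refine (Finset.abs_sum_le_sum_abs _ _).trans ?_
        calc ∑ r, |q x (Function.update σ y s) r *
              f (Function.update (Function.update σ y s) x r) -
              q x (Function.update σ y s) r * f (Function.update σ x r)|
            ≤ ∑ r, q x (Function.update σ y s) r * u y := by
              refine Finset.sum_le_sum fun r _ => ?_
              rw [← mul_sub, abs_mul, abs_of_nonneg (hq.nonneg _ _ _)]
              apply mul_le_mul_of_nonneg_left _ (hq.nonneg _ _ _)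
              rw [hcomm]
              exact hf y s _
          _ = u y := by rw [← Finset.sum_mul, hq.sum, one_mul]
      by_cases hA : A x y
      · rw [if_pos hA]
        have h2 : |(∑ r, q x (Function.update σ y s) r * f (Function.update σ x r)) -
            ∑ r, q x σ r * f (Function.update σ x r)| ≤ u x := by
          rw [sum_units, sum_units]
          have s1 := hq.sum x (Function.update σ y s)
          have s2 := hq.sum x σ
          rw [sum_units] at s1 s2
          refine (two_point s1 s2 (hq.nonneg _ _ _) (hq.nonneg _ _ _) (hq.nonneg _ _ _)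
            (hq.nonneg _ _ _)).trans ?_
          have := hf x (-1) (Function.update σ x 1)
          rw [Function.update_idem] at this
          exact this
        calc _ ≤ _ := abs_sub_le _ (∑ r, q x (Function.update σ y s) r *
                f (Function.update σ x r)) _
          _ ≤ u y + u x := add_le_add h1 h2
      · rw [if_neg hA, add_zero]
        rw [hq.loc x y σ s hA] at h1 ⊢
        exact h1
  refine (Finset.sum_le_sum fun x _ => hterm x).trans (le_of_eq ?_)
  rw [Finset.sum_add_distrib]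
  congr 1
  have : ∀ x, (if x = y then 0 else u y) = u y - if x = y then u y else 0 := by
    intro x; split_ifs <;> ring
  simp_rw [this]
  rw [Finset.sum_sub_distrib, Finset.sum_const, Finset.card_univ, nsmul_eq_mul]
  simp
  ring

theorem lip_hb_exp [Nonempty ι] {q : ι → (ι → ℤˣ) → ℤˣ → ℝ} {A : ι → ι → Prop} [DecidableRel A]
    (hq : Rates q A) {φ : ι → ℝ} (hφ : ∀ x, 0 ≤ φ x) {K : ℝ}
    (hK : ∀ y, (∑ x, if A x y then φ x else 0) ≤ K * φ y) {c : ℝ} (hc : 0 ≤ c)
    {f : (ι → ℤˣ) → ℝ} (hf : Lip (fun x => c * φ x) f) :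
    Lip (fun x => c * (1 + K / Fintype.card ι) * φ x) (hb q f) := by
  intro y s σ
  refine (lip_hb hq hf y s σ).trans ?_
  have hn : (0 : ℝ) < Fintype.card ι := by exact_mod_cast Fintype.card_pos
  rw [div_le_iff₀ hn]
  have h1 : (∑ x, if A x y then c * φ x else 0) = c * ∑ x, if A x y then φ x else 0 := by
    rw [Finset.mul_sum]
    exact Finset.sum_congr rfl fun x _ => by split_ifs <;> ring
  have h2 : c * (1 + K / Fintype.card ι) * φ y * Fintype.card ι =
      c * φ y * Fintype.card ι + c * (K * φ y) := by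
    field_simp
  simp only
  rw [h1, h2]
  have h3 := mul_le_mul_of_nonneg_left (hK y) hc
  have h4 : 0 ≤ c * φ y := mul_nonneg hc (hφ y)
  nlinarith

theorem lip_iter [Nonempty ι] {q : ι → (ι → ℤˣ) → ℤˣ → ℝ} {A : ι → ι → Prop} [DecidableRel A]
    (hq : Rates q A) {φ : ι → ℝ} (hφ : ∀ x, 0 ≤ φ x) {K : ℝ} (hK0 : 0 ≤ K)
    (hK : ∀ y, (∑ x, if A x y then φ x else 0) ≤ K * φ y)
    {f : (ι → ℤˣ) → ℝ} (hf : Lip φ f) (t : ℕ) :
    Lip (fun x => (1 + K / Fintype.card ι) ^ t * φ x) ((hb q)^[t] f) := by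
  induction t with
  | zero => simpa using hf
  | succ t ih =>
    rw [Function.iterate_succ_apply']
    have := lip_hb_exp hq hφ hK (by positivity) ih
    have e : (fun x => (1 + K / (Fintype.card ι : ℝ)) ^ t * (1 + K / Fintype.card ι) * φ x) =
        fun x => (1 + K / (Fintype.card ι : ℝ)) ^ (t + 1) * φ x := by
      funext x; rw [pow_succ]
    rw [← e]; exact this

theorem hb_diff [Nonempty ι] {q q' : ι → (ι → ℤˣ) → ℤˣ → ℝ} {A : ι → ι → Prop}
    (hq : Rates q A) (hq' : Rates q' A) (Bd : Finset ι) (heq : ∀ x ∉ Bd, q x = q' x)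
    {c : ℝ} (hc : 0 ≤ c) {f : (ι → ℤˣ) → ℝ}
    (hf : ∀ x ∈ Bd, ∀ s σ, |f (Function.update σ x s) - f σ| ≤ c) (σ : ι → ℤˣ) :
    |hb q f σ - hb q' f σ| ≤ c := by
  unfold hb
  have hn : (0 : ℝ) < Fintype.card ι := by exact_mod_cast Fintype.card_pos
  rw [← sub_div, abs_div, Nat.abs_cast, div_le_iff₀ hn]
  rw [← Finset.sum_sub_distrib]
  refine (Finset.abs_sum_le_sum_abs _ _).trans ?_
  have hterm : ∀ x, |(∑ r, q x σ r * f (Function.update σ x r)) -
      ∑ r, q' x σ r * f (Function.update σ x r)| ≤ c := by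
    intro x
    by_cases hx : x ∈ Bd
    · rw [sum_units, sum_units]
      have s1 := hq.sum x σ
      have s2 := hq'.sum x σ
      rw [sum_units] at s1 s2
      refine (two_point s1 s2 (hq.nonneg _ _ _) (hq.nonneg _ _ _) (hq'.nonneg _ _ _)
        (hq'.nonneg _ _ _)).trans ?_
      have := hf x hx (-1) (Function.update σ x 1)
      rw [Function.update_idem] at this
      exact this
    · rw [heq x hx]; simpa using hc
  refine (Finset.sum_le_sum fun x _ => hterm x).trans (le_of_eq ?_)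
  rw [Finset.sum_const, Finset.card_univ, nsmul_eq_mul, mul_comm]

theorem hb_sub (q : ι → (ι → ℤˣ) → ℤˣ → ℝ) (f g : (ι → ℤˣ) → ℝ) (σ : ι → ℤˣ) :
    hb q f σ - hb q g σ = hb q (fun σ => f σ - g σ) σ := by
  unfold hb
  rw [← sub_div, ← Finset.sum_sub_distrib]
  congr 1
  refine Finset.sum_congr rfl fun x _ => ?_
  rw [← Finset.sum_sub_distrib]
  exact Finset.sum_congr rfl fun s _ => by ring

theorem hb_bound [Nonempty ι] {q : ι → (ι → ℤˣ) → ℤˣ → ℝ} {A : ι → ι → Prop} (hq : Rates q A)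
    {f : (ι → ℤˣ) → ℝ} {c : ℝ} (hf : ∀ σ, |f σ| ≤ c) (σ : ι → ℤˣ) : |hb q f σ| ≤ c := by
  unfold hb
  have hn : (0 : ℝ) < Fintype.card ι := by exact_mod_cast Fintype.card_pos
  rw [abs_div, Nat.abs_cast, div_le_iff₀ hn]
  refine (Finset.abs_sum_le_sum_abs _ _).trans ?_
  have : ∀ x, |∑ s, q x σ s * f (Function.update σ x s)| ≤ c := by
    intro x
    refine (Finset.abs_sum_le_sum_abs _ _).trans ?_
    calc ∑ s, |q x σ s * f (Function.update σ x s)| ≤ ∑ s, q x σ s * c := by
          refine Finset.sum_le_sum fun s _ => ?_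
          rw [abs_mul, abs_of_nonneg (hq.nonneg _ _ _)]
          exact mul_le_mul_of_nonneg_left (hf _) (hq.nonneg _ _ _)
      _ = c := by rw [← Finset.sum_mul, hq.sum, one_mul]
  refine (Finset.sum_le_sum fun x _ => this x).trans (le_of_eq ?_)
  rw [Finset.sum_const, Finset.card_univ, nsmul_eq_mul, mul_comm]

/-- finite speed of propagation -/
theorem iter_diff [Nonempty ι] {q q' : ι → (ι → ℤˣ) → ℤˣ → ℝ} {A : ι → ι → Prop}
    (hq : Rates q A) (hq' : Rates q' A) (Bd : Finset ι) (heq : ∀ x ∉ Bd, q x = q' x)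
    {R ε : ℝ} (hR : 1 ≤ R) (hε : 0 ≤ ε) {f : (ι → ℤˣ) → ℝ}
    (hf : ∀ t : ℕ, ∀ x ∈ Bd, ∀ s σ,
      |(hb q)^[t] f (Function.update σ x s) - (hb q)^[t] f σ| ≤ R ^ t * ε) (t : ℕ) :
    ∀ σ, |(hb q)^[t] f σ - (hb q')^[t] f σ| ≤ t * (R ^ t * ε) := by
  induction t with
  | zero => intro σ; simp
  | succ t ih =>
    intro σ
    rw [Function.iterate_succ_apply', Function.iterate_succ_apply']
    have h1 : |hb q ((hb q)^[t] f) σ - hb q' ((hb q)^[t] f) σ| ≤ R ^ t * ε :=
      hb_diff hq hq' Bd heq (by positivity) (hf t) σ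
    have h2 : |hb q' ((hb q)^[t] f) σ - hb q' ((hb q')^[t] f) σ| ≤ t * (R ^ t * ε) := by
      rw [hb_sub]
      exact hb_bound hq' ih σ
    have h3 : R ^ t ≤ R ^ (t + 1) := pow_le_pow_right₀ hR (Nat.le_succ t)
    have h4 : R ^ t * ε ≤ R ^ (t + 1) * ε := mul_le_mul_of_nonneg_right h3 hε
    calc _ ≤ _ := abs_sub_le _ (hb q' ((hb q)^[t] f) σ) _
      _ ≤ _ := add_le_add h1 h2
      _ ≤ R ^ (t + 1) * ε + t * (R ^ (t + 1) * ε) := by gcongr
      _ = _ := by push_cast; ring

/-- the flipped rates -/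
def flip (q : ι → (ι → ℤˣ) → ℤˣ → ℝ) : ι → (ι → ℤˣ) → ℤˣ → ℝ := fun x σ s => q x (-σ) (-s)

theorem sum_neg (g : ℤˣ → ℝ) : ∑ s : ℤˣ, g (-s) = ∑ s : ℤˣ, g s := by
  rw [sum_units, sum_units, neg_neg]; ring

omit [Fintype ι] in
theorem neg_update (σ : ι → ℤˣ) (x : ι) (s : ℤˣ) :
    -(Function.update σ x s) = Function.update (-σ) x (-s) := by
  funext y
  by_cases h : y = x
  · subst h; simp
  · simp [h]

omit [Fintype ι] in
theorem flip_rates {q : ι → (ι → ℤˣ) → ℤˣ → ℝ} {A : ι → ι → Prop} (hq : Rates q A) :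
    Rates (flip q) A where
  nonneg x σ s := hq.nonneg _ _ _
  sum x σ := by unfold flip; rw [sum_neg (fun s => q x (-σ) s)]; exact hq.sum _ _
  loc x y σ s h := by
    funext r
    unfold flip
    rw [neg_update, hq.loc x y _ _ h]
  irr := hq.irr

theorem hb_flip (q : ι → (ι → ℤˣ) → ℤˣ → ℝ) (f : (ι → ℤˣ) → ℝ) (σ : ι → ℤˣ) :
    hb (flip q) f σ = hb q (fun τ => f (-τ)) (-σ) := by
  unfold hb flip
  congr 1
  refine Finset.sum_congr rfl fun x _ => ?_
  rw [← sum_neg]
  refine Finset.sum_congr rfl fun s _ => ?_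
  show q x (-σ) (- -s) * f (Function.update σ x (-s)) =
    q x (-σ) s * f (-(Function.update (-σ) x s))
  rw [neg_update, neg_neg, neg_neg]

theorem iter_flip (q : ι → (ι → ℤˣ) → ℤˣ → ℝ) (t : ℕ) : ∀ (f : (ι → ℤˣ) → ℝ) (σ : ι → ℤˣ),
    (hb (flip q))^[t] f σ = (hb q)^[t] (fun τ => f (-τ)) (-σ) := by
  induction t with
  | zero => intro f σ; simp
  | succ t ih =>
    intro f σ
    rw [Function.iterate_succ_apply', Function.iterate_succ_apply', hb_flip]
    congr 1
    funext τ
    rw [ih f (-τ), neg_neg]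

end Pool.Agent.Helper580.IsingDyn
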