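import Mathlib

set_option autoImplicit false

namespace Pool.Agent.Helper580.IsingGKS

open Finset

variable {V : Type*} [DecidableEq V]

/-- spin of the configuration with minus set `S` -/
noncomputable def sgn (S : Finset V) (x : V) : ℝ := if x ∈ S then -1 else 1

/-- product of the spins over `A` -/
noncomputable def chi (A S : Finset V) : ℝ := ∏ x ∈ A, sgn S x

theorem sgn_sq (S : Finset V) (x : V) : sgn S x * sgn S x = 1 := by
  unfold sgn; split_ifs <;> norm_num

theorem sgn_abs (S : Finset V) (x : V) : |sgn S x| = 1 := by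
  unfold sgn; split_ifs <;> norm_num

theorem sgn_symmDiff (S T : Finset V) (x : V) : sgn (symmDiff S T) x = sgn S x * sgn T x := by
  unfold sgn
  by_cases h1 : x ∈ S <;> by_cases h2 : x ∈ T <;> simp [Finset.mem_symmDiff, h1, h2]

theorem chi_symmDiff_right (A S T : Finset V) : chi A (symmDiff S T) = chi A S * chi A T := by
  unfold chi
  rw [← Finset.prod_mul_distrib]
  exact Finset.prod_congr rfl fun x _ => sgn_symmDiff S T x

theorem chi_sq (A S : Finset V) : chi A S * chi A S = 1 := by
  unfold chi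
  rw [← Finset.prod_mul_distrib]
  exact Finset.prod_eq_one fun x _ => sgn_sq S x

theorem chi_cases (A S : Finset V) : chi A S = 1 ∨ chi A S = -1 := by
  have h := chi_sq A S
  have : (chi A S - 1) * (chi A S + 1) = 0 := by ring_nf; nlinarith
  rcases mul_eq_zero.mp this with h | h
  · left; linarith
  · right; linarith

theorem chi_le_one (A S : Finset V) : chi A S ≤ 1 := by
  rcases chi_cases A S with h | h <;> rw [h]; norm_num

theorem neg_one_le_chi (A S : Finset V) : -1 ≤ chi A S := by
  rcases chi_cases A S with h | h <;> rw [h]; norm_num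

theorem chi_empty (S : Finset V) : chi ∅ S = 1 := by simp [chi]

theorem chi_singleton (x : V) (S : Finset V) : chi {x} S = sgn S x := by simp [chi]

theorem chi_pair {x y : V} (h : x ≠ y) (S : Finset V) : chi {x, y} S = sgn S x * sgn S y := by
  unfold chi; rw [Finset.prod_pair h]

theorem chi_union {A B : Finset V} (h : Disjoint A B) (S : Finset V) :
    chi (A ∪ B) S = chi A S * chi B S := by
  unfold chi; rw [Finset.prod_union h]

theorem chi_symmDiff_left (A B S : Finset V) : chi (symmDiff A B) S = chi A S * chi B S := by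
  have hA : chi A S = chi (A \ B) S * chi (A ∩ B) S := by
    unfold chi
    rw [← Finset.prod_union (Finset.disjoint_left.mpr fun x h1 h2 => by
      simp only [mem_sdiff, mem_inter] at h1 h2; exact h1.2 h2.2)]
    rw [Finset.sdiff_union_inter]
  have hB : chi B S = chi (B \ A) S * chi (A ∩ B) S := by
    unfold chi
    rw [← Finset.prod_union (Finset.disjoint_left.mpr fun x h1 h2 => by
      simp only [mem_sdiff, mem_inter] at h1 h2; exact h1.2 h2.1)]
    rw [Finset.inter_comm, Finset.sdiff_union_inter]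
  have hD : chi (symmDiff A B) S = chi (A \ B) S * chi (B \ A) S := by
    unfold chi
    rw [← Finset.prod_union (Finset.disjoint_left.mpr fun x h1 h2 => by
      simp only [mem_sdiff] at h1 h2; exact h1.2 h2.1)]
    rfl
  rw [hA, hB, hD]
  have := chi_sq (A ∩ B) S
  calc chi (A \ B) S * chi (B \ A) S
      = chi (A \ B) S * chi (B \ A) S * (chi (A ∩ B) S * chi (A ∩ B) S) := by rw [this]; ring
    _ = _ := by ring

/-- as a product over the minus set -/
theorem chi_eq_prod_swap (A S : Finset V) :
    chi A S = ∏ x ∈ S, (if x ∈ A then (-1 : ℝ) else 1) := by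
  unfold chi sgn
  rw [Finset.prod_ite_mem, Finset.prod_ite_mem, Finset.inter_comm]

theorem sum_chi_nonneg (Λ A : Finset V) : 0 ≤ ∑ S ∈ Λ.powerset, chi A S := by
  have : ∑ S ∈ Λ.powerset, chi A S = ∏ x ∈ Λ, (1 + (if x ∈ A then (-1 : ℝ) else 1)) := by
    rw [Finset.prod_one_add]
    exact Finset.sum_congr rfl fun S _ => chi_eq_prod_swap A S
  rw [this]
  apply Finset.prod_nonneg
  intro x _
  split_ifs <;> norm_num

variable {K : Type*} [DecidableEq K]

/-- weight made of the factors `a + b χ_C`, indexed by the finite set `s` -/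
noncomputable def W (a b : K → ℝ) (C : K → Finset V) (s : Finset K) (S : Finset V) : ℝ :=
  ∏ k ∈ s, (a k + b k * chi (C k) S)

theorem gks1 (Λ : Finset V) (C : K → Finset V) (s : Finset K) :
    ∀ (a b : K → ℝ) (_ : ∀ k ∈ s, 0 ≤ a k) (_ : ∀ k ∈ s, 0 ≤ b k) (A : Finset V),
    0 ≤ ∑ S ∈ Λ.powerset, chi A S * W a b C s S := by
  induction s using Finset.induction_on with
  | empty =>
    intro a b _ _ A
    simpa [W] using sum_chi_nonneg Λ A
  | insert k s hk ih =>
    intro a b ha hb A
    have h1 := ih a b (fun j hj => ha j (Finset.mem_insert_of_mem hj))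
      (fun j hj => hb j (Finset.mem_insert_of_mem hj)) A
    have h2 := ih a b (fun j hj => ha j (Finset.mem_insert_of_mem hj))
      (fun j hj => hb j (Finset.mem_insert_of_mem hj)) (symmDiff A (C k))
    have : ∑ S ∈ Λ.powerset, chi A S * W a b C (insert k s) S =
        a k * ∑ S ∈ Λ.powerset, chi A S * W a b C s S +
        b k * ∑ S ∈ Λ.powerset, chi (symmDiff A (C k)) S * W a b C s S := by
      rw [Finset.mul_sum, Finset.mul_sum, ← Finset.sum_add_distrib]
      refine Finset.sum_congr rfl fun S _ => ?_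
      unfold W
      rw [Finset.prod_insert hk, chi_symmDiff_left]
      ring
    rw [this]
    have := ha k (Finset.mem_insert_self k s)
    have := hb k (Finset.mem_insert_self k s)
    positivity

theorem sum_powerset_symmDiff (Λ T : Finset V) (hT : T ⊆ Λ) (g : Finset V → ℝ) :
    ∑ S ∈ Λ.powerset, g S = ∑ S ∈ Λ.powerset, g (symmDiff S T) := by
  have hmem : ∀ S ∈ Λ.powerset, symmDiff S T ∈ Λ.powerset := by
    intro S hS
    rw [Finset.mem_powerset] at hS ⊢
    intro x hx
    rw [Finset.mem_symmDiff] at hx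
    rcases hx with h | h
    · exact hS h.1
    · exact hT h.1
  refine Finset.sum_nbij' (fun S => symmDiff S T) (fun S => symmDiff S T) hmem hmem ?_ ?_ ?_
  · intro S _; simp
  · intro S _; simp
  · intro S _; simp

/-- the second Griffiths inequality -/
theorem gks2 (Λ : Finset V) (a b : K → ℝ) (C : K → Finset V) (s : Finset K)
    (hb : ∀ k ∈ s, 0 ≤ b k) (hab : ∀ k ∈ s, b k ≤ a k) (A B : Finset V) :
    (∑ S ∈ Λ.powerset, chi A S * W a b C s S) * (∑ S ∈ Λ.powerset, chi B S * W a b C s S) ≤
    (∑ S ∈ Λ.powerset, chi A S * chi B S * W a b C s S) * (∑ S ∈ Λ.powerset, W a b C s S) := by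
  rw [← sub_nonneg]
  have key : (∑ S ∈ Λ.powerset, chi A S * chi B S * W a b C s S) *
      (∑ S ∈ Λ.powerset, W a b C s S) -
      (∑ S ∈ Λ.powerset, chi A S * W a b C s S) * (∑ S ∈ Λ.powerset, chi B S * W a b C s S) =
      ∑ T ∈ Λ.powerset, (1 - chi B T) * ∑ S ∈ Λ.powerset, chi (symmDiff A B) S *
        W (fun k => a k ^ 2 + b k ^ 2 * chi (C k) T) (fun k => a k * b k * (1 + chi (C k) T))
          C s S := by
    have e1 : (∑ S ∈ Λ.powerset, chi A S * chi B S * W a b C s S) *
        (∑ S ∈ Λ.powerset, W a b C s S) =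
        ∑ S ∈ Λ.powerset, ∑ T ∈ Λ.powerset,
          chi A S * chi B S * W a b C s S * W a b C s (symmDiff T S) := by
      rw [Finset.sum_mul]
      refine Finset.sum_congr rfl fun S hS => ?_
      rw [sum_powerset_symmDiff Λ S (Finset.mem_powerset.mp hS), Finset.mul_sum]
    have e2 : (∑ S ∈ Λ.powerset, chi A S * W a b C s S) *
        (∑ S ∈ Λ.powerset, chi B S * W a b C s S) =
        ∑ S ∈ Λ.powerset, ∑ T ∈ Λ.powerset,
          chi A S * W a b C s S * (chi B (symmDiff T S) * W a b C s (symmDiff T S)) := by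
      rw [Finset.sum_mul]
      refine Finset.sum_congr rfl fun S hS => ?_
      rw [sum_powerset_symmDiff Λ S (Finset.mem_powerset.mp hS)
        (fun S => chi B S * W a b C s S), Finset.mul_sum]
    rw [e1, e2, ← Finset.sum_sub_distrib]
    simp_rw [← Finset.sum_sub_distrib]
    rw [Finset.sum_comm]
    refine Finset.sum_congr rfl fun T _ => ?_
    rw [Finset.mul_sum]
    refine Finset.sum_congr rfl fun S _ => ?_
    have hW : W a b C s S * W a b C s (symmDiff T S) =
        W (fun k => a k ^ 2 + b k ^ 2 * chi (C k) T) (fun k => a k * b k * (1 + chi (C k) T))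
          C s S := by
      unfold W
      rw [← Finset.prod_mul_distrib]
      refine Finset.prod_congr rfl fun k _ => ?_
      rw [chi_symmDiff_right]
      have := chi_sq (C k) S
      linear_combination (b k ^ 2 * chi (C k) T) * this
    rw [← hW, chi_symmDiff_left, chi_symmDiff_right]
    have := chi_sq B S
    linear_combination (-(chi A S * W a b C s S * W a b C s (symmDiff T S) * chi B T * 0)) * this
  rw [key]
  apply Finset.sum_nonneg
  intro T _
  apply mul_nonneg
  · linarith [chi_le_one B T]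
  · apply gks1
    · intro k hk
      have h1 := hb k hk
      have h2 := hab k hk
      rcases chi_cases (C k) T with h | h <;> rw [h] <;> nlinarith
    · intro k hk
      have h1 := hb k hk
      have h2 := hab k hk
      have h3 := neg_one_le_chi (C k) T
      exact mul_nonneg (mul_nonneg (le_trans h1 h2) h1) (by linarith)

omit [DecidableEq K] in
theorem W_nonneg (a b : K → ℝ) (C : K → Finset V) (s : Finset K)
    (hb : ∀ k ∈ s, 0 ≤ b k) (hab : ∀ k ∈ s, b k ≤ a k) (S : Finset V) : 0 ≤ W a b C s S := by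
  apply Finset.prod_nonneg
  intro k hk
  have h1 := hb k hk
  have h2 := hab k hk
  rcases chi_cases (C k) S with h | h <;> rw [h] <;> linarith

omit [DecidableEq K] in
theorem sum_W_pos (Λ : Finset V) (a b : K → ℝ) (C : K → Finset V) (s : Finset K)
    (ha : ∀ k ∈ s, 0 < a k) (hb : ∀ k ∈ s, 0 ≤ b k) (hab : ∀ k ∈ s, b k ≤ a k) :
    0 < ∑ S ∈ Λ.powerset, W a b C s S := by
  apply lt_of_lt_of_le _ (Finset.single_le_sum (f := fun S => W a b C s S)
    (fun S _ => W_nonneg a b C s hb hab S) (Finset.empty_mem_powerset Λ))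
  show 0 < W a b C s ∅
  apply Finset.prod_pos
  intro k hk
  have h0 := ha k hk
  have h1 := hb k hk
  have : chi (C k) (∅ : Finset V) = 1 := by simp [chi, sgn]
  rw [this]; linarith

/-- adding more factors increases all correlations (cross-multiplied form) -/
theorem mono (Λ : Finset V) (a b : K → ℝ) (C : K → Finset V) (s t : Finset K)
    (hst : Disjoint s t) (ha : ∀ k ∈ s ∪ t, 0 < a k)
    (hb : ∀ k ∈ s ∪ t, 0 ≤ b k) (hab : ∀ k ∈ s ∪ t, b k ≤ a k) (A : Finset V) :
    (∑ S ∈ Λ.powerset, chi A S * W a b C s S) * (∑ S ∈ Λ.powerset, W a b C (s ∪ t) S) ≤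
    (∑ S ∈ Λ.powerset, chi A S * W a b C (s ∪ t) S) * (∑ S ∈ Λ.powerset, W a b C s S) := by
  classical
  induction t using Finset.induction_on with
  | empty => simp
  | insert k t hk ih =>
    have hst' : Disjoint s t := by
      rw [Finset.disjoint_insert_right] at hst; exact hst.2
    have hks : k ∉ s := by
      rw [Finset.disjoint_insert_right] at hst; exact hst.1
    have hkst : k ∉ s ∪ t := by simp [hks, hk]
    have hsub : s ∪ t ⊆ s ∪ insert k t := by
      intro x hx; rw [Finset.mem_union] at hx ⊢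
      rcases hx with h | h
      · exact Or.inl h
      · exact Or.inr (Finset.mem_insert_of_mem h)
    have hb' : ∀ j ∈ s ∪ t, 0 ≤ b j := fun j hj => hb j (hsub hj)
    have hab' : ∀ j ∈ s ∪ t, b j ≤ a j := fun j hj => hab j (hsub hj)
    have ha' : ∀ j ∈ s ∪ t, 0 < a j := fun j hj => ha j (hsub hj)
    have ih' := ih hst' ha' hb' hab'
    have hkm : k ∈ s ∪ insert k t := by simp
    have hbk := hb k hkm
    have habk := hab k hkm
    have heq : s ∪ insert k t = insert k (s ∪ t) := by
      rw [Finset.union_insert]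
    have hWi : ∀ S, W a b C (s ∪ insert k t) S = a k * W a b C (s ∪ t) S +
        b k * (chi (C k) S * W a b C (s ∪ t) S) := by
      intro S
      rw [heq]; unfold W; rw [Finset.prod_insert hkst]; ring
    have hg := gks2 Λ a b C (s ∪ t) hb' hab' A (C k)
    have hY0 := gks1 Λ C (s ∪ t) a b (fun j hj => (ha' j hj).le) hb' (C k)
    have hZ'0 := sum_W_pos Λ a b C (s ∪ t) ha' hb' hab'
    have hZ0 := sum_W_pos Λ a b C s (fun j hj => ha' j (Finset.mem_union_left _ hj))
      (fun j hj => hb' j (Finset.mem_union_left _ hj))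
      (fun j hj => hab' j (Finset.mem_union_left _ hj))
    set X := ∑ S ∈ Λ.powerset, chi A S * W a b C s S with hX
    set Z := ∑ S ∈ Λ.powerset, W a b C s S with hZ
    set X' := ∑ S ∈ Λ.powerset, chi A S * W a b C (s ∪ t) S with hX'
    set Z' := ∑ S ∈ Λ.powerset, W a b C (s ∪ t) S with hZ'
    set Y := ∑ S ∈ Λ.powerset, chi (C k) S * W a b C (s ∪ t) S with hY
    set U := ∑ S ∈ Λ.powerset, chi A S * chi (C k) S * W a b C (s ∪ t) S with hU
    have s1 : ∑ S ∈ Λ.powerset, W a b C (s ∪ insert k t) S = a k * Z' + b k * Y := by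
      rw [hZ', hY, Finset.mul_sum, Finset.mul_sum, ← Finset.sum_add_distrib]
      exact Finset.sum_congr rfl fun S _ => hWi S
    have s2 : ∑ S ∈ Λ.powerset, chi A S * W a b C (s ∪ insert k t) S = a k * X' + b k * U := by
      rw [hX', hU, Finset.mul_sum, Finset.mul_sum, ← Finset.sum_add_distrib]
      refine Finset.sum_congr rfl fun S _ => ?_
      rw [hWi S]; ring
    rw [s1, s2]
    have h3 : X * Y ≤ U * Z := by
      have h4 : Z' * (X * Y) ≤ Z' * (U * Z) := by
        have h5 : X * Z' * Y ≤ X' * Z * Y := mul_le_mul_of_nonneg_right ih' hY0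
        have h6 : X' * Y * Z ≤ U * Z' * Z := mul_le_mul_of_nonneg_right hg hZ0.le
        nlinarith
      exact le_of_mul_le_mul_left h4 hZ'0
    nlinarith [mul_le_mul_of_nonneg_left ih' (le_trans hbk habk), mul_le_mul_of_nonneg_left h3 hbk]

theorem mono' (Λ : Finset V) (a b : K → ℝ) (C : K → Finset V) (s t : Finset K)
    (hst : s ⊆ t) (ha : ∀ k ∈ t, 0 < a k)
    (hb : ∀ k ∈ t, 0 ≤ b k) (hab : ∀ k ∈ t, b k ≤ a k) (A : Finset V) :
    (∑ S ∈ Λ.powerset, chi A S * W a b C s S) / (∑ S ∈ Λ.powerset, W a b C s S) ≤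
    (∑ S ∈ Λ.powerset, chi A S * W a b C t S) / (∑ S ∈ Λ.powerset, W a b C t S) := by
  have h := mono Λ a b C s (t \ s) Finset.disjoint_sdiff
    (by rw [Finset.union_sdiff_of_subset hst]; exact ha)
    (by rw [Finset.union_sdiff_of_subset hst]; exact hb)
    (by rw [Finset.union_sdiff_of_subset hst]; exact hab) A
  rw [Finset.union_sdiff_of_subset hst] at h
  rw [div_le_div_iff₀ (sum_W_pos Λ a b C s (fun k hk => ha k (hst hk)) (fun k hk => hb k (hst hk))
    (fun k hk => hab k (hst hk))) (sum_W_pos Λ a b C t ha hb hab)]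
  exact h

end Pool.Agent.Helper580.IsingGKS
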