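import Pool.Agent.Helper580.IsingGKS

set_option autoImplicit false

namespace Pool.Agent.Helper580.IsingGraph

open Finset Pool.Agent.Helper580.IsingGKS

variable {V : Type*} [DecidableEq V]

/-- number of ordered pairs leaving `S` -/
def bd (N : V → Finset V) (S : Finset V) : ℕ := ∑ x ∈ S, (N x \ S).card

/-- weight of the plus boundary Ising model with minus set `S` -/
noncomputable def wt (N : V → Finset V) (β : ℝ) (S : Finset V) : ℝ :=
  Real.exp (-(2 * β * bd N S))

theorem wt_pos (N : V → Finset V) (β : ℝ) (S : Finset V) : 0 < wt N β S := Real.exp_pos _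

/-- partition function -/
noncomputable def Zf (N : V → Finset V) (Λ : Finset V) (β : ℝ) : ℝ :=
  ∑ S ∈ Λ.powerset, wt N β S

theorem Zf_pos (N : V → Finset V) (Λ : Finset V) (β : ℝ) : 0 < Zf N Λ β :=
  Finset.sum_pos (fun S _ => wt_pos N β S) ⟨∅, Finset.empty_mem_powerset Λ⟩

/-- expectation of `chi A` -/
noncomputable def E (N : V → Finset V) (Λ : Finset V) (β : ℝ) (A : Finset V) : ℝ :=
  (∑ S ∈ Λ.powerset, chi A S * wt N β S) / Zf N Λ β

theorem sum_bd (N : V → Finset V) (hs : ∀ x y, y ∈ N x ↔ x ∈ N y) (U S : Finset V)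
    (hSU : S ⊆ U) (hN : ∀ x ∈ S, N x ⊆ U) :
    ∑ x ∈ U, ∑ y ∈ N x, (1 - sgn S x * sgn S y) = 4 * (bd N S : ℝ) := by
  have h1 : ∀ x y : V, 1 - sgn S x * sgn S y =
      2 * ((if x ∈ S ∧ y ∉ S then (1 : ℝ) else 0) + (if y ∈ S ∧ x ∉ S then (1 : ℝ) else 0)) := by
    intro x y
    unfold sgn
    by_cases hx : x ∈ S <;> by_cases hy : y ∈ S <;> simp [hx, hy] <;> norm_num
  simp_rw [h1, ← Finset.mul_sum, Finset.sum_add_distrib]
  have hA : ∑ x ∈ U, ∑ y ∈ N x, (if x ∈ S ∧ y ∉ S then (1 : ℝ) else 0) = bd N S := by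
    unfold bd
    push_cast
    rw [← Finset.sum_subset hSU]
    · refine Finset.sum_congr rfl fun x hx => ?_
      rw [Finset.card_eq_sum_ones, Finset.sdiff_eq_filter, Finset.sum_filter]
      push_cast
      refine Finset.sum_congr rfl fun y _ => ?_
      simp [hx]
    · intro x _ hx
      refine Finset.sum_eq_zero fun y _ => ?_
      simp [hx]
  have hB : ∑ x ∈ U, ∑ y ∈ N x, (if y ∈ S ∧ x ∉ S then (1 : ℝ) else 0) = bd N S := by
    have e1 : ∑ x ∈ U, ∑ y ∈ N x, (if y ∈ S ∧ x ∉ S then (1 : ℝ) else 0) =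
        ∑ x ∈ U, ∑ y ∈ S, (if y ∈ N x ∧ x ∉ S then (1 : ℝ) else 0) := by
      refine Finset.sum_congr rfl fun x hx => ?_
      have e2 : ∑ y ∈ N x, (if y ∈ S ∧ x ∉ S then (1 : ℝ) else 0) =
          ∑ y ∈ (N x).filter (fun y => y ∈ S), (if x ∉ S then (1 : ℝ) else 0) := by
        rw [Finset.sum_filter]
        refine Finset.sum_congr rfl fun y _ => ?_
        by_cases hy : y ∈ S <;> simp [hy]
      have e3 : ∑ y ∈ S, (if y ∈ N x ∧ x ∉ S then (1 : ℝ) else 0) =
          ∑ y ∈ S.filter (fun y => y ∈ N x), (if x ∉ S then (1 : ℝ) else 0) := by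
        rw [Finset.sum_filter]
        refine Finset.sum_congr rfl fun y _ => ?_
        by_cases hy : y ∈ N x <;> simp [hy]
      rw [e2, e3]
      congr 1
      ext y
      simp only [Finset.mem_filter]
      tauto
    rw [e1, Finset.sum_comm]
    unfold bd
    push_cast
    refine Finset.sum_congr rfl fun y hy => ?_
    rw [Finset.card_eq_sum_ones]
    push_cast
    have e4 : N y \ S = U.filter (fun x => y ∈ N x ∧ x ∉ S) := by
      ext x
      simp only [Finset.mem_sdiff, Finset.mem_filter]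
      constructor
      · rintro ⟨h1, h2⟩
        exact ⟨hN y hy h1, (hs x y).mpr h1, h2⟩
      · rintro ⟨_, h1, h2⟩
        exact ⟨(hs x y).mp h1, h2⟩
    rw [e4, Finset.sum_filter]
  rw [hA, hB]; ring

/-- closure of a set -/
def cl (N : V → Finset V) (Λ : Finset V) : Finset V := Λ ∪ Λ.biUnion N

theorem subset_cl (N : V → Finset V) (Λ : Finset V) : Λ ⊆ cl N Λ := Finset.subset_union_left

theorem nbr_subset_cl (N : V → Finset V) {Λ : Finset V} {x : V} (hx : x ∈ Λ) : N x ⊆ cl N Λ :=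
  (Finset.subset_biUnion_of_mem N hx).trans Finset.subset_union_right

noncomputable def ca (γ : ℝ) : ℝ := Real.exp (-(γ / 2)) * Real.cosh (γ / 2)
noncomputable def cb (γ : ℝ) : ℝ := Real.exp (-(γ / 2)) * Real.sinh (γ / 2)

theorem ca_pos (γ : ℝ) : 0 < ca γ := mul_pos (Real.exp_pos _) (Real.cosh_pos _)
theorem cb_nonneg {γ : ℝ} (h : 0 ≤ γ) : 0 ≤ cb γ :=
  mul_nonneg (Real.exp_pos _).le (Real.sinh_nonneg_iff.mpr (by linarith))
theorem cb_le_ca (γ : ℝ) : cb γ ≤ ca γ :=
  mul_le_mul_of_nonneg_left (Real.sinh_lt_cosh _).le (Real.exp_pos _).le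

theorem factor (γ c : ℝ) (hc : c = 1 ∨ c = -1) :
    ca γ + cb γ * c = Real.exp (-(γ / 2 * (1 - c))) := by
  unfold ca cb
  rcases hc with h | h <;> subst h
  · have : Real.exp (-(γ / 2)) * Real.cosh (γ / 2) + Real.exp (-(γ / 2)) * Real.sinh (γ / 2) * 1 =
        Real.exp (-(γ / 2)) * (Real.cosh (γ / 2) + Real.sinh (γ / 2)) := by ring
    rw [this, Real.cosh_add_sinh, ← Real.exp_add]
    congr 1; ring
  · have : Real.exp (-(γ / 2)) * Real.cosh (γ / 2) + Real.exp (-(γ / 2)) * Real.sinh (γ / 2) * (-1)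
        = Real.exp (-(γ / 2)) * (Real.cosh (γ / 2) - Real.sinh (γ / 2)) := by ring
    rw [this, Real.cosh_sub_sinh, ← Real.exp_add]
    congr 1; ring

/-- the weight as a product -/
theorem wt_eq_prod (N : V → Finset V) (hs : ∀ x y, y ∈ N x ↔ x ∈ N y) (hi : ∀ x, x ∉ N x)
    (U S : Finset V) (hSU : S ⊆ U) (hN : ∀ x ∈ S, N x ⊆ U) (γ : ℝ) :
    wt N γ S = ∏ p ∈ U.sigma N, (ca γ + cb γ * chi {p.1, p.2} S) := by
  have h := sum_bd N hs U S hSU hN
  unfold wt
  have e : -(2 * γ * (bd N S : ℝ)) = ∑ p ∈ U.sigma N, (-(γ / 2 * (1 - chi {p.1, p.2} S))) := by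
    rw [Finset.sum_sigma]
    have : ∀ x ∈ U, ∑ y ∈ N x, (-(γ / 2 * (1 - chi {x, y} S))) =
        -(γ / 2) * ∑ y ∈ N x, (1 - sgn S x * sgn S y) := by
      intro x _
      rw [Finset.mul_sum]
      refine Finset.sum_congr rfl fun y hy => ?_
      have hxy : x ≠ y := by rintro rfl; exact hi x hy
      rw [chi_pair hxy]; ring
    rw [Finset.sum_congr rfl this, ← Finset.mul_sum, h]; ring
  rw [e, Real.exp_sum]
  refine Finset.prod_congr rfl fun p _ => ?_
  rw [factor γ _ (chi_cases _ _)]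

/-- correlations with plus boundary decrease when the volume grows -/
theorem E_anti_vol (N : V → Finset V) (hs : ∀ x y, y ∈ N x ↔ x ∈ N y) (hi : ∀ x, x ∉ N x)
    {Λ Λ' : Finset V} (hΛ : Λ ⊆ Λ') {β : ℝ} (hβ : 0 ≤ β) (A : Finset V) :
    E N Λ' β A ≤ E N Λ β A := by
  set U := cl N Λ' with hU
  let a : ((Σ _ : V, V) ⊕ V) → ℝ := Sum.elim (fun _ => ca β) (fun _ => 1)
  let b : ((Σ _ : V, V) ⊕ V) → ℝ := Sum.elim (fun _ => cb β) (fun _ => 1)
  let C : ((Σ _ : V, V) ⊕ V) → Finset V := Sum.elim (fun p => {p.1, p.2}) (fun x => {x})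
  let s : Finset ((Σ _ : V, V) ⊕ V) := (U.sigma N).disjSum ∅
  let t : Finset ((Σ _ : V, V) ⊕ V) := (U.sigma N).disjSum (Λ' \ Λ)
  have hst : s ⊆ t := Finset.disjSum_mono (le_refl _) (Finset.empty_subset _)
  have h := mono' Λ' a b C s t hst
    (by rintro (p | x) _
        · exact ca_pos β
        · exact one_pos)
    (by rintro (p | x) _
        · exact cb_nonneg hβ
        · exact zero_le_one)
    (by rintro (p | x) _
        · exact cb_le_ca β
        · exact le_refl (1 : ℝ)) A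
  have hWs : ∀ S ∈ Λ'.powerset, W a b C s S = wt N β S := by
    intro S hS
    rw [Finset.mem_powerset] at hS
    rw [wt_eq_prod N hs hi U S (hS.trans (subset_cl N Λ'))
      (fun x hx => nbr_subset_cl N (hS hx)) β]
    unfold W
    rw [Finset.prod_disjSum]
    simp only [Finset.prod_empty, mul_one]
    rfl
  have hWt : ∀ S ∈ Λ'.powerset, W a b C t S =
      if S ⊆ Λ then 2 ^ (Λ' \ Λ).card * wt N β S else 0 := by
    intro S hS
    rw [Finset.mem_powerset] at hS
    rw [wt_eq_prod N hs hi U S (hS.trans (subset_cl N Λ'))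
      (fun x hx => nbr_subset_cl N (hS hx)) β]
    unfold W
    rw [Finset.prod_disjSum]
    have e1 : ∏ x ∈ Λ' \ Λ, (a (Sum.inr x) + b (Sum.inr x) * chi (C (Sum.inr x)) S) =
        if S ⊆ Λ then 2 ^ (Λ' \ Λ).card else 0 := by
      show ∏ x ∈ Λ' \ Λ, ((1 : ℝ) + 1 * chi {x} S) = _
      simp only [chi_singleton, one_mul]
      split_ifs with hSL
      · rw [Finset.prod_congr rfl (g := fun _ => (2 : ℝ)), Finset.prod_const]
        intro x hx
        rw [Finset.mem_sdiff] at hx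
        have : x ∉ S := fun h => hx.2 (hSL h)
        simp [sgn, this]; norm_num
      · rw [Finset.not_subset] at hSL
        obtain ⟨x, hx, hxL⟩ := hSL
        apply Finset.prod_eq_zero (i := x) (Finset.mem_sdiff.mpr ⟨hS hx, hxL⟩)
        simp [sgn, hx]
    rw [e1]
    split_ifs
    · rw [mul_comm]; rfl
    · rw [mul_zero]
  have hsum : ∀ f : Finset V → ℝ, ∑ S ∈ Λ'.powerset, f S * (if S ⊆ Λ then
      2 ^ (Λ' \ Λ).card * wt N β S else 0) =
      2 ^ (Λ' \ Λ).card * ∑ S ∈ Λ.powerset, f S * wt N β S := by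
    intro f
    rw [Finset.mul_sum]
    have : Λ.powerset ⊆ Λ'.powerset := Finset.powerset_mono.mpr hΛ
    rw [← Finset.sum_subset this]
    · refine Finset.sum_congr rfl fun S hS => ?_
      rw [if_pos (Finset.mem_powerset.mp hS)]; ring
    · intro S _ hS
      rw [if_neg (fun h => hS (Finset.mem_powerset.mpr h)), mul_zero]
  have n1 : ∑ S ∈ Λ'.powerset, chi A S * W a b C s S = ∑ S ∈ Λ'.powerset, chi A S * wt N β S :=
    Finset.sum_congr rfl fun S hS => by rw [hWs S hS]
  have n2 : ∑ S ∈ Λ'.powerset, W a b C s S = Zf N Λ' β :=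
    Finset.sum_congr rfl fun S hS => by rw [hWs S hS]
  have n3 : ∑ S ∈ Λ'.powerset, chi A S * W a b C t S =
      2 ^ (Λ' \ Λ).card * ∑ S ∈ Λ.powerset, chi A S * wt N β S := by
    rw [← hsum]
    exact Finset.sum_congr rfl fun S hS => by rw [hWt S hS]
  have n4 : ∑ S ∈ Λ'.powerset, W a b C t S = 2 ^ (Λ' \ Λ).card * Zf N Λ β := by
    have := hsum (fun _ => 1)
    simp only [one_mul] at this
    unfold Zf
    rw [← this]
    exact Finset.sum_congr rfl fun S hS => by rw [hWt S hS]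
  rw [n1, n2, n3, n4, mul_div_mul_left _ _ (by positivity)] at h
  exact h

/-- correlations increase with the inverse temperature -/
theorem E_mono_beta (N : V → Finset V) (hs : ∀ x y, y ∈ N x ↔ x ∈ N y) (hi : ∀ x, x ∉ N x)
    (Λ : Finset V) {β β' : ℝ} (hβ : 0 ≤ β) (hβ' : β ≤ β') (A : Finset V) :
    E N Λ β A ≤ E N Λ β' A := by
  set U := cl N Λ with hU
  let a : ((Σ _ : V, V) ⊕ (Σ _ : V, V)) → ℝ := Sum.elim (fun _ => ca β) (fun _ => ca (β' - β))
  let b : ((Σ _ : V, V) ⊕ (Σ _ : V, V)) → ℝ := Sum.elim (fun _ => cb β) (fun _ => cb (β' - β))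
  let C : ((Σ _ : V, V) ⊕ (Σ _ : V, V)) → Finset V :=
    Sum.elim (fun p => {p.1, p.2}) (fun p => {p.1, p.2})
  let s : Finset ((Σ _ : V, V) ⊕ (Σ _ : V, V)) := (U.sigma N).disjSum ∅
  let t : Finset ((Σ _ : V, V) ⊕ (Σ _ : V, V)) := (U.sigma N).disjSum (U.sigma N)
  have hst : s ⊆ t := Finset.disjSum_mono (le_refl _) (Finset.empty_subset _)
  have h := mono' Λ a b C s t hst
    (by rintro (p | x) _
        · exact ca_pos β
        · exact ca_pos _)
    (by rintro (p | x) _
        · exact cb_nonneg hβ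
        · exact cb_nonneg (by linarith))
    (by rintro (p | x) _
        · exact cb_le_ca β
        · exact cb_le_ca _) A
  have hWs : ∀ S ∈ Λ.powerset, W a b C s S = wt N β S := by
    intro S hS
    rw [Finset.mem_powerset] at hS
    rw [wt_eq_prod N hs hi U S (hS.trans (subset_cl N Λ))
      (fun x hx => nbr_subset_cl N (hS hx)) β]
    unfold W
    rw [Finset.prod_disjSum]
    simp only [Finset.prod_empty, mul_one]
    rfl
  have hWt : ∀ S ∈ Λ.powerset, W a b C t S = wt N β' S := by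
    intro S hS
    rw [Finset.mem_powerset] at hS
    have e0 : wt N β' S = wt N β S * wt N (β' - β) S := by
      unfold wt; rw [← Real.exp_add]; congr 1; ring
    rw [e0, wt_eq_prod N hs hi U S (hS.trans (subset_cl N Λ))
      (fun x hx => nbr_subset_cl N (hS hx)) β, wt_eq_prod N hs hi U S (hS.trans (subset_cl N Λ))
      (fun x hx => nbr_subset_cl N (hS hx)) (β' - β)]
    unfold W
    rw [Finset.prod_disjSum]
    rfl
  have n1 : ∑ S ∈ Λ.powerset, chi A S * W a b C s S = ∑ S ∈ Λ.powerset, chi A S * wt N β S :=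
    Finset.sum_congr rfl fun S hS => by rw [hWs S hS]
  have n2 : ∑ S ∈ Λ.powerset, W a b C s S = Zf N Λ β :=
    Finset.sum_congr rfl fun S hS => by rw [hWs S hS]
  have n3 : ∑ S ∈ Λ.powerset, chi A S * W a b C t S = ∑ S ∈ Λ.powerset, chi A S * wt N β' S :=
    Finset.sum_congr rfl fun S hS => by rw [hWt S hS]
  have n4 : ∑ S ∈ Λ.powerset, W a b C t S = Zf N Λ β' :=
    Finset.sum_congr rfl fun S hS => by rw [hWt S hS]
  rw [n1, n2, n3, n4] at h
  exact h

theorem E_nonneg (N : V → Finset V) (hs : ∀ x y, y ∈ N x ↔ x ∈ N y) (hi : ∀ x, x ∉ N x)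
    (Λ : Finset V) {β : ℝ} (hβ : 0 ≤ β) (A : Finset V) : 0 ≤ E N Λ β A := by
  apply div_nonneg _ (Zf_pos N Λ β).le
  have h := gks1 Λ (fun p : (Σ _ : V, V) => ({p.1, p.2} : Finset V)) ((cl N Λ).sigma N)
    (fun _ => ca β) (fun _ => cb β) (fun _ _ => (ca_pos β).le) (fun _ _ => cb_nonneg hβ) A
  have e : ∀ S ∈ Λ.powerset, chi A S * wt N β S = chi A S * W (fun _ => ca β) (fun _ => cb β)
      (fun p : (Σ _ : V, V) => ({p.1, p.2} : Finset V)) ((cl N Λ).sigma N) S := by
    intro S hS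
    rw [Finset.mem_powerset] at hS
    rw [wt_eq_prod N hs hi (cl N Λ) S (hS.trans (subset_cl N Λ))
      (fun x hx => nbr_subset_cl N (hS hx)) β]
    rfl
  rw [Finset.sum_congr rfl e]
  exact h

theorem E_le_one (N : V → Finset V) (Λ : Finset V) (β : ℝ) (A : Finset V) : E N Λ β A ≤ 1 := by
  unfold E
  rw [div_le_one (Zf_pos N Λ β)]
  apply Finset.sum_le_sum
  intro S _
  have := chi_le_one A S
  have h2 := wt_pos N β S
  nlinarith

theorem sum_powerset_union {A B : Finset V} (h : Disjoint A B) (g : Finset V → ℝ) :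
    ∑ S ∈ (A ∪ B).powerset, g S = ∑ S ∈ A.powerset, ∑ T ∈ B.powerset, g (S ∪ T) := by
  rw [← Finset.sum_product']
  symm
  refine Finset.sum_nbij' (fun p => p.1 ∪ p.2) (fun S => (S ∩ A, S ∩ B)) ?_ ?_ ?_ ?_ ?_
  · rintro ⟨S, T⟩ hp
    rw [Finset.mem_product, Finset.mem_powerset, Finset.mem_powerset] at hp
    rw [Finset.mem_powerset]
    exact Finset.union_subset_union hp.1 hp.2
  · intro S hS
    rw [Finset.mem_product, Finset.mem_powerset, Finset.mem_powerset]
    exact ⟨Finset.inter_subset_right, Finset.inter_subset_right⟩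
  · rintro ⟨S, T⟩ hp
    rw [Finset.mem_product, Finset.mem_powerset, Finset.mem_powerset] at hp
    have hd := Finset.disjoint_left.mp h
    ext x
    · simp only [Finset.mem_inter, Finset.mem_union]
      constructor
      · rintro ⟨h1 | h1, h2⟩
        · exact h1
        · exact absurd (hp.2 h1) (hd h2)
      · intro h1; exact ⟨Or.inl h1, hp.1 h1⟩
    · simp only [Finset.mem_inter, Finset.mem_union]
      constructor
      · rintro ⟨h1 | h1, h2⟩
        · exact absurd h2 (hd (hp.1 h1))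
        · exact h1
      · intro h1; exact ⟨Or.inr h1, hp.2 h1⟩
  · intro S hS
    rw [Finset.mem_powerset] at hS
    rw [← Finset.inter_union_distrib_left]
    exact Finset.inter_eq_left.mpr hS
  · intro p _; rfl

theorem chi_union_right {A S T : Finset V} (hAT : Disjoint A T) :
    chi A (S ∪ T) = chi A S := by
  unfold chi
  refine Finset.prod_congr rfl fun x hx => ?_
  have : x ∉ T := Finset.disjoint_left.mp hAT hx
  simp [sgn, this]

theorem bd_union (N : V → Finset V) {S T : Finset V} (hd : Disjoint S T)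
    (h1 : ∀ x ∈ S, Disjoint (N x) T) (h2 : ∀ x ∈ T, Disjoint (N x) S) :
    bd N (S ∪ T) = bd N S + bd N T := by
  unfold bd
  rw [Finset.sum_union hd]
  congr 1
  · refine Finset.sum_congr rfl fun x hx => ?_
    congr 1
    ext y
    simp only [Finset.mem_sdiff, Finset.mem_union]
    constructor
    · rintro ⟨a, b⟩; exact ⟨a, fun h => b (Or.inl h)⟩
    · rintro ⟨a, b⟩
      refine ⟨a, ?_⟩
      rintro (h | h)
      · exact b h
      · exact Finset.disjoint_left.mp (h1 x hx) a h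
  · refine Finset.sum_congr rfl fun x hx => ?_
    congr 1
    ext y
    simp only [Finset.mem_sdiff, Finset.mem_union]
    constructor
    · rintro ⟨a, b⟩; exact ⟨a, fun h => b (Or.inr h)⟩
    · rintro ⟨a, b⟩
      refine ⟨a, ?_⟩
      rintro (h | h)
      · exact Finset.disjoint_left.mp (h2 x hx) a h
      · exact b h

/-- independence of well separated volumes -/
theorem E_union (N : V → Finset V) (β : ℝ) {Λ₁ Λ₂ A₁ A₂ : Finset V} (hd : Disjoint Λ₁ Λ₂)
    (h1 : ∀ x ∈ Λ₁, Disjoint (N x) Λ₂) (h2 : ∀ x ∈ Λ₂, Disjoint (N x) Λ₁)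
    (hA₁ : A₁ ⊆ Λ₁) (hA₂ : A₂ ⊆ Λ₂) :
    E N (Λ₁ ∪ Λ₂) β (A₁ ∪ A₂) = E N Λ₁ β A₁ * E N Λ₂ β A₂ := by
  have hw : ∀ S ∈ Λ₁.powerset, ∀ T ∈ Λ₂.powerset, wt N β (S ∪ T) = wt N β S * wt N β T := by
    intro S hS T hT
    rw [Finset.mem_powerset] at hS hT
    unfold wt
    rw [bd_union N (Finset.disjoint_of_subset_left hS (Finset.disjoint_of_subset_right hT hd))
      (fun x hx => Finset.disjoint_of_subset_right hT (h1 x (hS hx)))
      (fun x hx => Finset.disjoint_of_subset_right hS (h2 x (hT hx))), ← Real.exp_add]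
    congr 1; push_cast; ring
  have hZ : Zf N (Λ₁ ∪ Λ₂) β = Zf N Λ₁ β * Zf N Λ₂ β := by
    unfold Zf
    rw [sum_powerset_union hd, Finset.sum_mul_sum]
    exact Finset.sum_congr rfl fun S hS => Finset.sum_congr rfl fun T hT => hw S hS T hT
  have hX : ∑ S ∈ (Λ₁ ∪ Λ₂).powerset, chi (A₁ ∪ A₂) S * wt N β S =
      (∑ S ∈ Λ₁.powerset, chi A₁ S * wt N β S) * (∑ S ∈ Λ₂.powerset, chi A₂ S * wt N β S) := by
    rw [sum_powerset_union hd, Finset.sum_mul_sum]
    refine Finset.sum_congr rfl fun S hS => Finset.sum_congr rfl fun T hT => ?_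
    rw [hw S hS T hT, chi_union (Finset.disjoint_of_subset_left hA₁
      (Finset.disjoint_of_subset_right hA₂ hd))]
    rw [Finset.mem_powerset] at hS hT
    have e1 : chi A₁ (S ∪ T) = chi A₁ S := chi_union_right (A := A₁)
      (Finset.disjoint_of_subset_left hA₁ (Finset.disjoint_of_subset_right hT hd))
    have e2 : chi A₂ (S ∪ T) = chi A₂ T := by
      rw [Finset.union_comm]
      exact chi_union_right (A := A₂)
        (Finset.disjoint_of_subset_left hA₂ (Finset.disjoint_of_subset_right hS hd.symm))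
    rw [e1, e2]; ring
  unfold E
  rw [hX, hZ, mul_div_mul_comm]

end Pool.Agent.Helper580.IsingGraph
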