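import Pool.Agent.Helper580.IsingGraph

set_option autoImplicit false

namespace Pool.Agent.Helper580.IsingLat

open Finset Pool.Agent.Helper580.IsingGKS Pool.Agent.Helper580.IsingGraph

variable {d : ℕ}

/-- unit vectors -/
def uv (i : Fin d) : Fin d → ℤ := Pi.single i 1

/-- the neighbours in `ℤ^d` -/
def nb (x : Fin d → ℤ) : Finset (Fin d → ℤ) :=
  (Finset.univ : Finset (Fin d)).image (fun i => x + uv i) ∪
    (Finset.univ : Finset (Fin d)).image (fun i => x - uv i)

theorem mem_nb {x y : Fin d → ℤ} : y ∈ nb x ↔ ∃ i, y = x + uv i ∨ y = x - uv i := by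
  unfold nb
  simp only [Finset.mem_union, Finset.mem_image, Finset.mem_univ, true_and]
  constructor
  · rintro (⟨i, h⟩ | ⟨i, h⟩)
    · exact ⟨i, Or.inl h.symm⟩
    · exact ⟨i, Or.inr h.symm⟩
  · rintro ⟨i, h | h⟩
    · exact Or.inl ⟨i, h.symm⟩
    · exact Or.inr ⟨i, h.symm⟩

theorem nb_symm (x y : Fin d → ℤ) : y ∈ nb x ↔ x ∈ nb y := by
  rw [mem_nb, mem_nb]
  constructor
  · rintro ⟨i, h | h⟩
    · exact ⟨i, Or.inr (by rw [h]; abel)⟩
    · exact ⟨i, Or.inl (by rw [h]; abel)⟩
  · rintro ⟨i, h | h⟩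
    · exact ⟨i, Or.inr (by rw [h]; abel)⟩
    · exact ⟨i, Or.inl (by rw [h]; abel)⟩

theorem uv_ne_zero (i : Fin d) : uv i ≠ 0 := by
  intro h
  have := congrFun h i
  simp [uv] at this

theorem nb_irrefl (x : Fin d → ℤ) : x ∉ nb x := by
  rw [mem_nb]
  rintro ⟨i, h | h⟩
  · exact uv_ne_zero i (by simpa using h.symm)
  · exact uv_ne_zero i (sub_eq_self.mp h.symm)

theorem card_nb_le (x : Fin d → ℤ) : (nb x).card ≤ 2 * d := by
  unfold nb
  refine (Finset.card_union_le _ _).trans ?_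
  have h1 := Finset.card_image_le (s := (Finset.univ : Finset (Fin d))) (f := fun i => x + uv i)
  have h2 := Finset.card_image_le (s := (Finset.univ : Finset (Fin d))) (f := fun i => x - uv i)
  simp only [Finset.card_univ, Fintype.card_fin] at h1 h2
  omega

/-- distance one in `ℓ¹` means being neighbours -/
theorem l1_iff (x y : Fin d → ℤ) : ∑ i, |x i - y i| = 1 ↔ y ∈ nb x := by
  rw [mem_nb]
  constructor
  · intro h
    have hex : ∃ i, x i - y i ≠ 0 := by
      by_contra hcon
      push Not at hcon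
      rw [Finset.sum_eq_zero (fun i _ => by rw [hcon i, abs_zero])] at h
      norm_num at h
    obtain ⟨i, hi⟩ := hex
    have h1 : (1 : ℤ) ≤ |x i - y i| := Int.one_le_abs hi
    have h2 : |x i - y i| + ∑ j ∈ Finset.univ.erase i, |x j - y j| = 1 := by
      rw [Finset.add_sum_erase _ (fun j => |x j - y j|) (Finset.mem_univ i)]; exact h
    have h3 : 0 ≤ ∑ j ∈ Finset.univ.erase i, |x j - y j| :=
      Finset.sum_nonneg fun j _ => abs_nonneg _
    have h4 : |x i - y i| = 1 := by omega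
    have h5 : ∑ j ∈ Finset.univ.erase i, |x j - y j| = 0 := by omega
    have h6 : ∀ j, j ≠ i → x j - y j = 0 := by
      intro j hj
      have := (Finset.sum_eq_zero_iff_of_nonneg (fun j _ => abs_nonneg _)).mp h5 j
        (Finset.mem_erase.mpr ⟨hj, Finset.mem_univ j⟩)
      exact abs_eq_zero.mp this
    refine ⟨i, ?_⟩
    rcases abs_eq (by norm_num : (0 : ℤ) ≤ 1) |>.mp h4 with h | h
    · right
      funext j
      by_cases hj : j = i
      · subst hj; simp [uv]; omega
      · have := h6 j hj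
        simp [uv, hj]; omega
    · left
      funext j
      by_cases hj : j = i
      · subst hj; simp [uv]; omega
      · have := h6 j hj
        simp [uv, hj]; omega
  · rintro ⟨i, h | h⟩
    · rw [h, Finset.sum_eq_single i]
      · simp [uv]
      · intro j _ hj; simp [uv, hj]
      · intro hi; exact absurd (Finset.mem_univ i) hi
    · rw [h, Finset.sum_eq_single i]
      · simp [uv]
      · intro j _ hj; simp [uv, hj]
      · intro hi; exact absurd (Finset.mem_univ i) hi

/-- translate a finite set -/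
def tr (v : Fin d → ℤ) (S : Finset (Fin d → ℤ)) : Finset (Fin d → ℤ) :=
  S.map (addRightEmbedding v)

theorem mem_tr {v x : Fin d → ℤ} {S : Finset (Fin d → ℤ)} : x ∈ tr v S ↔ x - v ∈ S := by
  unfold tr
  simp only [Finset.mem_map, addRightEmbedding_apply]
  constructor
  · rintro ⟨a, ha, rfl⟩; simpa using ha
  · intro h; exact ⟨x - v, h, by abel⟩

theorem nb_add (x v : Fin d → ℤ) : nb (x + v) = tr v (nb x) := by
  ext y
  rw [mem_tr, mem_nb, mem_nb]
  constructor
  · rintro ⟨i, h | h⟩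
    · exact ⟨i, Or.inl (by rw [h]; abel)⟩
    · exact ⟨i, Or.inr (by rw [h]; abel)⟩
  · rintro ⟨i, h | h⟩
    · exact ⟨i, Or.inl (by rw [eq_add_of_sub_eq h]; abel)⟩
    · exact ⟨i, Or.inr (by rw [eq_add_of_sub_eq h]; abel)⟩

theorem tr_sdiff (v : Fin d → ℤ) (S T : Finset (Fin d → ℤ)) : tr v S \ tr v T = tr v (S \ T) := by
  ext x; simp only [Finset.mem_sdiff, mem_tr]

theorem card_tr (v : Fin d → ℤ) (S : Finset (Fin d → ℤ)) : (tr v S).card = S.card := by
  unfold tr; exact Finset.card_map _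

theorem bd_tr (v : Fin d → ℤ) (S : Finset (Fin d → ℤ)) : bd nb (tr v S) = bd nb S := by
  unfold bd
  conv_lhs => unfold tr
  rw [Finset.sum_map]
  refine Finset.sum_congr rfl fun x _ => ?_
  show (nb (x + v) \ tr v S).card = _
  rw [nb_add, tr_sdiff, card_tr]

theorem chi_tr (v : Fin d → ℤ) (A S : Finset (Fin d → ℤ)) : chi (tr v A) (tr v S) = chi A S := by
  unfold chi
  conv_lhs => unfold tr
  rw [Finset.prod_map]
  refine Finset.prod_congr rfl fun x _ => ?_
  show sgn (tr v S) (x + v) = sgn S x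
  unfold sgn
  simp only [mem_tr, add_sub_cancel_right]

theorem sum_powerset_tr (v : Fin d → ℤ) (Λ : Finset (Fin d → ℤ))
    (g : Finset (Fin d → ℤ) → ℝ) :
    ∑ S ∈ (tr v Λ).powerset, g S = ∑ S ∈ Λ.powerset, g (tr v S) := by
  symm
  refine Finset.sum_nbij' (fun S => tr v S) (fun S => tr (-v) S) ?_ ?_ ?_ ?_ ?_
  · intro S hS
    rw [Finset.mem_powerset] at hS ⊢
    intro x hx
    rw [mem_tr] at hx ⊢
    exact hS hx
  · intro S hS
    rw [Finset.mem_powerset] at hS ⊢
    intro x hx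
    rw [mem_tr] at hx
    have := hS hx
    rw [mem_tr] at this
    simpa using this
  · intro S _
    ext x; simp only [mem_tr]; simp
  · intro S _
    ext x; simp only [mem_tr]; simp
  · intro S _; rfl

theorem E_tr (v : Fin d → ℤ) (Λ : Finset (Fin d → ℤ)) (β : ℝ) (A : Finset (Fin d → ℤ)) :
    E nb (tr v Λ) β (tr v A) = E nb Λ β A := by
  unfold E Zf
  rw [sum_powerset_tr, sum_powerset_tr]
  congr 1
  · refine Finset.sum_congr rfl fun S _ => ?_
    rw [chi_tr]; unfold wt; rw [bd_tr]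
  · refine Finset.sum_congr rfl fun S _ => ?_
    unfold wt; rw [bd_tr]

theorem tr_singleton (v x : Fin d → ℤ) : tr v {x} = {x + v} := by
  unfold tr; simp

/-- centred cube -/
noncomputable def cube (d N : ℕ) : Finset (Fin d → ℤ) := Finset.Icc (fun _ => -(N : ℤ)) (fun _ => (N : ℤ))

/-- the box `{1,…,L}^d` -/
noncomputable def box (d L : ℕ) : Finset (Fin d → ℤ) := Finset.Icc (fun _ => 1) (fun _ => (L : ℤ))

theorem mem_cube {N : ℕ} {x : Fin d → ℤ} : x ∈ cube d N ↔ ∀ i, -(N : ℤ) ≤ x i ∧ x i ≤ N := by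
  unfold cube
  rw [Finset.mem_Icc, Pi.le_def, Pi.le_def]
  exact ⟨fun h i => ⟨h.1 i, h.2 i⟩, fun h => ⟨fun i => (h i).1, fun i => (h i).2⟩⟩

theorem mem_box {L : ℕ} {x : Fin d → ℤ} : x ∈ box d L ↔ ∀ i, 1 ≤ x i ∧ x i ≤ L := by
  unfold box
  rw [Finset.mem_Icc, Pi.le_def, Pi.le_def]
  exact ⟨fun h i => ⟨h.1 i, h.2 i⟩, fun h => ⟨fun i => (h i).1, fun i => (h i).2⟩⟩

theorem card_box (L : ℕ) : (box d L).card = L ^ d := by
  unfold box
  rw [Pi.card_Icc]
  simp

theorem zero_mem_cube (N : ℕ) : (0 : Fin d → ℤ) ∈ cube d N := by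
  rw [mem_cube]; intro i; simp

/-- magnetisation at the centre of the cube with plus boundary -/
noncomputable def mg (d N : ℕ) (β : ℝ) : ℝ := E nb (cube d N) β {0}

theorem mg_anti {β : ℝ} (hβ : 0 ≤ β) {M N : ℕ} (h : M ≤ N) : mg d N β ≤ mg d M β := by
  apply E_anti_vol nb nb_symm nb_irrefl _ hβ
  intro x hx
  rw [mem_cube] at hx ⊢
  intro i
  have := hx i
  constructor <;> omega

theorem mg_nonneg {β : ℝ} (hβ : 0 ≤ β) (N : ℕ) : 0 ≤ mg d N β :=
  E_nonneg nb nb_symm nb_irrefl _ hβ _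

theorem mg_le_one (N : ℕ) (β : ℝ) : mg d N β ≤ 1 := E_le_one _ _ _ _

/-- spontaneous magnetisation -/
noncomputable def ms (d : ℕ) (β : ℝ) : ℝ := ⨅ N : ℕ, mg d N β

theorem mg_bddBelow {β : ℝ} (hβ : 0 ≤ β) : BddBelow (Set.range fun N : ℕ => mg d N β) :=
  ⟨0, by rintro _ ⟨N, rfl⟩; exact mg_nonneg hβ N⟩

theorem ms_le {β : ℝ} (hβ : 0 ≤ β) (N : ℕ) : ms d β ≤ mg d N β := ciInf_le (mg_bddBelow hβ) N

theorem ms_mono {β β' : ℝ} (hβ : 0 ≤ β) (h : β ≤ β') : ms d β ≤ ms d β' := by
  apply le_ciInf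
  intro N
  exact (ms_le hβ N).trans (E_mono_beta nb nb_symm nb_irrefl _ hβ h _)

theorem exists_mg_lt {β : ℝ} {ε : ℝ} (hε : 0 < ε) : ∃ N : ℕ, mg d N β < ms d β + ε := by
  exact exists_lt_of_ciInf_lt (lt_add_of_pos_right _ hε)

/-- one point function in a box -/
theorem E_box_ge {β : ℝ} (hβ : 0 ≤ β) {L : ℕ} {x : Fin d → ℤ} (hx : x ∈ box d L) :
    ms d β ≤ E nb (box d L) β {x} := by
  have h1 : E nb (tr x (cube d L)) β {x} = mg d L β := by
    have := E_tr x (cube d L) β {0}
    rw [tr_singleton, zero_add] at this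
    exact this
  have h2 : E nb (tr x (cube d L)) β {x} ≤ E nb (box d L) β {x} := by
    apply E_anti_vol nb nb_symm nb_irrefl _ hβ
    intro y hy
    rw [mem_tr, mem_cube]
    rw [mem_box] at hx hy
    intro i
    have := hx i
    have := hy i
    simp only [Pi.sub_apply]
    constructor <;> omega
  rw [h1] at h2
  exact (ms_le hβ L).trans h2

/-- two point function of well separated bulk points -/
theorem E_box_pair {β : ℝ} (hβ : 0 ≤ β) {L r : ℕ} {x y : Fin d → ℤ}
    (hx : ∀ i, (r : ℤ) < x i ∧ x i + r ≤ L) (hy : ∀ i, (r : ℤ) < y i ∧ y i + r ≤ L)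
    (hxy : ∃ i, 2 * (r : ℤ) + 1 < |x i - y i|) :
    E nb (box d L) β {x, y} ≤ mg d r β ^ 2 := by
  have hne : x ≠ y := by
    rintro rfl
    obtain ⟨i, hi⟩ := hxy
    simp at hi; omega
  obtain ⟨i, hi⟩ := hxy
  have hsep : ∀ z ∈ tr x (cube d r), ∀ w ∈ tr y (cube d r), ¬ (w = z ∨ w ∈ nb z) := by
    intro z hz w hw
    rw [mem_tr, mem_cube] at hz hw
    have hz' := hz i
    have hw' := hw i
    simp only [Pi.sub_apply] at hz' hw'
    rintro (h | h)
    · subst h
      rcases abs_cases (x i - y i) with ⟨e, _⟩ | ⟨e, _⟩ <;> rw [e] at hi <;> omega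
    · rw [mem_nb] at h
      obtain ⟨j, h | h⟩ := h
      · have hj := congrFun h i
        by_cases hij : i = j
        · subst hij
          simp [uv] at hj
          rcases abs_cases (x i - y i) with ⟨e, _⟩ | ⟨e, _⟩ <;> rw [e] at hi <;> omega
        · simp [uv, hij] at hj
          rcases abs_cases (x i - y i) with ⟨e, _⟩ | ⟨e, _⟩ <;> rw [e] at hi <;> omega
      · have hj := congrFun h i
        by_cases hij : i = j
        · subst hij
          simp [uv] at hj
          rcases abs_cases (x i - y i) with ⟨e, _⟩ | ⟨e, _⟩ <;> rw [e] at hi <;> omega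
        · simp [uv, hij] at hj
          rcases abs_cases (x i - y i) with ⟨e, _⟩ | ⟨e, _⟩ <;> rw [e] at hi <;> omega
  have hd : Disjoint (tr x (cube d r)) (tr y (cube d r)) := by
    rw [Finset.disjoint_left]
    intro z hz hw
    exact hsep z hz z hw (Or.inl rfl)
  have h1 : ∀ z ∈ tr x (cube d r), Disjoint (nb z) (tr y (cube d r)) := by
    intro z hz
    rw [Finset.disjoint_left]
    intro w hw hw'
    exact hsep z hz w hw' (Or.inr hw)
  have h2 : ∀ z ∈ tr y (cube d r), Disjoint (nb z) (tr x (cube d r)) := by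
    intro z hz
    rw [Finset.disjoint_left]
    intro w hw hw'
    exact hsep w hw' z hz (Or.inr ((nb_symm _ _).mp hw))
  have hsub : tr x (cube d r) ∪ tr y (cube d r) ⊆ box d L := by
    intro z hz
    rw [Finset.mem_union, mem_tr, mem_tr, mem_cube, mem_cube] at hz
    rw [mem_box]
    intro i
    rcases hz with hz | hz
    · have := hz i; have := hx i; simp only [Pi.sub_apply] at *; constructor <;> omega
    · have := hz i; have := hy i; simp only [Pi.sub_apply] at *; constructor <;> omega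
  have h3 := E_anti_vol nb nb_symm nb_irrefl hsub hβ {x, y}
  refine h3.trans (le_of_eq ?_)
  have hpair : ({x, y} : Finset (Fin d → ℤ)) = {x} ∪ {y} := by
    ext z; simp
  have hxm : ({x} : Finset (Fin d → ℤ)) ⊆ tr x (cube d r) := by
    rw [Finset.singleton_subset_iff, mem_tr, sub_self]; exact zero_mem_cube r
  have hym : ({y} : Finset (Fin d → ℤ)) ⊆ tr y (cube d r) := by
    rw [Finset.singleton_subset_iff, mem_tr, sub_self]; exact zero_mem_cube r
  rw [hpair, E_union nb β hd h1 h2 hxm hym]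
  have e1 : E nb (tr x (cube d r)) β {x} = mg d r β := by
    have := E_tr x (cube d r) β {0}
    rw [tr_singleton, zero_add] at this
    exact this
  have e2 : E nb (tr y (cube d r)) β {y} = mg d r β := by
    have := E_tr y (cube d r) β {0}
    rw [tr_singleton, zero_add] at this
    exact this
  rw [e1, e2]; ring

end Pool.Agent.Helper580.IsingLat
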