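import Pool.Agent.Helper580.IsingCut

set_option autoImplicit false

namespace Pool.Agent.Helper580.IsingPeierls

open Finset Pool.Agent.Helper580.IsingGKS Pool.Agent.Helper580.IsingGraph
  Pool.Agent.Helper580.IsingLat Pool.Agent.Helper580.IsingCut

variable {d : ℕ}

/-- the lattice is connected -/
theorem lattice_conn : ∀ (m : ℕ) (y : Fin d → ℤ), ∑ i, (y i).natAbs = m →
    Relation.ReflTransGen (fun u v : Fin d → ℤ => v ∈ nb u) y 0 := by
  intro m
  induction m using Nat.strong_induction_on with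
  | _ m ih =>
    intro y hy
    by_cases h0 : y = 0
    · subst h0; exact Relation.ReflTransGen.refl
    · have hex : ∃ i, y i ≠ 0 := by
        by_contra hcon
        push Not at hcon
        exact h0 (funext hcon)
      obtain ⟨i, hi⟩ := hex
      rcases lt_or_gt_of_ne hi with hneg | hpos
      · have hlt : ∑ j, ((y + uv i) j).natAbs < m := by
          rw [← hy]
          apply Finset.sum_lt_sum
          · intro j _
            by_cases hj : j = i
            · subst hj; simp [uv]; omega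
            · simp [uv, hj]
          · exact ⟨i, Finset.mem_univ i, by simp [uv]; omega⟩
        exact Relation.ReflTransGen.head (mem_nb.mpr ⟨i, Or.inl rfl⟩) (ih _ hlt _ rfl)
      · have hlt : ∑ j, ((y - uv i) j).natAbs < m := by
          rw [← hy]
          apply Finset.sum_lt_sum
          · intro j _
            by_cases hj : j = i
            · subst hj; simp [uv]; omega
            · simp [uv, hj]
          · exact ⟨i, Finset.mem_univ i, by simp [uv]; omega⟩
        exact Relation.ReflTransGen.head (mem_nb.mpr ⟨i, Or.inr rfl⟩) (ih _ hlt _ rfl)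

/-- the filled component of the origin -/
theorem exists_simple (n : ℕ) (S : Finset (Fin d → ℤ)) (hS : S ⊆ cube d n)
    (h0 : (0 : Fin d → ℤ) ∈ S) :
    ∃ F, Simple n F ∧ ∀ x ∈ F, ∀ y ∈ nb x, y ∉ F → x ∈ S ∧ y ∉ S := by
  classical
  let C : Finset (Fin d → ℤ) := S.filter
    (fun y => Relation.ReflTransGen (fun u v => v ∈ nb u ∧ v ∈ S) 0 y)
  let D : (Fin d → ℤ) → Prop := fun y => y ∉ C ∧ ∃ z, z ∉ cube d n ∧
    Relation.ReflTransGen (fun u v => v ∈ nb u ∧ v ∉ C) y z
  let F : Finset (Fin d → ℤ) := (cube d n).filter (fun y => ¬ D y)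
  have hCS : C ⊆ S := Finset.filter_subset _ _
  have hnF : ∀ y, y ∉ F → D y := by
    intro y hy
    by_cases hc : y ∈ cube d n
    · by_contra hD
      exact hy (Finset.mem_filter.mpr ⟨hc, hD⟩)
    · exact ⟨fun h => hc (hS (hCS h)), y, hc, Relation.ReflTransGen.refl⟩
  have hFD : ∀ y, y ∈ F → ¬ D y := fun y hy => (Finset.mem_filter.mp hy).2
  have hCF : C ⊆ F := by
    intro y hy
    exact Finset.mem_filter.mpr ⟨hS (hCS hy), fun h => h.1 hy⟩
  have hedge : ∀ x ∈ F, ∀ y ∈ nb x, y ∉ F → x ∈ C ∧ y ∉ S := by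
    intro x hx y hy hyF
    obtain ⟨hyC, z, hz, hp⟩ := hnF y hyF
    have hxC : x ∈ C := by
      by_contra hxC
      exact hFD x hx ⟨hxC, z, hz, Relation.ReflTransGen.head ⟨hy, hyC⟩ hp⟩
    refine ⟨hxC, fun hyS => hyC ?_⟩
    exact Finset.mem_filter.mpr ⟨hyS, (Finset.mem_filter.mp hxC).2.tail ⟨hy, hyS⟩⟩
  have h0C : (0 : Fin d → ℤ) ∈ C := Finset.mem_filter.mpr ⟨h0, Relation.ReflTransGen.refl⟩
  have hconnC : ∀ y ∈ C, Relation.ReflTransGen (fun u v => v ∈ nb u ∧ v ∈ F) 0 y := by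
    intro y hy
    have hp := (Finset.mem_filter.mp hy).2
    have : ∀ w, Relation.ReflTransGen (fun u v => v ∈ nb u ∧ v ∈ S) 0 w →
        w ∈ C ∧ Relation.ReflTransGen (fun u v => v ∈ nb u ∧ v ∈ F) 0 w := by
      intro w hw
      induction hw with
      | refl => exact ⟨h0C, Relation.ReflTransGen.refl⟩
      | tail hab hbc ih =>
        have hc : _ ∈ C := Finset.mem_filter.mpr ⟨hbc.2, hab.tail hbc⟩
        exact ⟨hc, ih.2.tail ⟨hbc.1, hCF hc⟩⟩
    exact (this y hp).2
  refine ⟨F, ⟨Finset.filter_subset _ _, hCF h0C, ?_, ?_⟩, fun x hx y hy hyF =>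
    ⟨hCS (hedge x hx y hy hyF).1, (hedge x hx y hy hyF).2⟩⟩
  · intro y hy
    have hp := lattice_conn _ y rfl
    revert hy
    refine Relation.ReflTransGen.head_induction_on
      (motive := fun y _ => y ∈ F → Relation.ReflTransGen (fun u v => v ∈ nb u ∧ v ∈ F) 0 y)
      hp ?_ ?_
    · intro _; exact Relation.ReflTransGen.refl
    · intro a b hab _ ih ha
      by_cases hb : b ∈ F
      · exact (ih hb).tail ⟨(nb_symm _ _).mp hab, ha⟩
      · exact hconnC a (hedge a ha b hab hb).1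
  · intro y hy
    obtain ⟨_, z, hz, hp⟩ := hnF y hy
    refine ⟨z, hz, ?_⟩
    refine Relation.ReflTransGen.head_induction_on
      (motive := fun y _ => Relation.ReflTransGen (fun u v => v ∈ nb u ∧ v ∉ F) y z)
      hp ?_ ?_
    · exact Relation.ReflTransGen.refl
    · intro a b hab hbz ih
      refine Relation.ReflTransGen.head ⟨hab.1, fun hbF => ?_⟩ ih
      exact hFD b hbF ⟨hab.2, z, hz, hbz⟩

/-- flipping the filled component removes exactly its boundary -/
theorem bd_flip (n : ℕ) {S F : Finset (Fin d → ℤ)} (hS : S ⊆ cube d n) (hF : F ⊆ cube d n)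
    (h : ∀ x ∈ F, ∀ y ∈ nb x, y ∉ F → x ∈ S ∧ y ∉ S) :
    bd nb S = bd nb F + bd nb (symmDiff S F) := by
  have hSF : symmDiff S F ⊆ cube d n := by
    intro x hx
    rw [Finset.mem_symmDiff] at hx
    rcases hx with hx | hx
    · exact hS hx.1
    · exact hF hx.1
  set U := cl nb (cube d n) with hU
  have g : ∀ T ⊆ cube d n, ∑ x ∈ U, ∑ y ∈ nb x, (1 - sgn T x * sgn T y) = 4 * (bd nb T : ℝ) :=
    fun T hT => sum_bd nb nb_symm U T (hT.trans (subset_cl _ _))
      (fun x hx => nbr_subset_cl nb (hT hx))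
  have h1 := g S hS
  have h2 := g F hF
  have h3 := g _ hSF
  have : ∑ x ∈ U, ∑ y ∈ nb x, (1 - sgn S x * sgn S y) =
      ∑ x ∈ U, ∑ y ∈ nb x, (1 - sgn F x * sgn F y) +
      ∑ x ∈ U, ∑ y ∈ nb x, (1 - sgn (symmDiff S F) x * sgn (symmDiff S F) y) := by
    rw [← Finset.sum_add_distrib]
    refine Finset.sum_congr rfl fun x _ => ?_
    rw [← Finset.sum_add_distrib]
    refine Finset.sum_congr rfl fun y hy => ?_
    rw [sgn_symmDiff, sgn_symmDiff]
    by_cases hx : x ∈ F <;> by_cases hyF : y ∈ F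
    · have e1 : sgn F x = -1 := by simp [sgn, hx]
      have e2 : sgn F y = -1 := by simp [sgn, hyF]
      rw [e1, e2]; ring
    · have := h x hx y hy hyF
      simp [sgn, hx, hyF, this.1, this.2]
    · have := h y hyF x ((nb_symm _ _).mp hy) hx
      simp [sgn, hx, hyF, this.1, this.2]
    · have e1 : sgn F x = 1 := by simp [sgn, hx]
      have e2 : sgn F y = 1 := by simp [sgn, hyF]
      rw [e1, e2]; ring
  rw [h1, h2, h3] at this
  have h4 : (bd nb S : ℝ) = bd nb F + bd nb (symmDiff S F) := by linarith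
  exact_mod_cast h4

/-- the Peierls sum -/
theorem peierls_sum {i0 i1 : Fin d} (h01 : i1 ≠ i0) (n : ℕ) (𝓕 : Finset (Finset (Fin d → ℤ)))
    (h𝓕 : ∀ F ∈ 𝓕, Simple n F) :
    ∑ F ∈ 𝓕, ((1 / 5 : ℝ) * (1 / 2) ^ (8 * d + 1)) ^ (bd nb F) ≤ 1 / 4 := by
  classical
  set q : ℝ := (1 / 5 : ℝ) * (1 / 2) ^ (8 * d + 1) with hq
  have hq0 : 0 ≤ q := by positivity
  have hq1 : q ≤ 1 := by
    rw [hq]
    have : ((1 : ℝ) / 2) ^ (8 * d + 1) ≤ 1 := pow_le_one₀ (by norm_num) (by norm_num)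
    nlinarith
  have hterm : ∀ F ∈ 𝓕, q ^ (bd nb F) ≤ ∑ k ∈ Finset.range (n + 1),
      (if ((Pi.single i0 (k : ℤ) : Fin d → ℤ), i0) ∈ ed F then
        (1 / 5 : ℝ) ^ (k + 1) * (1 / 2) ^ ((8 * d + 1) * (ed F).card) else 0) := by
    intro F hF
    obtain ⟨k, hk, hke, hkc⟩ := axis_edge h01 (h𝓕 F hF)
    have h1 : q ^ (bd nb F) ≤ q ^ (ed F).card := pow_le_pow_of_le_one hq0 hq1 (card_ed_le F)
    have h2 : q ^ (ed F).card = (1 / 5 : ℝ) ^ (ed F).card * (1 / 2) ^ ((8 * d + 1) * (ed F).card) := by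
      rw [hq, mul_pow, ← pow_mul]
    have h3 : (1 / 5 : ℝ) ^ (ed F).card ≤ (1 / 5) ^ (k + 1) :=
      pow_le_pow_of_le_one (by norm_num) (by norm_num) hkc
    have h4 : q ^ (bd nb F) ≤ (1 / 5 : ℝ) ^ (k + 1) * (1 / 2) ^ ((8 * d + 1) * (ed F).card) := by
      rw [h2] at h1
      refine h1.trans ?_
      gcongr
    refine h4.trans ?_
    have h5 := Finset.single_le_sum (s := Finset.range (n + 1)) (a := k)
      (f := fun k : ℕ => (if ((Pi.single i0 (k : ℤ) : Fin d → ℤ), i0) ∈ ed F then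
        (1 / 5 : ℝ) ^ (k + 1) * (1 / 2) ^ ((8 * d + 1) * (ed F).card) else 0))
      (fun j _ => by split_ifs <;> positivity) (Finset.mem_range.mpr hk)
    refine le_trans (le_of_eq ?_) h5
    rw [if_pos hke]
  refine (Finset.sum_le_sum hterm).trans ?_
  rw [Finset.sum_comm]
  have hk : ∀ k ∈ Finset.range (n + 1), ∑ F ∈ 𝓕,
      (if ((Pi.single i0 (k : ℤ) : Fin d → ℤ), i0) ∈ ed F then
        (1 / 5 : ℝ) ^ (k + 1) * (1 / 2) ^ ((8 * d + 1) * (ed F).card) else 0) ≤
      (1 / 5 : ℝ) ^ (k + 1) := by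
    intro k _
    rw [← Finset.sum_filter, ← Finset.mul_sum]
    have hc := count (pn (d := d)) (8 * d) card_pn ((Pi.single i0 (k : ℤ) : Fin d → ℤ), i0)
      ((𝓕.filter (fun F => ((Pi.single i0 (k : ℤ) : Fin d → ℤ), i0) ∈ ed F)).image ed)
      (by
        intro T hT
        rw [Finset.mem_image] at hT
        obtain ⟨F, hF, rfl⟩ := hT
        exact (Finset.mem_filter.mp hF).2)
      (by
        intro T hT
        rw [Finset.mem_image] at hT
        obtain ⟨F, hF, rfl⟩ := hT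
        exact cc_ed h01 (h𝓕 F (Finset.mem_filter.mp hF).1))
    rw [Finset.sum_image] at hc
    · calc (1 / 5 : ℝ) ^ (k + 1) * _ ≤ (1 / 5 : ℝ) ^ (k + 1) * 1 := by gcongr
        _ = _ := mul_one _
    · intro F hF F' hF' heq
      exact ed_inj i0 (h𝓕 F (Finset.mem_filter.mp hF).1).sub
        (h𝓕 F' (Finset.mem_filter.mp hF').1).sub heq
  refine (Finset.sum_le_sum hk).trans ?_
  have hgeo : ∀ m : ℕ, ∑ k ∈ Finset.range m, (1 / 5 : ℝ) ^ (k + 1) = 1 / 4 - (1 / 4) * (1 / 5) ^ m := by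
    intro m
    induction m with
    | zero => simp
    | succ m ih => rw [Finset.sum_range_succ, ih, pow_succ]; ring
  rw [hgeo]
  have : (0 : ℝ) ≤ (1 / 4) * (1 / 5) ^ (n + 1) := by positivity
  linarith

/-- the Peierls bound -/
theorem peierls {i0 i1 : Fin d} (h01 : i1 ≠ i0) (n : ℕ) {β : ℝ}
    (hβ : Real.exp (-(2 * β)) = (1 / 5 : ℝ) * (1 / 2) ^ (8 * d + 1)) :
    ∑ S ∈ (cube d n).powerset.filter (fun S => (0 : Fin d → ℤ) ∈ S), wt nb β S ≤
      1 / 4 * Zf nb (cube d n) β := by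
  classical
  set 𝒮 := (cube d n).powerset.filter (fun S => (0 : Fin d → ℤ) ∈ S) with h𝒮
  have hex : ∀ S ∈ 𝒮, ∃ F, Simple n F ∧ ∀ x ∈ F, ∀ y ∈ nb x, y ∉ F → x ∈ S ∧ y ∉ S := by
    intro S hS
    rw [h𝒮, Finset.mem_filter, Finset.mem_powerset] at hS
    exact exists_simple n S hS.1 hS.2
  choose! G hG1 hG2 using hex
  set 𝓕 := (cube d n).powerset.filter (fun F => Simple n F) with h𝓕
  have hmemF : ∀ F, Simple n F → F ∈ 𝓕 := fun F hF =>
    Finset.mem_filter.mpr ⟨Finset.mem_powerset.mpr hF.sub, hF⟩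
  have hwt : ∀ S ∈ 𝒮, wt nb β S =
      ((1 / 5 : ℝ) * (1 / 2) ^ (8 * d + 1)) ^ (bd nb (G S)) * wt nb β (symmDiff S (G S)) := by
    intro S hS
    have hS' := hS
    rw [h𝒮, Finset.mem_filter, Finset.mem_powerset] at hS'
    rw [← hβ, ← Real.exp_nat_mul]
    unfold wt
    rw [bd_flip n hS'.1 (hG1 S hS).sub (hG2 S hS), ← Real.exp_add]
    congr 1; push_cast; ring
  rw [Finset.sum_congr rfl hwt]
  have hmap : ∑ S ∈ 𝒮, ((1 / 5 : ℝ) * (1 / 2) ^ (8 * d + 1)) ^ (bd nb (G S)) *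
      wt nb β (symmDiff S (G S)) ≤ ∑ p ∈ 𝓕 ×ˢ (cube d n).powerset,
      ((1 / 5 : ℝ) * (1 / 2) ^ (8 * d + 1)) ^ (bd nb p.1) * wt nb β p.2 := by
    have hinj : Set.InjOn (fun S => (G S, symmDiff S (G S))) (𝒮 : Set (Finset (Fin d → ℤ))) := by
      intro S _ S' _ h
      simp only [Prod.mk.injEq] at h
      obtain ⟨h1, h2⟩ := h
      rw [← h1] at h2
      exact symmDiff_left_injective _ h2
    rw [← Finset.sum_image (f := fun p : Finset (Fin d → ℤ) × Finset (Fin d → ℤ) =>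
      ((1 / 5 : ℝ) * (1 / 2) ^ (8 * d + 1)) ^ (bd nb p.1) * wt nb β p.2)
      (g := fun S => (G S, symmDiff S (G S))) hinj]
    apply Finset.sum_le_sum_of_subset_of_nonneg
    · intro p hp
      rw [Finset.mem_image] at hp
      obtain ⟨S, hS, rfl⟩ := hp
      have hS' := hS
      rw [h𝒮, Finset.mem_filter, Finset.mem_powerset] at hS'
      refine Finset.mem_product.mpr ⟨hmemF _ (hG1 S hS), Finset.mem_powerset.mpr ?_⟩
      intro x hx
      simp only [Finset.mem_symmDiff] at hx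
      rcases hx with hx | hx
      · exact hS'.1 hx.1
      · exact (hG1 S hS).sub hx.1
    · intro p _ _
      have := wt_pos nb β p.2
      positivity
  refine hmap.trans ?_
  rw [Finset.sum_product]
  simp_rw [← Finset.mul_sum]
  rw [← Finset.sum_mul]
  have := peierls_sum h01 n 𝓕 (fun F hF => (Finset.mem_filter.mp hF).2)
  exact mul_le_mul_of_nonneg_right this (Zf_pos nb _ β).le

/-- spontaneous magnetisation at low temperature in every dimension at least two -/
theorem exists_ms_pos (hd : 2 ≤ d) : ∃ β : ℝ, 0 ≤ β ∧ 0 < ms d β := by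
  let i0 : Fin d := ⟨0, by omega⟩
  let i1 : Fin d := ⟨1, by omega⟩
  have h01 : i1 ≠ i0 := by
    intro h
    have := congrArg Fin.val h
    simp [i0, i1] at this
  set q : ℝ := (1 / 5 : ℝ) * (1 / 2) ^ (8 * d + 1) with hq
  have hq0 : 0 < q := by positivity
  have hq1 : q ≤ 1 := by
    rw [hq]
    have : ((1 : ℝ) / 2) ^ (8 * d + 1) ≤ 1 := pow_le_one₀ (by norm_num) (by norm_num)
    nlinarith
  refine ⟨-(Real.log q) / 2, ?_, ?_⟩
  · have := Real.log_nonpos hq0.le hq1
    linarith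
  · have hexp : Real.exp (-(2 * (-(Real.log q) / 2))) = q := by
      rw [show -(2 * (-(Real.log q) / 2)) = Real.log q by ring, Real.exp_log hq0]
    have hmg : ∀ N : ℕ, 1 / 2 ≤ mg d N (-(Real.log q) / 2) := by
      intro N
      have hp := peierls h01 N (β := -(Real.log q) / 2) (by rw [hexp])
      unfold mg E
      rw [le_div_iff₀ (Zf_pos _ _ _)]
      have hsum : ∑ S ∈ (cube d N).powerset, chi {0} S * wt nb (-(Real.log q) / 2) S =
          Zf nb (cube d N) (-(Real.log q) / 2) - 2 * ∑ S ∈ (cube d N).powerset.filter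
            (fun S => (0 : Fin d → ℤ) ∈ S), wt nb (-(Real.log q) / 2) S := by
        unfold Zf
        rw [Finset.sum_filter, Finset.mul_sum, ← Finset.sum_sub_distrib]
        refine Finset.sum_congr rfl fun S _ => ?_
        rw [chi_singleton]
        unfold sgn
        split_ifs <;> ring
      rw [hsum]
      linarith
    have : (1 : ℝ) / 2 ≤ ms d (-(Real.log q) / 2) := le_ciInf hmg
    linarith

end Pool.Agent.Helper580.IsingPeierls
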