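import Pool.Agent.Helper580.SimonSum

set_option autoImplicit false
set_option linter.unusedSectionVars false

open Classical

namespace Pool.Agent.Helper580.Simon

variable {V : Type} [Fintype V]

/-- `L` does not touch the class of `u` in `B`. -/
def Away (L B : Finset (Sym2 V)) (u : V) : Prop := ∀ a b, s(a, b) ∈ L → ¬ Rch B u a

lemma Away.mono {L L' B : Finset (Sym2 V)} {u : V} (h : Away L B u) (hL : L' ⊆ L) :
    Away L' B u := fun a b hab => h a b (hL hab)

lemma Away.union {L L' B : Finset (Sym2 V)} {u : V} (h : Away L B u) (h' : Away L' B u) :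
    Away (L ∪ L') B u := by
  intro a b hab
  rcases Finset.mem_union.1 hab with h1 | h1
  · exact h a b h1
  · exact h' a b h1

lemma iso1 {L B : Finset (Sym2 V)} {u v : V} (hL : Away L B u) :
    Rch (L ∪ B) u v ↔ Rch B u v := by
  constructor
  · intro h
    refine h.induct (fun v => Rch B u v) (Rch.refl _ _) ?_
    intro c d hcd _ hc
    rcases Finset.mem_union.1 hcd with h1 | h1
    · exact absurd hc (hL c d h1)
    · exact hc.trans (Rch.edge h1)
  · intro h; exact h.mono Finset.subset_union_right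

lemma iso2 {L B B0 : Finset (Sym2 V)} {u a b : V} (hL : Away L B u) (hB : B0 ⊆ B)
    (hex : ∀ c d, s(c, d) ∈ B → s(c, d) ∉ B0 → Rch B u c) (ha : ¬ Rch B u a) :
    Rch (L ∪ B) a b ↔ Rch (L ∪ B0) a b := by
  constructor
  · intro h
    refine h.induct (fun v => Rch (L ∪ B0) a v) (Rch.refl _ _) ?_
    intro c d hcd hac hc
    by_cases h1 : s(c, d) ∈ L ∪ B0
    · exact hc.trans (Rch.edge h1)
    · have h2 : s(c, d) ∉ L := fun h => h1 (Finset.mem_union_left _ h)
      have h3 : s(c, d) ∉ B0 := fun h => h1 (Finset.mem_union_right _ h)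
      have h4 : s(c, d) ∈ B := by
        rcases Finset.mem_union.1 hcd with h5 | h5
        · exact absurd h5 h2
        · exact h5
      have h5 : Rch B u c := hex c d h4 h3
      exfalso
      apply ha
      rw [← iso1 hL]
      exact (h5.mono Finset.subset_union_right).trans hac.symm
  · intro h; exact h.mono (Finset.union_subset_union_right hB)

lemma iso3 {L B B0 : Finset (Sym2 V)} {u : V} (hL : Away L B u) (hB : B0 ⊆ B)
    (hex : ∀ c d, s(c, d) ∈ B → s(c, d) ∉ B0 → Rch B u c) :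
    kk B0 + kk (L ∪ B) = kk B + kk (L ∪ B0) := by
  apply kk_inc_eq
  intro L' hL' a b hab
  exact iso2 (hL.mono hL') hB hex (hL a b hab)

lemma termEq (p q : ℝ) {J U B B0 : Finset (Sym2 V)} {u z : V} (y : V)
    (hJ : Away J B u) (hU : Away U B u) (hB : B0 ⊆ B)
    (hex : ∀ c d, s(c, d) ∈ B → s(c, d) ∉ B0 → Rch B u c) (hz : ¬ Rch B u z) :
    q ^ kk B0 * SS p (J ∪ B) U (fun A => q ^ kk A * (ind (Rch A z y) * (1 - ind (Rch A z u)))) =
      q ^ kk B * NN p q (J ∪ B0) U z y := by
  unfold NN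
  rw [← SS_mul, ← SS_mul]
  apply SS_congr
  intro ω hω
  rw [← Finset.union_assoc, ← Finset.union_assoc]
  have hL : Away (ω ∪ J) B u := (hU.mono hω).union hJ
  have h1 : ¬ Rch (ω ∪ J ∪ B) z u := by
    intro h
    exact hz ((iso1 hL).1 h.symm)
  have h2 := iso2 (b := y) hL hB hex hz
  have h3 := iso3 hL hB hex
  have h4 : q ^ kk B0 * q ^ kk (ω ∪ J ∪ B) = q ^ kk B * q ^ kk (ω ∪ J ∪ B0) := by
    rw [← pow_add, ← pow_add, h3]
  rw [ind_false h1, ind_congr h2]
  calc q ^ kk B0 * (q ^ kk (ω ∪ J ∪ B) * (ind (Rch (ω ∪ J ∪ B0) z y) * (1 - 0)))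
      = (q ^ kk B0 * q ^ kk (ω ∪ J ∪ B)) * ind (Rch (ω ∪ J ∪ B0) z y) := by ring
    _ = _ := by rw [h4]; ring


lemma one_sub_ind_nonneg (P : Prop) : 0 ≤ 1 - ind P := by
  unfold ind; split_ifs <;> norm_num

/-- The key inequality for all edge sets with at most `n` edges. -/
def KeyC (p q : ℝ) (K : Finset (Sym2 V)) (Y : Finset V) (y0 : V) (n : ℕ) : Prop :=
  ∀ (B U : Finset (Sym2 V)) (z : V), U.card ≤ n →
    NN p q (K ∪ B) U z y0 * ZZ p q B U ≤ ZZ p q (K ∪ B) U * ∑ y ∈ Y, NN p q B U z y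

/-- Weight of the configurations connecting `z` to `y` but not to `u`. -/
noncomputable def MM (p q : ℝ) (B U : Finset (Sym2 V)) (z u y : V) : ℝ :=
  SS p B U (fun A => q ^ kk A * (ind (Rch A z y) * (1 - ind (Rch A z u))))

lemma MM_nonneg {p q : ℝ} (hp0 : 0 ≤ p) (hp1 : p ≤ 1) (hq : 1 ≤ q) (B U : Finset (Sym2 V))
    (z u y : V) : 0 ≤ MM p q B U z u y := by
  apply SS_nonneg hp0 hp1
  intro A
  have := ind_nonneg (Rch A z y)
  have := one_sub_ind_nonneg (Rch A z u)
  positivity

lemma mon_terminal {p q : ℝ} {K : Finset (Sym2 V)} {Y : Finset V} {y0 : V} {n : ℕ}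
    (hp0 : 0 ≤ p) (hp1 : p ≤ 1) (hq : 1 ≤ q)
    (hKY : ∀ a b, s(a, b) ∈ K → a ∈ Y) (hK : ∀ y ∈ Y, Rch K y0 y)
    (IH : KeyC p q K Y y0 n) (B0 U0 : Finset (Sym2 V)) (hU0 : U0.card ≤ n) (z u : V)
    (B U : Finset (Sym2 V)) (hB : B0 ⊆ B) (hU : U ⊆ U0)
    (hex : ∀ c d, s(c, d) ∈ B → s(c, d) ∉ B0 → Rch B u c) (hA : Away U B u) :
    MM p q (K ∪ B) U z u y0 * ZZ p q B0 U0 ≤
      ZZ p q (K ∪ B0) U0 * ∑ y ∈ Y, MM p q B U z u y := by
  have hq0 : (0 : ℝ) < q := by linarith
  have hsum0 : 0 ≤ ZZ p q (K ∪ B0) U0 * ∑ y ∈ Y, MM p q B U z u y :=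
    mul_nonneg (ZZ_pos hp0 hp1 hq _ _).le
      (Finset.sum_nonneg (fun y _ => MM_nonneg hp0 hp1 hq _ _ _ _ _))
  by_cases hz : Rch B u z
  · have h0 : MM p q (K ∪ B) U z u y0 = 0 := by
      apply SS_eq_zero
      intro ω _
      have : Rch (ω ∪ (K ∪ B)) z u := hz.symm.mono (by
        intro e he; simp [he])
      rw [ind_true this]; ring
    rw [h0, zero_mul]; exact hsum0
  by_cases hy : ∃ y ∈ Y, Rch B u y
  · obtain ⟨y, hyY, hy⟩ := hy
    have h0 : MM p q (K ∪ B) U z u y0 = 0 := by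
      apply SS_eq_zero
      intro ω _
      have h1 : Rch (ω ∪ (K ∪ B)) y u := hy.symm.mono (by
        intro e he; simp [he])
      have h2 : Rch (ω ∪ (K ∪ B)) y0 y := (hK y hyY).mono (by
        intro e he; simp [he])
      by_cases h3 : Rch (ω ∪ (K ∪ B)) z y0
      · rw [ind_true ((h3.trans h2).trans h1)]; ring
      · rw [ind_false h3]; ring
    rw [h0, zero_mul]; exact hsum0
  · have hKA : Away K B u := fun a b hab h => hy ⟨a, hKY a b hab, h⟩
    have e1 : q ^ kk B0 * MM p q (K ∪ B) U z u y0 = q ^ kk B * NN p q (K ∪ B0) U z y0 :=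
      termEq p q y0 hKA hA hB hex hz
    have e2 : ∀ y ∈ Y, q ^ kk B0 * MM p q B U z u y = q ^ kk B * NN p q B0 U z y := by
      intro y _
      have := termEq p q (J := ∅) y (fun a b hab => by simp at hab) hA hB hex hz
      rw [Finset.empty_union, Finset.empty_union] at this
      exact this
    have e3 : q ^ kk B0 * ∑ y ∈ Y, MM p q B U z u y =
        q ^ kk B * ∑ y ∈ Y, NN p q B0 U z y := by
      rw [Finset.mul_sum, Finset.mul_sum]
      exact Finset.sum_congr rfl e2
    have i1 := IH B0 U z ((Finset.card_le_card hU).trans hU0)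
    have i2 := ZZ_wire_mono hp0 hp1 hq (B := B0) K hU
    have z1 := ZZ_pos hp0 hp1 hq B0 U
    have z2 := ZZ_pos hp0 hp1 hq B0 U0
    have z3 := ZZ_pos hp0 hp1 hq (K ∪ B0) U0
    have z4 := ZZ_pos hp0 hp1 hq (K ∪ B0) U
    have s0 : 0 ≤ ∑ y ∈ Y, NN p q B0 U z y :=
      Finset.sum_nonneg (fun y _ => NN_nonneg hp0 hp1 hq _ _ _ _)
    set X := NN p q (K ∪ B0) U z y0 with hX
    set S := ∑ y ∈ Y, NN p q B0 U z y with hS
    have i3 : X * ZZ p q B0 U0 ≤ ZZ p q (K ∪ B0) U0 * S := by
      have h1 : (X * ZZ p q B0 U0) * ZZ p q B0 U ≤ (ZZ p q (K ∪ B0) U0 * S) * ZZ p q B0 U := by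
        calc (X * ZZ p q B0 U0) * ZZ p q B0 U = (X * ZZ p q B0 U) * ZZ p q B0 U0 := by ring
          _ ≤ (ZZ p q (K ∪ B0) U * S) * ZZ p q B0 U0 :=
              mul_le_mul_of_nonneg_right i1 z2.le
          _ = (ZZ p q (K ∪ B0) U * ZZ p q B0 U0) * S := by ring
          _ ≤ (ZZ p q B0 U * ZZ p q (K ∪ B0) U0) * S :=
              mul_le_mul_of_nonneg_right i2 s0
          _ = _ := by ring
      exact le_of_mul_le_mul_right h1 z1
    have hqB0 : 0 < q ^ kk B0 := by positivity
    have hqB : 0 < q ^ kk B := by positivity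
    have h2 : q ^ kk B0 * (MM p q (K ∪ B) U z u y0 * ZZ p q B0 U0) ≤
        q ^ kk B0 * (ZZ p q (K ∪ B0) U0 * ∑ y ∈ Y, MM p q B U z u y) := by
      calc q ^ kk B0 * (MM p q (K ∪ B) U z u y0 * ZZ p q B0 U0)
          = (q ^ kk B0 * MM p q (K ∪ B) U z u y0) * ZZ p q B0 U0 := by ring
        _ = q ^ kk B * (X * ZZ p q B0 U0) := by rw [e1]; ring
        _ ≤ q ^ kk B * (ZZ p q (K ∪ B0) U0 * S) := mul_le_mul_of_nonneg_left i3 hqB.le
        _ = ZZ p q (K ∪ B0) U0 * (q ^ kk B0 * ∑ y ∈ Y, MM p q B U z u y) := by rw [e3]; ring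
        _ = _ := by ring
    exact le_of_mul_le_mul_left h2 hqB0

/-- Restricted version of the key inequality, `z` not connected to `u`, for exploration states. -/
lemma mon_state {p q : ℝ} {K : Finset (Sym2 V)} {Y : Finset V} {y0 : V} {n : ℕ}
    (hp0 : 0 ≤ p) (hp1 : p ≤ 1) (hq : 1 ≤ q)
    (hKY : ∀ a b, s(a, b) ∈ K → a ∈ Y) (hK : ∀ y ∈ Y, Rch K y0 y)
    (IH : KeyC p q K Y y0 n) (B0 U0 : Finset (Sym2 V)) (hU0 : U0.card ≤ n) (z u : V) :
    ∀ (m : ℕ) (B U : Finset (Sym2 V)), U.card ≤ m → B0 ⊆ B → U ⊆ U0 →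
      (∀ c d, s(c, d) ∈ B → s(c, d) ∉ B0 → Rch B u c) →
      MM p q (K ∪ B) U z u y0 * ZZ p q B0 U0 ≤
        ZZ p q (K ∪ B0) U0 * ∑ y ∈ Y, MM p q B U z u y := by
  intro m
  induction m with
  | zero =>
    intro B U hm hB hU hex
    have hUe : U = ∅ := Finset.card_eq_zero.1 (Nat.le_zero.1 hm)
    exact mon_terminal hp0 hp1 hq hKY hK IH B0 U0 hU0 z u B U hB hU hex
      (fun a b hab => by simp [hUe] at hab)
  | succ m ih =>
    intro B U hm hB hU hex
    by_cases hA : Away U B u
    · exact mon_terminal hp0 hp1 hq hKY hK IH B0 U0 hU0 z u B U hB hU hex hA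
    · unfold Away at hA
      push Not at hA
      obtain ⟨a, b, hab, hua⟩ := hA
      set f := s(a, b) with hf
      have hU' : U = insert f (U.erase f) := (Finset.insert_erase hab).symm
      have hfn : f ∉ U.erase f := Finset.notMem_erase _ _
      have hcard : (U.erase f).card ≤ m := by
        rw [Finset.card_erase_of_mem hab]; omega
      have hsub : U.erase f ⊆ U0 := (Finset.erase_subset _ _).trans hU
      have j1 := ih B (U.erase f) hcard hB hsub hex
      have j2 := ih (insert f B) (U.erase f) hcard (hB.trans (Finset.subset_insert _ _)) hsub (by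
        intro c d hcd hcd0
        have hm : ∀ v w, Rch B v w → Rch (insert f B) v w := fun v w h =>
          h.mono (Finset.subset_insert _ _)
        rcases Finset.mem_insert.1 hcd with h1 | h1
        · rcases Sym2.eq_iff.1 h1 with ⟨rfl, rfl⟩ | ⟨rfl, rfl⟩
          · exact hm _ _ hua
          · exact (hm _ _ hua).trans (Rch.edge (Finset.mem_insert_self _ _))
        · exact hm _ _ (hex c d h1 hcd0))
      have e1 : MM p q (K ∪ B) U z u y0 = (1 - p) * MM p q (K ∪ B) (U.erase f) z u y0 +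
          p * MM p q (K ∪ insert f B) (U.erase f) z u y0 := by
        conv_lhs => rw [hU']
        unfold MM
        rw [SS_insert p _ _ f hfn, Finset.union_insert]
      have e2 : ∑ y ∈ Y, MM p q B U z u y = (1 - p) * ∑ y ∈ Y, MM p q B (U.erase f) z u y +
          p * ∑ y ∈ Y, MM p q (insert f B) (U.erase f) z u y := by
        rw [Finset.mul_sum, Finset.mul_sum, ← Finset.sum_add_distrib]
        apply Finset.sum_congr rfl
        intro y _
        conv_lhs => rw [hU']
        unfold MM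
        rw [SS_insert p _ _ f hfn]
      rw [e1, e2]
      have hp2 : 0 ≤ 1 - p := by linarith
      have k1 := mul_le_mul_of_nonneg_left j1 hp2
      have k2 := mul_le_mul_of_nonneg_left j2 hp0
      nlinarith [k1, k2]

/-- The exploration inequality used in the induction step. -/
lemma mon {p q : ℝ} {K : Finset (Sym2 V)} {Y : Finset V} {y0 : V} {n : ℕ}
    (hp0 : 0 ≤ p) (hp1 : p ≤ 1) (hq : 1 ≤ q)
    (hKY : ∀ a b, s(a, b) ∈ K → a ∈ Y) (hK : ∀ y ∈ Y, Rch K y0 y)
    (IH : KeyC p q K Y y0 n) (B U : Finset (Sym2 V)) (hU : U.card ≤ n) (z u : V) :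
    MM p q (K ∪ B) U z u y0 * ZZ p q B U ≤
        ZZ p q (K ∪ B) U * ∑ y ∈ Y, MM p q B U z u y :=
  mon_state hp0 hp1 hq hKY hK IH B U hU z u U.card B U le_rfl (Finset.Subset.refl _)
    (Finset.Subset.refl _) (fun _ _ h h' => absurd h h')

/-- The case in which no unexplored edge touches the class of `z`. -/
lemma key_away {p q : ℝ} {K : Finset (Sym2 V)} {Y : Finset V} {y0 : V}
    (hp0 : 0 ≤ p) (hp1 : p ≤ 1) (hq : 1 ≤ q)
    (hKY : ∀ a b, s(a, b) ∈ K → a ∈ Y) (hy0 : y0 ∈ Y)
    (B U : Finset (Sym2 V)) (z : V) (hA : Away U B z) :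
    NN p q (K ∪ B) U z y0 * ZZ p q B U ≤ ZZ p q (K ∪ B) U * ∑ y ∈ Y, NN p q B U z y := by
  have z1 := ZZ_pos hp0 hp1 hq B U
  have z2 := ZZ_pos hp0 hp1 hq (K ∪ B) U
  by_cases hy : ∃ y ∈ Y, Rch B z y
  · obtain ⟨y, hyY, hy⟩ := hy
    have h1 : NN p q B U z y = ZZ p q B U := by
      unfold NN ZZ
      apply SS_congr
      intro ω _
      rw [ind_true (hy.mono Finset.subset_union_right), mul_one]
    have h2 : NN p q (K ∪ B) U z y0 ≤ ZZ p q (K ∪ B) U := by
      unfold NN ZZ SS
      apply Finset.sum_le_sum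
      intro ω _
      have h3 : ind (Rch (ω ∪ (K ∪ B)) z y0) ≤ 1 := by
        have := one_sub_ind_nonneg (Rch (ω ∪ (K ∪ B)) z y0); linarith
      have h4 : 0 ≤ 1 - p := by linarith
      apply mul_le_mul_of_nonneg_left _ (by positivity)
      have h5 : 0 ≤ q ^ kk (ω ∪ (K ∪ B)) := by positivity
      nlinarith
    have h3 : NN p q B U z y ≤ ∑ y ∈ Y, NN p q B U z y :=
      Finset.single_le_sum (f := fun y => NN p q B U z y)
        (fun y _ => NN_nonneg hp0 hp1 hq B U z y) hyY
    calc NN p q (K ∪ B) U z y0 * ZZ p q B U ≤ ZZ p q (K ∪ B) U * ZZ p q B U :=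
          mul_le_mul_of_nonneg_right h2 z1.le
      _ = ZZ p q (K ∪ B) U * NN p q B U z y := by rw [h1]
      _ ≤ _ := mul_le_mul_of_nonneg_left h3 z2.le
  · have hKA : Away K B z := fun a b hab h => hy ⟨a, hKY a b hab, h⟩
    have h0 : NN p q (K ∪ B) U z y0 = 0 := by
      apply SS_eq_zero
      intro ω hω
      rw [← Finset.union_assoc]
      have h1 : ¬ Rch (ω ∪ K ∪ B) z y0 := by
        intro h
        exact hy ⟨y0, hy0, (iso1 ((hA.mono hω).union hKA)).1 h⟩
      rw [ind_false h1, mul_zero]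
    rw [h0, zero_mul]
    exact mul_nonneg z2.le (Finset.sum_nonneg (fun y _ => NN_nonneg hp0 hp1 hq B U z y))

/-- **Key inequality**: wiring `Y` together, the connection probability of `z` to the wired set is
at most the sum of the connection probabilities in the unwired graph. -/
lemma keyC {p q : ℝ} {K : Finset (Sym2 V)} {Y : Finset V} {y0 : V}
    (hp0 : 0 ≤ p) (hp1 : p ≤ 1) (hq : 1 ≤ q) (hq2 : q ≤ 2)
    (hKY : ∀ a b, s(a, b) ∈ K → a ∈ Y) (hy0 : y0 ∈ Y) (hK : ∀ y ∈ Y, Rch K y0 y) (n : ℕ) :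
    KeyC p q K Y y0 n := by
  induction n with
  | zero =>
    intro B U z hU
    have hUe : U = ∅ := Finset.card_eq_zero.1 (Nat.le_zero.1 hU)
    exact key_away hp0 hp1 hq hKY hy0 B U z (fun a b hab => by simp [hUe] at hab)
  | succ n IH =>
    intro B U z hU
    by_cases hA : Away U B z
    · exact key_away hp0 hp1 hq hKY hy0 B U z hA
    · unfold Away at hA
      push Not at hA
      obtain ⟨c, u, hcu, hzc⟩ := hA
      set e := s(c, u) with he
      set U' := U.erase e with hU'
      have hUe : U = insert e U' := (Finset.insert_erase hcu).symm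
      have hen : e ∉ U' := Finset.notMem_erase _ _
      have hcard : U'.card ≤ n := by
        rw [hU', Finset.card_erase_of_mem hcu]; omega
      have hzc' : Rch (K ∪ B) z c := hzc.mono Finset.subset_union_right
      -- the quantities
      have i1 := IH B U' z hcard
      have i2 := IH (insert e B) U' z hcard
      have i3 := IH B U' u hcard
      have i4 := mon hp0 hp1 hq hKY hK IH B U' hcard z u
      have i5 := NN_mono hp0 hp1 hq (B := B) (B' := K ∪ B) Finset.subset_union_right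
        (Finset.Subset.refl U') z u
      have c1 := contr_ZZ p q (U := U') (u := u) hzc
      have c2 := contr_ZZ p q (U := U') (u := u) hzc'
      have c3 := contr_NN p q (U := U') (u := u) hzc' y0
      have c4 : q * ∑ y ∈ Y, NN p q (insert e B) U' z y = ∑ y ∈ Y, NN p q B U' z y +
          ∑ y ∈ Y, NN p q B U' u y - (2 - q) * ∑ y ∈ Y,
            SS p B U' (fun A => q ^ kk A * (ind (Rch A z u) * ind (Rch A z y))) := by
        rw [Finset.mul_sum, Finset.mul_sum, ← Finset.sum_add_distrib, ← Finset.sum_sub_distrib]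
        apply Finset.sum_congr rfl
        intro y _
        exact contr_NN p q (U := U') (u := u) hzc y
      have m1 : MM p q (K ∪ B) U' z u y0 = _ := split_NN p q (K ∪ B) U' z u y0
      have m2 : ∑ y ∈ Y, MM p q B U' z u y = ∑ y ∈ Y, NN p q B U' z y - ∑ y ∈ Y,
            SS p B U' (fun A => q ^ kk A * (ind (Rch A z u) * ind (Rch A z y))) := by
        rw [← Finset.sum_sub_distrib]
        apply Finset.sum_congr rfl
        intro y _
        exact split_NN p q B U' z u y
      have x1 : NN p q (K ∪ B) U z y0 = (1 - p) * NN p q (K ∪ B) U' z y0 +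
          p * NN p q (insert e (K ∪ B)) U' z y0 := by
        rw [hUe]; exact SS_insert p _ _ e hen _
      have x2 : ZZ p q B U = (1 - p) * ZZ p q B U' + p * ZZ p q (insert e B) U' := by
        rw [hUe]; exact SS_insert p _ _ e hen _
      have x3 : ZZ p q (K ∪ B) U = (1 - p) * ZZ p q (K ∪ B) U' +
          p * ZZ p q (insert e (K ∪ B)) U' := by
        rw [hUe]; exact SS_insert p _ _ e hen _
      have x4 : ∑ y ∈ Y, NN p q B U z y = (1 - p) * ∑ y ∈ Y, NN p q B U' z y +
          p * ∑ y ∈ Y, NN p q (insert e B) U' z y := by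
        rw [Finset.mul_sum, Finset.mul_sum, ← Finset.sum_add_distrib]
        apply Finset.sum_congr rfl
        intro y _
        rw [hUe]; exact SS_insert p _ _ e hen _
      rw [Finset.union_insert] at i2
      rw [m1, m2] at i4
      rw [x1, x2, x3, x4]
      have z0 := ZZ_pos hp0 hp1 hq B U'
      have zh := ZZ_pos hp0 hp1 hq (K ∪ B) U'
      have n1 := NN_nonneg hp0 hp1 hq B U' z u
      have n2 : 0 ≤ ∑ y ∈ Y, NN p q B U' z y :=
        Finset.sum_nonneg (fun y _ => NN_nonneg hp0 hp1 hq B U' z y)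
      have n3 := NN_nonneg hp0 hp1 hq (K ∪ B) U' z y0
      rw [← he] at c1 c2 c3
      generalize ZZ p q B U' = Z0 at *
      generalize ZZ p q (K ∪ B) U' = Zh at *
      generalize ZZ p q (insert e B) U' = Z1 at *
      generalize ZZ p q (insert e (K ∪ B)) U' = Zh1 at *
      generalize NN p q (K ∪ B) U' z y0 = a at *
      generalize NN p q (K ∪ B) U' u y0 = b at *
      generalize NN p q (insert e (K ∪ B)) U' z y0 = a1 at *
      generalize NN p q B U' z u = r at *
      generalize NN p q (K ∪ B) U' z u = rh at *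
      generalize SS p (K ∪ B) U' (fun A => q ^ kk A * (ind (Rch A z u) * ind (Rch A z y0))) = cc at *
      generalize ∑ y ∈ Y, NN p q B U' z y = S at *
      generalize ∑ y ∈ Y, NN p q B U' u y = T at *
      generalize ∑ y ∈ Y, NN p q (insert e B) U' z y = S1 at *
      generalize ∑ y ∈ Y,
            SS p B U' (fun A => q ^ kk A * (ind (Rch A z u) * ind (Rch A z y))) = Cs at *
      -- the FKG type term
      have k1 : 0 ≤ rh * S - a * r := by
        have h1 : (a * r) * Z0 ≤ (rh * S) * Z0 := by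
          calc (a * r) * Z0 = r * (a * Z0) := by ring
            _ ≤ r * (Zh * S) := mul_le_mul_of_nonneg_left i1 n1
            _ = (r * Zh) * S := by ring
            _ ≤ (Z0 * rh) * S := mul_le_mul_of_nonneg_right i5 n2
            _ = _ := by ring
        have := le_of_mul_le_mul_right h1 z0
        linarith
      have hq0 : (0 : ℝ) < q := by linarith
      have k2 : q * (a * Z1 + a1 * Z0) ≤ q * (Zh * S1 + Zh1 * S) := by
        have e1 : q * (a * Z1 + a1 * Z0) = a * (q * Z1) + (q * a1) * Z0 := by ring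
        have e2 : q * (Zh * S1 + Zh1 * S) = Zh * (q * S1) + (q * Zh1) * S := by ring
        rw [e1, e2, c1, c2, c3, c4]
        have d1 : 0 ≤ (q - 1) * (rh * S - a * r) := mul_nonneg (by linarith) k1
        have d2 : 0 ≤ (2 - q) * (Zh * (S - Cs) - (a - cc) * Z0) :=
          mul_nonneg (by linarith) (by linarith)
        have d3 : 0 ≤ q * (Zh * S - a * Z0) := mul_nonneg hq0.le (by linarith)
        nlinarith [d1, d2, d3, i3]
      have k3 : a * Z1 + a1 * Z0 ≤ Zh * S1 + Zh1 * S := le_of_mul_le_mul_left k2 hq0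
      have hp2 : 0 ≤ 1 - p := by linarith
      have l1 := mul_le_mul_of_nonneg_left i1 (mul_nonneg hp2 hp2)
      have l2 := mul_le_mul_of_nonneg_left i2 (mul_nonneg hp0 hp0)
      have l3 := mul_le_mul_of_nonneg_left k3 (mul_nonneg hp0 hp2)
      nlinarith [l1, l2, l3]

end Pool.Agent.Helper580.Simon
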