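import Pool.Agent.Helper580.SimonKey

set_option autoImplicit false
set_option linter.unusedSectionVars false

open Classical

namespace Pool.Agent.Helper580.Simon

variable {V : Type} [Fintype V]

/-- `v` can be reached from `x` by a walk of `G` that visits `W` at most at its last vertex. -/
def Good (G : SimpleGraph V) (W : Finset V) (x v : V) : Prop :=
  ∃ w : G.Walk x v, ∀ t ∈ w.support, t ∈ W → t = v

lemma Good.start (G : SimpleGraph V) (W : Finset V) (x : V) : Good G W x x :=
  ⟨SimpleGraph.Walk.nil, fun t ht _ => by simpa using ht⟩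

lemma Good.step {G : SimpleGraph V} {W : Finset V} {x a b : V} (h : Good G W x a) (ha : a ∉ W)
    (hab : G.Adj a b) : Good G W x b := by
  obtain ⟨w, hw⟩ := h
  refine ⟨w.concat hab, ?_⟩
  intro t ht htW
  rw [SimpleGraph.Walk.support_concat, List.mem_append, List.mem_singleton] at ht
  rcases ht with h1 | h1
  · exact absurd (hw t h1 htW ▸ htW) ha
  · exact h1

lemma Good.not_target {G : SimpleGraph V} {W : Finset V} {x z : V} (hz : z ∉ W)
    (hsep : ∀ w : G.Walk x z, ∃ y ∈ W, y ∈ w.support) : ¬ Good G W x z := by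
  rintro ⟨w, hw⟩
  obtain ⟨y, hyW, hy⟩ := hsep w
  have := hw y hy hyW
  subst this
  exact hz hyW

/-- The terminal states of the exploration. -/
lemma red_terminal {p q : ℝ} (hp0 : 0 ≤ p) (hp1 : p ≤ 1) (hq : 1 ≤ q) (hq2 : q ≤ 2)
    {W : Finset V} {x z : V} (E B U : Finset (Sym2 V)) (hU : U ⊆ E)
    (hB : ∀ c d, s(c, d) ∈ B → Rch B x c) (hzC : ¬ Rch B x z)
    (hT : ∀ a b, s(a, b) ∈ U → Rch B x a → a ∈ W) :
    NN p q B U x z * ZZ p q ∅ E ≤ ∑ y ∈ W, NN p q B U x y * NN p q ∅ E y z := by
  obtain ⟨C, memC⟩ : ∃ C : Finset V, ∀ v, v ∈ C ↔ Rch B x v :=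
    ⟨Finset.univ.filter (fun v => Rch B x v), fun v => by simp⟩
  have key := keyC hp0 hp1 hq hq2 (K := B) (Y := C) (y0 := x)
    (fun a b hab => (memC a).2 (hB a b hab)) ((memC x).2 (Rch.refl _ _))
    (fun y hy => (memC y).1 hy) U.card ∅ U z le_rfl
  rw [Finset.union_empty] at key
  have z1 := ZZ_pos hp0 hp1 hq ∅ U
  have z2 := ZZ_pos hp0 hp1 hq ∅ E
  have z3 := ZZ_pos hp0 hp1 hq B U
  -- the sites of `C` outside `W` are isolated
  have h0 : ∀ y ∈ C, y ∉ W → NN p q ∅ U z y = 0 := by
    intro y hy hyW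
    apply SS_eq_zero
    intro ω hω
    have hn : ¬ Rch (ω ∪ ∅) z y := by
      intro h
      have h1 : z = y := by
        refine h.symm.induct (fun v => v = y) rfl ?_
        intro c d hcd _ hc
        exfalso
        subst hc
        rw [Finset.union_empty] at hcd
        exact hyW (hT c d (hω hcd) ((memC c).1 hy))
      subst h1
      exact hzC ((memC z).1 hy)
    rw [ind_false hn, mul_zero]
  have hsum : (∑ y ∈ C, NN p q ∅ U z y) * ZZ p q ∅ E ≤
      ZZ p q ∅ U * ∑ y ∈ C.filter (fun y => y ∈ W), NN p q ∅ E y z := by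
    have e1 : ∑ y ∈ C, NN p q ∅ U z y = ∑ y ∈ C.filter (fun y => y ∈ W), NN p q ∅ U z y := by
      symm
      apply Finset.sum_subset (Finset.filter_subset _ _)
      intro y hy hy2
      exact h0 y hy (fun h => hy2 (Finset.mem_filter.2 ⟨hy, h⟩))
    rw [e1, Finset.sum_mul, Finset.mul_sum]
    apply Finset.sum_le_sum
    intro y _
    rw [NN_comm p q ∅ E y z]
    exact NN_mono hp0 hp1 hq (Finset.Subset.refl _) hU z y
  have hfin : NN p q B U x z * ZZ p q ∅ E ≤
      ZZ p q B U * ∑ y ∈ C.filter (fun y => y ∈ W), NN p q ∅ E y z := by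
    have h1 : (NN p q B U x z * ZZ p q ∅ E) * ZZ p q ∅ U ≤
        (ZZ p q B U * ∑ y ∈ C.filter (fun y => y ∈ W), NN p q ∅ E y z) * ZZ p q ∅ U := by
      calc (NN p q B U x z * ZZ p q ∅ E) * ZZ p q ∅ U
          = (NN p q B U z x * ZZ p q ∅ U) * ZZ p q ∅ E := by rw [NN_comm p q B U x z]; ring
        _ ≤ (ZZ p q B U * ∑ y ∈ C, NN p q ∅ U z y) * ZZ p q ∅ E :=
            mul_le_mul_of_nonneg_right key z2.le
        _ = ZZ p q B U * ((∑ y ∈ C, NN p q ∅ U z y) * ZZ p q ∅ E) := by ring
        _ ≤ ZZ p q B U * (ZZ p q ∅ U * ∑ y ∈ C.filter (fun y => y ∈ W), NN p q ∅ E y z) :=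
            mul_le_mul_of_nonneg_left hsum z3.le
        _ = _ := by ring
    exact le_of_mul_le_mul_right h1 z1
  refine hfin.trans ?_
  rw [Finset.mul_sum]
  calc ∑ y ∈ C.filter (fun y => y ∈ W), ZZ p q B U * NN p q ∅ E y z
      = ∑ y ∈ C.filter (fun y => y ∈ W), NN p q B U x y * NN p q ∅ E y z := by
        apply Finset.sum_congr rfl
        intro y hy
        have hy' : Rch B x y := (memC y).1 (Finset.mem_filter.1 hy).1
        have e : NN p q B U x y = ZZ p q B U := by
          unfold NN ZZ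
          apply SS_congr
          intro ω _
          rw [ind_true (hy'.mono Finset.subset_union_right), mul_one]
        rw [e]
    _ ≤ ∑ y ∈ W, NN p q B U x y * NN p q ∅ E y z := by
        apply Finset.sum_le_sum_of_subset_of_nonneg
        · intro y hy
          exact (Finset.mem_filter.1 hy).2
        · intro y _ _
          exact mul_nonneg (NN_nonneg hp0 hp1 hq _ _ _ _) (NN_nonneg hp0 hp1 hq _ _ _ _)

/-- The exploration of the cluster of `x` up to `W`. -/
lemma red_state {p q : ℝ} (hp0 : 0 ≤ p) (hp1 : p ≤ 1) (hq : 1 ≤ q) (hq2 : q ≤ 2)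
    (G : SimpleGraph V) {W : Finset V} {x z : V} (hz : z ∉ W)
    (hsep : ∀ w : G.Walk x z, ∃ y ∈ W, y ∈ w.support) (E : Finset (Sym2 V))
    (hE : ∀ a b, s(a, b) ∈ E → G.Adj a b) :
    ∀ (m : ℕ) (B U : Finset (Sym2 V)), U.card ≤ m → U ⊆ E →
      (∀ c d, s(c, d) ∈ B → Rch B x c) → (∀ v, Rch B x v → Good G W x v) →
      NN p q B U x z * ZZ p q ∅ E ≤ ∑ y ∈ W, NN p q B U x y * NN p q ∅ E y z := by
  intro m
  induction m with
  | zero =>
    intro B U hm hU hB hG
    have hUe : U = ∅ := Finset.card_eq_zero.1 (Nat.le_zero.1 hm)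
    exact red_terminal hp0 hp1 hq hq2 E B U hU hB
      (fun h => Good.not_target hz hsep (hG z h)) (fun a b hab => by simp [hUe] at hab)
  | succ m ih =>
    intro B U hm hU hB hG
    by_cases hT : ∀ a b, s(a, b) ∈ U → Rch B x a → a ∈ W
    · exact red_terminal hp0 hp1 hq hq2 E B U hU hB
        (fun h => Good.not_target hz hsep (hG z h)) hT
    · push Not at hT
      obtain ⟨a, b, hab, hxa, haW⟩ := hT
      set f := s(a, b) with hf
      have hUe : U = insert f (U.erase f) := (Finset.insert_erase hab).symm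
      have hfn : f ∉ U.erase f := Finset.notMem_erase _ _
      have hcard : (U.erase f).card ≤ m := by
        rw [Finset.card_erase_of_mem hab]; omega
      have hsub : U.erase f ⊆ E := (Finset.erase_subset _ _).trans hU
      have hmono : ∀ v w, Rch B v w → Rch (insert f B) v w := fun v w h =>
          h.mono (Finset.subset_insert _ _)
      have j1 := ih B (U.erase f) hcard hsub hB hG
      have j2 := ih (insert f B) (U.erase f) hcard hsub (by
        intro c d hcd
        rcases Finset.mem_insert.1 hcd with h1 | h1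
        · rcases Sym2.eq_iff.1 h1 with ⟨rfl, rfl⟩ | ⟨rfl, rfl⟩
          · exact hmono _ _ hxa
          · exact (hmono _ _ hxa).trans (Rch.edge (Finset.mem_insert_self _ _))
        · exact hmono _ _ (hB c d h1)) (by
        intro v hv
        rw [hf, Rch_insert] at hv
        rcases hv with h1 | ⟨h1, h2⟩ | ⟨h1, h2⟩
        · exact hG v h1
        · by_cases hb : Rch B x b
          · exact hG v (hb.trans h2)
          · have hvb : v = b := by
              refine h2.induct (fun v => v = b) rfl ?_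
              intro c d hcd _ hc
              exfalso
              subst hc
              exact hb (hB c d hcd)
            subst hvb
            exact (hG a hxa).step haW (hE a v (hU hab))
        · exact hG v (hxa.trans h2))
      have e1 : NN p q B U x z = (1 - p) * NN p q B (U.erase f) x z +
          p * NN p q (insert f B) (U.erase f) x z := by
        conv_lhs => rw [hUe]
        exact SS_insert p _ _ f hfn _
      have e2 : ∑ y ∈ W, NN p q B U x y * NN p q ∅ E y z =
          (1 - p) * ∑ y ∈ W, NN p q B (U.erase f) x y * NN p q ∅ E y z +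
          p * ∑ y ∈ W, NN p q (insert f B) (U.erase f) x y * NN p q ∅ E y z := by
        rw [Finset.mul_sum, Finset.mul_sum, ← Finset.sum_add_distrib]
        apply Finset.sum_congr rfl
        intro y _
        have e3 : NN p q B U x y = (1 - p) * NN p q B (U.erase f) x y +
            p * NN p q (insert f B) (U.erase f) x y := by
          conv_lhs => rw [hUe]
          exact SS_insert p _ _ f hfn _
        rw [e3]; ring
      rw [e1, e2]
      have hp2 : 0 ≤ 1 - p := by linarith
      have k1 := mul_le_mul_of_nonneg_left j1 hp2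
      have k2 := mul_le_mul_of_nonneg_left j2 hp0
      nlinarith [k1, k2]

/-- The Simon inequality for the unnormalised random-cluster weights. -/
theorem simon_weights {p q : ℝ} (hp0 : 0 ≤ p) (hp1 : p ≤ 1) (hq : 1 ≤ q) (hq2 : q ≤ 2)
    (G : SimpleGraph V) {W : Finset V} {x z : V} (hz : z ∉ W)
    (hsep : ∀ w : G.Walk x z, ∃ y ∈ W, y ∈ w.support) (E : Finset (Sym2 V))
    (hE : ∀ a b, s(a, b) ∈ E → G.Adj a b) :
    NN p q ∅ E x z * ZZ p q ∅ E ≤ ∑ y ∈ W, NN p q ∅ E x y * NN p q ∅ E y z := by
  refine red_state hp0 hp1 hq hq2 G hz hsep E hE E.card ∅ E le_rfl (Finset.Subset.refl _) ?_ ?_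
  · intro c d h; simp at h
  · intro v hv
    have : v = x := by
      refine hv.induct (fun v => v = x) rfl ?_
      intro c d h _ _; simp at h
    subst this
    exact Good.start G W v

lemma ZZ_plain (p q : ℝ) (U : Finset (Sym2 V)) :
    ZZ p q ∅ U = ∑ ω ∈ U.powerset, p ^ ω.card * (1 - p) ^ (U.card - ω.card) *
      q ^ Nat.card (SimpleGraph.fromEdgeSet (ω : Set (Sym2 V))).ConnectedComponent := by
  unfold ZZ SS kk
  apply Finset.sum_congr rfl
  intro ω _
  rw [Finset.union_empty]

lemma NN_plain (p q : ℝ) (U : Finset (Sym2 V)) (a b : V) :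
    NN p q ∅ U a b = ∑ ω ∈ U.powerset, p ^ ω.card * (1 - p) ^ (U.card - ω.card) *
      (q ^ Nat.card (SimpleGraph.fromEdgeSet (ω : Set (Sym2 V))).ConnectedComponent *
      ind ((SimpleGraph.fromEdgeSet (ω : Set (Sym2 V))).Reachable a b)) := by
  unfold NN SS kk Rch
  apply Finset.sum_congr rfl
  intro ω _
  rw [Finset.union_empty]

end Pool.Agent.Helper580.Simon
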