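import Pool.Agent.Helper580.SimonBase

set_option autoImplicit false
set_option linter.unusedSectionVars false

open Classical

namespace Pool.Agent.Helper580.Simon

variable {V : Type} [Fintype V]

/-- Indicator of a proposition. -/
noncomputable def ind (P : Prop) : ℝ := if P then 1 else 0

lemma ind_nonneg (P : Prop) : 0 ≤ ind P := by unfold ind; split_ifs <;> norm_num

lemma ind_true {P : Prop} (h : P) : ind P = 1 := by simp [ind, h]

lemma ind_false {P : Prop} (h : ¬ P) : ind P = 0 := by simp [ind, h]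

lemma ind_congr {P Q : Prop} (h : P ↔ Q) : ind P = ind Q := by simp [ind, h]

/-- Weighted sum over the configurations `ω ⊆ U` on top of the open edges `B`. -/
noncomputable def SS (p : ℝ) (B U : Finset (Sym2 V)) (Φ : Finset (Sym2 V) → ℝ) : ℝ :=
  ∑ ω ∈ U.powerset, p ^ ω.card * (1 - p) ^ (U.card - ω.card) * Φ (ω ∪ B)

lemma SS_insert (p : ℝ) (B U : Finset (Sym2 V)) (e : Sym2 V) (he : e ∉ U)
    (Φ : Finset (Sym2 V) → ℝ) :
    SS p B (insert e U) Φ = (1 - p) * SS p B U Φ + p * SS p (insert e B) U Φ := by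
  unfold SS
  rw [Finset.sum_powerset_insert he, Finset.mul_sum, Finset.mul_sum]
  congr 1
  · apply Finset.sum_congr rfl
    intro ω hω
    have h1 : ω.card ≤ U.card := Finset.card_le_card (Finset.mem_powerset.1 hω)
    rw [Finset.card_insert_of_notMem he, Nat.succ_sub h1, pow_succ]
    ring
  · apply Finset.sum_congr rfl
    intro ω hω
    have h1 : ω.card ≤ U.card := Finset.card_le_card (Finset.mem_powerset.1 hω)
    have h2 : e ∉ ω := fun h => he ((Finset.mem_powerset.1 hω) h)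
    rw [Finset.card_insert_of_notMem he, Finset.card_insert_of_notMem h2,
      Nat.add_sub_add_right, pow_succ, Finset.insert_union, Finset.union_insert]
    ring

lemma SS_congr (p : ℝ) {B B' U : Finset (Sym2 V)} {Φ Φ' : Finset (Sym2 V) → ℝ}
    (h : ∀ ω ⊆ U, Φ (ω ∪ B) = Φ' (ω ∪ B')) : SS p B U Φ = SS p B' U Φ' := by
  unfold SS
  apply Finset.sum_congr rfl
  intro ω hω
  rw [h ω (Finset.mem_powerset.1 hω)]

lemma SS_add (p : ℝ) (B U : Finset (Sym2 V)) (Φ Φ' : Finset (Sym2 V) → ℝ) :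
    SS p B U (fun A => Φ A + Φ' A) = SS p B U Φ + SS p B U Φ' := by
  unfold SS
  rw [← Finset.sum_add_distrib]
  apply Finset.sum_congr rfl
  intro ω _
  ring

lemma SS_mul (p : ℝ) (B U : Finset (Sym2 V)) (c : ℝ) (Φ : Finset (Sym2 V) → ℝ) :
    SS p B U (fun A => c * Φ A) = c * SS p B U Φ := by
  unfold SS
  rw [Finset.mul_sum]
  apply Finset.sum_congr rfl
  intro ω _
  ring

lemma SS_nonneg {p : ℝ} (hp0 : 0 ≤ p) (hp1 : p ≤ 1) (B U : Finset (Sym2 V))
    {Φ : Finset (Sym2 V) → ℝ} (h : ∀ A, 0 ≤ Φ A) : 0 ≤ SS p B U Φ := by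
  unfold SS
  apply Finset.sum_nonneg
  intro ω _
  have := h (ω ∪ B)
  have h2 : 0 ≤ 1 - p := by linarith
  positivity

lemma SS_eq_zero (p : ℝ) (B U : Finset (Sym2 V))
    {Φ : Finset (Sym2 V) → ℝ} (h : ∀ ω ⊆ U, Φ (ω ∪ B) = 0) : SS p B U Φ = 0 := by
  unfold SS
  apply Finset.sum_eq_zero
  intro ω hω
  rw [h ω (Finset.mem_powerset.1 hω), mul_zero]

lemma SS_pos {p : ℝ} (hp0 : 0 ≤ p) (hp1 : p ≤ 1) (B U : Finset (Sym2 V))
    {Φ : Finset (Sym2 V) → ℝ} (h : ∀ A, 0 < Φ A) : 0 < SS p B U Φ := by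
  induction U using Finset.induction generalizing B with
  | empty => simp [SS, h]
  | insert e U he ih =>
    rw [SS_insert p B U e he]
    have h1 := ih B
    have h2 := ih (insert e B)
    rcases eq_or_lt_of_le hp0 with h3 | h3
    · subst h3; simpa using h1
    · have h4 : 0 ≤ 1 - p := by linarith
      have := mul_nonneg h4 h1.le
      have := mul_pos h3 h2
      linarith

lemma SS_empty (p : ℝ) (B : Finset (Sym2 V)) (Φ : Finset (Sym2 V) → ℝ) :
    SS p B ∅ Φ = Φ B := by simp [SS]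

/-- Four functions theorem for the sums `SS`. -/
lemma SS_four {p : ℝ} (hp0 : 0 ≤ p) (hp1 : p ≤ 1) {U U' : Finset (Sym2 V)} (hU : U ⊆ U')
    (B₁ B₂ B₃ B₄ : Finset (Sym2 V)) (h₁ h₂ h₃ h₄ : Finset (Sym2 V) → ℝ)
    (n₁ : ∀ A, 0 ≤ h₁ A) (n₂ : ∀ A, 0 ≤ h₂ A) (n₃ : ∀ A, 0 ≤ h₃ A) (n₄ : ∀ A, 0 ≤ h₄ A)
    (H : ∀ ω ⊆ U, ∀ ω' ⊆ U', h₁ (ω ∪ B₁) * h₂ (ω' ∪ B₂) ≤
      h₃ ((ω ∩ ω') ∪ B₃) * h₄ ((ω ∪ ω') ∪ B₄)) :
    SS p B₁ U h₁ * SS p B₂ U' h₂ ≤ SS p B₃ U h₃ * SS p B₄ U' h₄ := by
  have hp2 : 0 ≤ 1 - p := by linarith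
  have conv : ∀ (B W : Finset (Sym2 V)) (h : Finset (Sym2 V) → ℝ),
      SS p B W h = ∑ ω, (if ω ⊆ W then
        p ^ ω.card * (1 - p) ^ (W.card - ω.card) * h (ω ∪ B) else 0) := by
    intro B W h
    unfold SS
    rw [← Finset.sum_filter]
    apply Finset.sum_congr
    · ext ω; simp
    · intro _ _; rfl
  rw [conv, conv, conv, conv]
  apply four_functions_theorem_univ
  · intro ω; simp only [Pi.zero_apply]; split_ifs
    · have := n₁ (ω ∪ B₁); positivity
    · exact le_rfl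
  · intro ω; simp only [Pi.zero_apply]; split_ifs
    · have := n₂ (ω ∪ B₂); positivity
    · exact le_rfl
  · intro ω; simp only [Pi.zero_apply]; split_ifs
    · have := n₃ (ω ∪ B₃); positivity
    · exact le_rfl
  · intro ω; simp only [Pi.zero_apply]; split_ifs
    · have := n₄ (ω ∪ B₄); positivity
    · exact le_rfl
  · intro ω ω'
    have hnn : 0 ≤ (if ω ⊓ ω' ⊆ U then
        p ^ (ω ⊓ ω').card * (1 - p) ^ (U.card - (ω ⊓ ω').card) * h₃ (ω ⊓ ω' ∪ B₃) else 0) *
        (if ω ⊔ ω' ⊆ U' then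
        p ^ (ω ⊔ ω').card * (1 - p) ^ (U'.card - (ω ⊔ ω').card) * h₄ ((ω ⊔ ω') ∪ B₄) else 0) := by
      apply mul_nonneg
      · split_ifs
        · have := n₃ (ω ⊓ ω' ∪ B₃); positivity
        · exact le_rfl
      · split_ifs
        · have := n₄ ((ω ⊔ ω') ∪ B₄); positivity
        · exact le_rfl
    by_cases h1 : ω ⊆ U
    · by_cases h2 : ω' ⊆ U'
      · have h3 : ω ⊓ ω' ⊆ U := Finset.inter_subset_left.trans h1
        have h4 : ω ⊔ ω' ⊆ U' := Finset.union_subset (h1.trans hU) h2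
        rw [if_pos h1, if_pos h2, if_pos h3, if_pos h4]
        have hc : (ω ⊓ ω').card + (ω ⊔ ω').card = ω.card + ω'.card :=
          Finset.card_inter_add_card_union ω ω'
        have c1 := Finset.card_le_card h1
        have c2 := Finset.card_le_card h2
        have c3 := Finset.card_le_card h3
        have c4 := Finset.card_le_card h4
        have e1 : p ^ ω.card * p ^ ω'.card = p ^ (ω ⊓ ω').card * p ^ (ω ⊔ ω').card := by
          rw [← pow_add, ← pow_add, hc]
        have e2 : (1 - p) ^ (U.card - ω.card) * (1 - p) ^ (U'.card - ω'.card) =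
            (1 - p) ^ (U.card - (ω ⊓ ω').card) * (1 - p) ^ (U'.card - (ω ⊔ ω').card) := by
          rw [← pow_add, ← pow_add]
          congr 1
          omega
        have hH := H ω h1 ω' h2
        calc p ^ ω.card * (1 - p) ^ (U.card - ω.card) * h₁ (ω ∪ B₁) *
              (p ^ ω'.card * (1 - p) ^ (U'.card - ω'.card) * h₂ (ω' ∪ B₂))
            = (p ^ ω.card * p ^ ω'.card) *
              ((1 - p) ^ (U.card - ω.card) * (1 - p) ^ (U'.card - ω'.card)) *
              (h₁ (ω ∪ B₁) * h₂ (ω' ∪ B₂)) := by ring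
          _ ≤ (p ^ ω.card * p ^ ω'.card) *
              ((1 - p) ^ (U.card - ω.card) * (1 - p) ^ (U'.card - ω'.card)) *
              (h₃ ((ω ∩ ω') ∪ B₃) * h₄ ((ω ∪ ω') ∪ B₄)) := by
                apply mul_le_mul_of_nonneg_left hH
                positivity
          _ = _ := by
                rw [e1, e2]
                change _ = p ^ (ω ⊓ ω').card * (1 - p) ^ (U.card - (ω ⊓ ω').card) *
                  h₃ ((ω ∩ ω') ∪ B₃) * (p ^ (ω ⊔ ω').card *
                  (1 - p) ^ (U'.card - (ω ⊔ ω').card) * h₄ ((ω ∪ ω') ∪ B₄))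
                ring
      · rw [if_neg h2, mul_zero]; exact hnn
    · rw [if_neg h1, zero_mul]; exact hnn

/-- Partition function. -/
noncomputable def ZZ (p q : ℝ) (B U : Finset (Sym2 V)) : ℝ := SS p B U (fun A => q ^ kk A)

/-- Weight of the configurations connecting `z` and `y`. -/
noncomputable def NN (p q : ℝ) (B U : Finset (Sym2 V)) (z y : V) : ℝ :=
  SS p B U (fun A => q ^ kk A * ind (Rch A z y))

lemma ZZ_pos {p q : ℝ} (hp0 : 0 ≤ p) (hp1 : p ≤ 1) (hq : 1 ≤ q) (B U : Finset (Sym2 V)) :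
    0 < ZZ p q B U := SS_pos hp0 hp1 _ _ (fun _ => by positivity)

lemma NN_nonneg {p q : ℝ} (hp0 : 0 ≤ p) (hp1 : p ≤ 1) (hq : 1 ≤ q) (B U : Finset (Sym2 V))
    (z y : V) : 0 ≤ NN p q B U z y :=
  SS_nonneg hp0 hp1 _ _ (fun A => by have := ind_nonneg (Rch A z y); positivity)

lemma NN_comm (p q : ℝ) (B U : Finset (Sym2 V)) (z y : V) : NN p q B U z y = NN p q B U y z := by
  unfold NN
  apply SS_congr
  intro ω _
  rw [ind_congr (Rch.comm (A := ω ∪ B) (a := z) (b := y))]

/-- General log-supermodularity of the cluster weight. -/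
lemma qkk_super {q : ℝ} (hq : 1 ≤ q) {A₁ A₂ A₃ A₄ : Finset (Sym2 V)} (h3 : A₃ ⊆ A₁ ∩ A₂)
    (h4 : A₄ = A₁ ∪ A₂) :
    q ^ kk A₁ * q ^ kk A₂ ≤ q ^ kk A₃ * q ^ kk A₄ := by
  rw [← pow_add, ← pow_add]
  apply pow_le_pow_right₀ hq
  have h := kk_super (A := A₁ ∩ A₂) (A' := A₁) Finset.inter_subset_left A₂
  have e1 : A₂ ∪ (A₁ ∩ A₂) = A₂ := Finset.union_eq_left.2 Finset.inter_subset_right
  have e2 : A₂ ∪ A₁ = A₄ := by rw [h4, Finset.union_comm]
  rw [e1, e2] at h
  have := kk_anti h3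
  omega

/-- Wiring and adding edges increases connection probabilities. -/
lemma NN_mono {p q : ℝ} (hp0 : 0 ≤ p) (hp1 : p ≤ 1) (hq : 1 ≤ q) {B B' U U' : Finset (Sym2 V)}
    (hB : B ⊆ B') (hU : U ⊆ U') (z y : V) :
    NN p q B U z y * ZZ p q B' U' ≤ ZZ p q B U * NN p q B' U' z y := by
  unfold NN ZZ
  apply SS_four hp0 hp1 hU
  · intro A; have := ind_nonneg (Rch A z y); positivity
  · intro A; positivity
  · intro A; positivity
  · intro A; have := ind_nonneg (Rch A z y); positivity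
  · intro ω hω ω' hω'
    have h1 := qkk_super hq (A₁ := ω ∪ B) (A₂ := ω' ∪ B') (A₃ := (ω ∩ ω') ∪ B)
      (A₄ := (ω ∪ ω') ∪ B') (by
        intro e he
        simp only [Finset.mem_union, Finset.mem_inter] at he ⊢
        rcases he with ⟨h1, h2⟩ | h1
        · exact ⟨Or.inl h1, Or.inl h2⟩
        · exact ⟨Or.inr h1, Or.inr (hB h1)⟩) (by
        ext e
        simp only [Finset.mem_union]
        constructor
        · rintro ((h | h) | h)
          · exact Or.inl (Or.inl h)
          · exact Or.inr (Or.inl h)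
          · exact Or.inr (Or.inr h)
        · rintro ((h | h) | (h | h))
          · exact Or.inl (Or.inl h)
          · exact Or.inr (hB h)
          · exact Or.inl (Or.inr h)
          · exact Or.inr h)
    have h2 : ind (Rch (ω ∪ B) z y) ≤ ind (Rch ((ω ∪ ω') ∪ B') z y) := by
      by_cases h : Rch (ω ∪ B) z y
      · rw [ind_true h, ind_true (h.mono (Finset.union_subset_union Finset.subset_union_left hB))]
      · rw [ind_false h]; exact ind_nonneg _
    calc q ^ kk (ω ∪ B) * ind (Rch (ω ∪ B) z y) * q ^ kk (ω' ∪ B')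
        = (q ^ kk (ω ∪ B) * q ^ kk (ω' ∪ B')) * ind (Rch (ω ∪ B) z y) := by ring
      _ ≤ (q ^ kk (ω ∩ ω' ∪ B) * q ^ kk (ω ∪ ω' ∪ B')) * ind (Rch ((ω ∪ ω') ∪ B') z y) := by
          apply mul_le_mul h1 h2 (ind_nonneg _); positivity
      _ = _ := by ring

/-- The wiring gain is increasing in the edge set. -/
lemma ZZ_wire_mono {p q : ℝ} (hp0 : 0 ≤ p) (hp1 : p ≤ 1) (hq : 1 ≤ q)
    {B U U' : Finset (Sym2 V)} (K : Finset (Sym2 V)) (hU : U ⊆ U') :
    ZZ p q (K ∪ B) U * ZZ p q B U' ≤ ZZ p q B U * ZZ p q (K ∪ B) U' := by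
  unfold ZZ
  apply SS_four hp0 hp1 hU
  · intro A; positivity
  · intro A; positivity
  · intro A; positivity
  · intro A; positivity
  · intro ω hω ω' hω'
    apply qkk_super hq
    · intro e he
      simp only [Finset.mem_union, Finset.mem_inter] at he ⊢
      rcases he with ⟨h1, h2⟩ | h1
      · exact ⟨Or.inl h1, Or.inl h2⟩
      · exact ⟨Or.inr (Or.inr h1), Or.inr h1⟩
    · ext e
      simp only [Finset.mem_union]
      tauto

/-- Contraction formula for the partition function. -/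
lemma contr_ZZ (p q : ℝ) {B U : Finset (Sym2 V)} {z c u : V} (hc : Rch B z c) :
    q * ZZ p q (insert s(c, u) B) U = ZZ p q B U + (q - 1) * NN p q B U z u := by
  unfold ZZ NN
  rw [← SS_mul, ← SS_mul, ← SS_add]
  apply SS_congr
  intro ω _
  rw [Finset.union_insert]
  have hc' : Rch (ω ∪ B) z c := hc.mono Finset.subset_union_right
  by_cases h : Rch (ω ∪ B) c u
  · rw [kk_insert_of_rch h, ind_true (hc'.trans h)]; ring
  · have h2 : ¬ Rch (ω ∪ B) z u := fun h3 => h (hc'.symm.trans h3)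
    rw [ind_false h2, ← kk_insert_of_not_rch h, pow_succ]; ring

/-- Contraction formula for the two-point weights. -/
lemma contr_NN (p q : ℝ) {B U : Finset (Sym2 V)} {z c u : V} (hc : Rch B z c) (y : V) :
    q * NN p q (insert s(c, u) B) U z y = NN p q B U z y + NN p q B U u y -
      (2 - q) * SS p B U (fun A => q ^ kk A * (ind (Rch A z u) * ind (Rch A z y))) := by
  unfold NN
  rw [sub_eq_add_neg, ← neg_mul, ← SS_mul, ← SS_mul, ← SS_add, ← SS_add]
  apply SS_congr
  intro ω _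
  rw [Finset.union_insert]
  have hc' : Rch (ω ∪ B) z c := hc.mono Finset.subset_union_right
  by_cases h : Rch (ω ∪ B) c u
  · have hzu := hc'.trans h
    have e1 : Rch (insert s(c, u) (ω ∪ B)) z y ↔ Rch (ω ∪ B) z y := by
      rw [Rch_insert]
      constructor
      · rintro (h1 | ⟨h1, h2⟩ | ⟨h1, h2⟩)
        · exact h1
        · exact hzu.trans h2
        · exact hc'.trans h2
      · intro h1; exact Or.inl h1
    have e2 : Rch (ω ∪ B) u y ↔ Rch (ω ∪ B) z y :=
      ⟨fun h1 => hzu.trans h1, fun h1 => hzu.symm.trans h1⟩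
    rw [kk_insert_of_rch h, ind_congr e1, ind_congr e2, ind_true hzu]; ring
  · have h2 : ¬ Rch (ω ∪ B) z u := fun h3 => h (hc'.symm.trans h3)
    have e1 : Rch (insert s(c, u) (ω ∪ B)) z y ↔ (Rch (ω ∪ B) z y ∨ Rch (ω ∪ B) u y) := by
      rw [Rch_insert]
      constructor
      · rintro (h1 | ⟨h1, h2⟩ | ⟨h1, h2⟩)
        · exact Or.inl h1
        · exact Or.inr h2
        · exact Or.inl (hc'.trans h2)
      · rintro (h1 | h1)
        · exact Or.inl h1
        · exact Or.inr (Or.inl ⟨hc', h1⟩)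
    have e3 : ind (Rch (insert s(c, u) (ω ∪ B)) z y) =
        ind (Rch (ω ∪ B) z y) + ind (Rch (ω ∪ B) u y) := by
      rw [ind_congr e1]
      by_cases h3 : Rch (ω ∪ B) z y
      · have h4 : ¬ Rch (ω ∪ B) u y := fun h4 => h2 (h3.trans h4.symm)
        rw [ind_true (Or.inl h3), ind_true h3, ind_false h4]; ring
      · by_cases h4 : Rch (ω ∪ B) u y
        · rw [ind_true (Or.inr h4), ind_false h3, ind_true h4]; ring
        · rw [ind_false (by tauto), ind_false h3, ind_false h4]; ring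
    rw [e3, ind_false h2, ← kk_insert_of_not_rch h, pow_succ]; ring

/-- Splitting off the configurations in which `z` and `u` are connected. -/
lemma split_NN (p q : ℝ) (B U : Finset (Sym2 V)) (z u y : V) :
    SS p B U (fun A => q ^ kk A * (ind (Rch A z y) * (1 - ind (Rch A z u)))) =
      NN p q B U z y - SS p B U (fun A => q ^ kk A * (ind (Rch A z u) * ind (Rch A z y))) := by
  unfold NN
  rw [sub_eq_add_neg, ← neg_one_mul, ← SS_mul, ← SS_add]
  apply SS_congr
  intro ω _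
  ring

end Pool.Agent.Helper580.Simon
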